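import Pool.Agent.H9.TM.LinM

/-!
# TN SumA: the sums of `E_2` and the sum of `E_3` with one small prime (parameters of the `5/24` version; compare `H9/TM/SumA.lean` and `H91/TQ/ZSumA.lean`)

`a = 2082/10000`, `b' = 3540/10000`, `b = 3541/10000`; `u = log p/L`, `v = log q/L`, `η` small, `N` large.
* `e2g`: `log(x/p) ≥ L (1 - u) - log 8 ≥ (1 - η) L (1 - u)`, `mert_r` with `f u = 1/(1-u)` on `[s, t]` (as in `e2r`, `H91/TQ/ZSumA.lean`, where `s > 1/4`, `t < 1/3`): `∫_s^t du/(u(1-u)) = log(t/(1-t)) - log(s/(1-s))`.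
* `s0_le`: `p² ≤ 16 N` gives `p ≤ N^(1/2 + η)`, `p ∈ PE N b' (1/2 + η)`: `log((1/2+η)/(1/2-η)) + log((1-b')/b') ≤ 0.6015 + 5η` (`log(6460/3540) = 0.60148`), allowed `0.6028`.
* `s1_le`: `log((1-a)/a) - log((1-b)/b) = log(7918 · 3541/(2082 · 6459)) = 0.73474`, allowed `0.7355`.
* `s2_le`: as `s2_le` of `TM/SumA`: `p q² ≤ 16 N`, `q > N^b'` give `u ≤ 1 - 2b' + η = 0.292 + η` and `v ≤ (1-u)/2 + η`; `v (1 - u - v) ≥ b' (1 - u - b')` for `b' ≤ v ≤ 1 - u - b'`, inner sum `≤ (1/L) (κ ((1-u)/2 - b') + O(η))`, `κ = 1/(b' (1 - u - b'))`,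
  `κ ((1-u)/2 - b') = (1/(2b')) (1 - b'/(1 - u - b')) ≤ 0.946916 - 3.188450 u` (tangent of `1/(1-u-b')` at `u = 0.25`: `≥ 2.525252 + 6.376900 (u - 0.25)`), positive up to `u = 0.2969`; outer sum over `PE N a (293/1000)` with `lin_m`:
  `≤ 0.946916 log(0.293/0.2082) - 3.188450 (0.293 - 0.2082) + small = 0.3236 - 0.2704 = 0.0532`, allowed `0.0540`.
Logarithms of rational numbers: `Real.log_le_iff_le_exp` and `Real.sum_le_exp_of_nonneg` (see `SumA_log` in `TM/SumA.lean`).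
-/

set_option autoImplicit false

namespace Pool.Agent.H9.TN

open Finset MeasureTheory
open Pool.Agent.H76.TP
open Pool.Agent.H9.TM (PE)

private theorem SumA_logA : Real.log ((29202 / 100000) / (2082 / 10000)) ≤ 3384 / 10000 := by
  rw [Real.log_le_iff_le_exp (by norm_num)]
  have h := Real.sum_le_exp_of_nonneg (x := 3384 / 10000) (by norm_num) 6
  refine le_trans ?_ h
  simp only [Finset.sum_range_succ, Finset.sum_range_zero, Nat.factorial]
  norm_num

private theorem SumA_logB : Real.log ((32306460 : ℝ) / 17696460) ≤ 6021 / 10000 := by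
  rw [Real.log_le_iff_le_exp (by norm_num)]
  have h := Real.sum_le_exp_of_nonneg (x := 6021 / 10000) (by norm_num) 8
  refine le_trans ?_ h
  simp only [Finset.sum_range_succ, Finset.sum_range_zero, Nat.factorial]
  norm_num

private theorem SumA_logC : Real.log ((28037638 : ℝ) / 13447638) ≤ 7350 / 10000 := by
  rw [Real.log_le_iff_le_exp (by norm_num)]
  have h := Real.sum_le_exp_of_nonneg (x := 7350 / 10000) (by norm_num) 8
  refine le_trans ?_ h
  simp only [Finset.sum_range_succ, Finset.sum_range_zero, Nat.factorial]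
  norm_num

private theorem SumA_log16 : Real.log 16 ≤ 3 := by
  have h1 : Real.log 16 = 4 * Real.log 2 := by
    rw [show (16 : ℝ) = 2 ^ (4 : ℕ) by norm_num, Real.log_pow]
    norm_num
  have h2 := Real.log_two_lt_d9
  rw [h1]
  linarith

private theorem SumA_log8 : Real.log 8 ≤ 3 :=
  (Real.log_le_log (by norm_num) (by norm_num)).trans SumA_log16

private theorem SumA_bigG (δ : ℝ) (hδ : 0 < δ) : ∃ N0 : ℕ, ∀ N : ℕ, N0 ≤ N → (1 : ℝ) < N ∧ 3 ≤ δ * Real.log N := by
  refine ⟨⌈Real.exp (3 / δ)⌉₊, fun N hN => ?_⟩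
  have h1 : Real.exp (3 / δ) ≤ N := (Nat.le_ceil _).trans (by exact_mod_cast hN)
  have h0 : 0 < 3 / δ := by positivity
  have h2 : (1 : ℝ) < Real.exp (3 / δ) := by
    have := Real.add_one_le_exp (3 / δ)
    linarith
  have h3 : (0 : ℝ) < N := by linarith
  refine ⟨by linarith, ?_⟩
  have h4 := (Real.le_log_iff_exp_le h3).2 h1
  rw [div_le_iff₀ hδ] at h4
  linarith

private theorem SumA_mem {N : ℕ} {s t : ℝ} (hN : (1 : ℝ) < N) {p : ℕ} (hp : p ∈ PE N s t) :
    (0 : ℝ) < p ∧ s < Real.log p / Real.log N ∧ Real.log p / Real.log N ≤ t := by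
  unfold PE at hp
  rw [Finset.mem_filter, Finset.mem_Icc] at hp
  obtain ⟨⟨h1, -⟩, -, h3, h4⟩ := hp
  have hp0 : (0 : ℝ) < p := by exact_mod_cast h1
  have hN0 : (0 : ℝ) < N := by linarith
  have hL : 0 < Real.log N := Real.log_pos hN
  refine ⟨hp0, ?_, ?_⟩
  · rw [lt_div_iff₀ hL]
    rw [Real.rpow_def_of_pos hN0, ← Real.lt_log_iff_exp_lt hp0] at h3
    linarith
  · rw [div_le_iff₀ hL]
    rw [Real.rpow_def_of_pos hN0, ← Real.log_le_iff_le_exp hp0] at h4
    linarith

private theorem SumA_x {N x : ℕ} (hN : (1 : ℝ) < N) (hx : N ≤ 8 * x) :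
    (0 : ℝ) < x ∧ Real.log N - 3 ≤ Real.log x := by
  have h1 : (N : ℝ) ≤ 8 * x := by exact_mod_cast hx
  have hx0 : (0 : ℝ) < x := by linarith
  have h2 := Real.log_le_log (by linarith) h1
  rw [Real.log_mul (by norm_num) hx0.ne'] at h2
  have := SumA_log8
  exact ⟨hx0, by linarith⟩

private theorem SumA_int (s t : ℝ) (hs : 0 < s) (hst : s < t) (ht : t ≤ 3 / 5) :
    ∫ u in s..t, 1 / (1 - u) / u = Real.log (t / (1 - t)) - Real.log (s / (1 - s)) := by
  have hd : ∀ u ∈ Set.uIcc s t, HasDerivAt (fun u : ℝ => Real.log (u / (1 - u))) (1 / (1 - u) / u) u := by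
    intro u hu
    rw [Set.uIcc_of_le hst.le] at hu
    have hu0 : 0 < u := by linarith [hu.1]
    have hu1 : 0 < 1 - u := by linarith [hu.2]
    have h1 : HasDerivAt (fun u : ℝ => 1 - u) (-1) u := by
      simpa using (hasDerivAt_id u).const_sub 1
    have h2 : HasDerivAt (fun u : ℝ => u / (1 - u)) ((1 * (1 - u) - u * (-1)) / (1 - u) ^ 2) u :=
      (hasDerivAt_id u).div h1 hu1.ne'
    have h3 := h2.log (div_pos hu0 hu1).ne'
    convert h3 using 1
    field_simp
    ring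
  refine intervalIntegral.integral_eq_sub_of_hasDerivAt hd ?_
  apply ContinuousOn.intervalIntegrable
  rw [Set.uIcc_of_le hst.le]
  refine (continuousOn_const.div (continuousOn_const.sub continuousOn_id) fun u hu => ?_).div continuousOn_id fun u hu => ?_
  · have : 0 < 1 - u := by linarith [hu.2]
    exact this.ne'
  · exact (lt_of_lt_of_le hs hu.1).ne'

theorem e2g (s t ε : ℝ) (hs : 0 < s) (hst : s < t) (ht : t ≤ 3 / 5) (hε : 0 < ε) : ∃ N0 : ℕ, ∀ N : ℕ, N0 ≤ N → ∀ x : ℕ,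
    N ≤ 8 * x → x ≤ 8 * N →
      ∑ p ∈ PE N s t, 1 / (p * Real.log ((x : ℝ) / p)) ≤ (Real.log (t / (1 - t)) - Real.log (s / (1 - s)) + ε) / Real.log N := by
  obtain ⟨I, hI⟩ : ∃ I : ℝ, I = Real.log (t / (1 - t)) - Real.log (s / (1 - s)) := ⟨_, rfl⟩
  have h1t : 0 < 1 - t := by linarith
  have h1s : 0 < 1 - s := by linarith
  have ht0 : 0 < t := by linarith
  have hI0 : 0 ≤ I := by
    have h : Real.log (s / (1 - s)) ≤ Real.log (t / (1 - t)) := by
      refine Real.log_le_log (div_pos hs h1s) ?_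
      exact div_le_div₀ ht0.le hst.le h1t (by linarith)
    linarith
  obtain ⟨δ, hδ⟩ : ∃ δ : ℝ, δ = ε / (2 * (I + ε)) := ⟨_, rfl⟩
  have hIε : 0 < I + ε := by linarith
  have hδ0 : 0 < δ := by rw [hδ]; positivity
  have hδI : δ * (I + ε) = ε / 2 := by
    rw [hδ]
    field_simp
  have hδ1 : δ ≤ 1 / 2 := by
    have h : δ * ε ≤ 1 / 2 * ε := by
      have := mul_nonneg hδ0.le hI0
      nlinarith
    exact le_of_mul_le_mul_right h hε
  obtain ⟨N1, hN1⟩ := SumA_bigG (δ * (2 / 5)) (by positivity)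
  obtain ⟨N2, hN2⟩ := mert_r s (25 / 4) (ε / 2) hs (by norm_num) (by positivity)
  refine ⟨max N1 N2, fun N hN x hx1 _ => ?_⟩
  obtain ⟨hNr, hηL⟩ := hN1 N (le_trans (le_max_left _ _) hN)
  have hL : 0 < Real.log N := Real.log_pos hNr
  obtain ⟨hx0, hlx⟩ := SumA_x hNr hx1
  have hM := hN2 N (le_trans (le_max_right _ _) hN) s t (fun u => 1 / (1 - u)) le_rfl hst.le (by linarith)
    (fun u hu => by
      have hu1 : 2 / 5 ≤ 1 - u := by linarith [hu.2]
      refine ⟨by positivity, ?_⟩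
      show 1 / (1 - u) ≤ 25 / 4
      rw [div_le_iff₀ (by linarith)]
      linarith)
    (fun u hu v hv => by
      have hu1 : 2 / 5 ≤ 1 - u := by linarith [hu.2]
      have hv1 : 2 / 5 ≤ 1 - v := by linarith [hv.2]
      have hu0 : 0 < 1 - u := by linarith
      have hv0 : 0 < 1 - v := by linarith
      show |1 / (1 - u) - 1 / (1 - v)| ≤ 25 / 4 * |u - v|
      have h1 : 1 / (1 - u) - 1 / (1 - v) = (u - v) / ((1 - u) * (1 - v)) := by
        field_simp
        ring
      have h2 : 4 / 25 ≤ (1 - u) * (1 - v) := by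
        have := mul_le_mul hu1 hv1 (by norm_num) hu0.le
        linarith
      rw [h1, abs_div, abs_of_pos (mul_pos hu0 hv0), div_le_iff₀ (mul_pos hu0 hv0)]
      have h3 := mul_le_mul_of_nonneg_left h2 (abs_nonneg (u - v))
      nlinarith [abs_nonneg (u - v)])
  have hM2 : ∑ p ∈ PE N s t, 1 / (1 - Real.log p / Real.log N) / p ≤ I + ε / 2 := by
    rw [hI, ← SumA_int s t hs hst ht]
    exact hM
  have hterm : ∀ p ∈ PE N s t, 1 / (p * Real.log ((x : ℝ) / p)) ≤
      1 / Real.log N / (1 - δ) * (1 / (1 - Real.log p / Real.log N) / p) := by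
    intro p hp
    obtain ⟨hp0, hu1, hu2⟩ := SumA_mem hNr hp
    obtain ⟨u, hu⟩ : ∃ u, u = Real.log p / Real.log N := ⟨_, rfl⟩
    have hpu : Real.log p = u * Real.log N := by rw [hu, div_mul_cancel₀ _ hL.ne']
    rw [← hu] at hu1 hu2 ⊢
    have hu3 : 2 / 5 ≤ 1 - u := by linarith
    have hu4 : 0 < 1 - u := by linarith
    have hd1 : 0 < 1 - δ := by linarith
    have h1 : (1 - δ) * (Real.log N * (1 - u)) ≤ Real.log ((x : ℝ) / p) := by
      rw [Real.log_div hx0.ne' hp0.ne', hpu]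
      have h2 : δ * Real.log N * (2 / 5) ≤ δ * Real.log N * (1 - u) :=
        mul_le_mul_of_nonneg_left hu3 (by positivity)
      have h3 : (1 - δ) * (Real.log N * (1 - u)) = Real.log N - u * Real.log N - δ * Real.log N * (1 - u) := by ring
      rw [h3]
      linarith
    have h4 : 1 / (p * Real.log ((x : ℝ) / p)) ≤ 1 / (p * ((1 - δ) * (Real.log N * (1 - u)))) :=
      one_div_le_one_div_of_le (by positivity) (mul_le_mul_of_nonneg_left h1 hp0.le)
    refine h4.trans (le_of_eq ?_)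
    field_simp
  have hd1 : 0 < 1 - δ := by linarith
  rw [← hI]
  calc ∑ p ∈ PE N s t, 1 / (p * Real.log ((x : ℝ) / p))
      ≤ ∑ p ∈ PE N s t, 1 / Real.log N / (1 - δ) * (1 / (1 - Real.log p / Real.log N) / p) :=
        Finset.sum_le_sum hterm
    _ = 1 / Real.log N / (1 - δ) * ∑ p ∈ PE N s t, 1 / (1 - Real.log p / Real.log N) / p := by
        rw [Finset.mul_sum]
    _ ≤ 1 / Real.log N / (1 - δ) * (I + ε / 2) :=
        mul_le_mul_of_nonneg_left hM2 (by positivity)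
    _ = (I + ε) / Real.log N := by
        have h1 : I + ε / 2 = (1 - δ) * (I + ε) := by linarith
        rw [h1]
        field_simp

theorem s0_le : ∃ N0 : ℕ, ∀ N : ℕ, N0 ≤ N → ∀ x : ℕ, N ≤ 8 * x → x ≤ 8 * N →
    ∑ p ∈ (Icc 1 (16 * N)).filter (fun p : ℕ => p.Prime ∧ (N : ℝ) ^ (3540 / 10000 : ℝ) < p ∧ p ^ 2 ≤ 16 * N),
      1 / (p * Real.log ((x : ℝ) / p)) ≤ (6028 / 10000) / Real.log N := by
  obtain ⟨N1, hN1⟩ := SumA_bigG (1 / 10000) (by norm_num)
  obtain ⟨N2, hN2⟩ := e2g (3540 / 10000) (5001 / 10000) (1 / 10000) (by norm_num) (by norm_num) (by norm_num) (by norm_num)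
  refine ⟨max N1 N2, fun N hN x hx1 hx2 => ?_⟩
  obtain ⟨hNr, hηL⟩ := hN1 N (le_trans (le_max_left _ _) hN)
  have hL : 0 < Real.log N := Real.log_pos hNr
  have hN0 : (0 : ℝ) < N := by linarith
  obtain ⟨hx0, hlx⟩ := SumA_x hNr hx1
  have hM := hN2 N (le_trans (le_max_right _ _) hN) x hx1 hx2
  have hsub : (Icc 1 (16 * N)).filter (fun p : ℕ => p.Prime ∧ (N : ℝ) ^ (3540 / 10000 : ℝ) < p ∧ p ^ 2 ≤ 16 * N) ⊆
      PE N (3540 / 10000) (5001 / 10000) := by
    intro p hp
    rw [Finset.mem_filter, Finset.mem_Icc] at hp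
    obtain ⟨⟨h1, -⟩, h2, h3, h4⟩ := hp
    have hp0 : (0 : ℝ) < p := by exact_mod_cast h1
    have h5 : (p : ℝ) ^ 2 ≤ 16 * N := by exact_mod_cast h4
    have h6 : Real.log ((p : ℝ) ^ 2) ≤ Real.log (16 * N) := Real.log_le_log (by positivity) h5
    rw [Real.log_pow, Real.log_mul (by norm_num) hN0.ne'] at h6
    push_cast at h6
    have h16 := SumA_log16
    have h7 : (p : ℝ) ≤ (N : ℝ) ^ (5001 / 10000 : ℝ) := by
      rw [Real.rpow_def_of_pos hN0, ← Real.log_le_iff_le_exp hp0]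
      linarith
    unfold PE
    rw [Finset.mem_filter, Finset.mem_Icc]
    refine ⟨⟨h1, ?_⟩, h2, h3, h7⟩
    have h12 : (N : ℝ) ^ (5001 / 10000 : ℝ) ≤ (N : ℝ) ^ (1 : ℝ) :=
      Real.rpow_le_rpow_of_exponent_le hNr.le (by norm_num)
    rw [Real.rpow_one] at h12
    exact_mod_cast h7.trans h12
  have hnn : ∀ p ∈ PE N (3540 / 10000) (5001 / 10000), 0 ≤ 1 / (p * Real.log ((x : ℝ) / p)) := by
    intro p hp
    obtain ⟨hp0, -, hu2⟩ := SumA_mem hNr hp
    rw [div_le_iff₀ hL] at hu2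
    have h1 : 0 ≤ Real.log ((x : ℝ) / p) := by
      rw [Real.log_div hx0.ne' hp0.ne']
      linarith
    exact one_div_nonneg.2 (mul_nonneg hp0.le h1)
  refine (Finset.sum_le_sum_of_subset_of_nonneg hsub fun p hp _ => hnn p hp).trans (hM.trans ?_)
  refine div_le_div_of_nonneg_right ?_ hL.le
  have h1 : Real.log (5001 / 10000 / (1 - 5001 / 10000)) - Real.log (3540 / 10000 / (1 - 3540 / 10000)) =
      Real.log ((32306460 : ℝ) / 17696460) := by
    rw [← Real.log_div (by norm_num) (by norm_num)]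
    norm_num
  rw [h1]
  have := SumA_logB
  linarith

theorem s1_le : ∃ N0 : ℕ, ∀ N : ℕ, N0 ≤ N → ∀ x : ℕ, N ≤ 8 * x → x ≤ 8 * N →
    ∑ p ∈ PE N (2082 / 10000) (3541 / 10000), 1 / (p * Real.log ((x : ℝ) / p)) ≤ (7355 / 10000) / Real.log N := by
  obtain ⟨N1, hN1⟩ := SumA_bigG (1 / 10000) (by norm_num)
  obtain ⟨N2, hN2⟩ := e2g (2082 / 10000) (3541 / 10000) (1 / 10000) (by norm_num) (by norm_num) (by norm_num) (by norm_num)
  refine ⟨max N1 N2, fun N hN x hx1 hx2 => ?_⟩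
  obtain ⟨hNr, -⟩ := hN1 N (le_trans (le_max_left _ _) hN)
  have hL : 0 < Real.log N := Real.log_pos hNr
  refine (hN2 N (le_trans (le_max_right _ _) hN) x hx1 hx2).trans ?_
  refine div_le_div_of_nonneg_right ?_ hL.le
  have h1 : Real.log (3541 / 10000 / (1 - 3541 / 10000)) - Real.log (2082 / 10000 / (1 - 2082 / 10000)) =
      Real.log ((28037638 : ℝ) / 13447638) := by
    rw [← Real.log_div (by norm_num) (by norm_num)]
    norm_num
  rw [h1]
  have := SumA_logC
  linarith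

theorem s2_le : ∃ N0 : ℕ, ∀ N : ℕ, N0 ≤ N → ∀ x : ℕ, N ≤ 8 * x → x ≤ 8 * N →
    ∑ p ∈ PE N (2082 / 10000) (3541 / 10000),
      ∑ q ∈ (Icc 1 (16 * N)).filter (fun q : ℕ => q.Prime ∧ (N : ℝ) ^ (3540 / 10000 : ℝ) < q ∧ p * q ^ 2 ≤ 16 * N),
        1 / (p * q * Real.log ((x : ℝ) / (p * q))) ≤ (540 / 10000) / Real.log N := by
  obtain ⟨N1, hN1⟩ := SumA_bigG (1 / 100000) (by norm_num)
  obtain ⟨N2, hN2⟩ := Pool.Agent.H9.TM.lin_m (1 / 5) 10 (1 / 100000) (by norm_num) (by norm_num) (by norm_num)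
  refine ⟨max N1 N2, fun N hN x hx1 _ => ?_⟩
  obtain ⟨hNr, hηL⟩ := hN1 N (le_trans (le_max_left _ _) hN)
  have hM0 := hN2 N (le_trans (le_max_right _ _) hN)
  have hL : 0 < Real.log N := Real.log_pos hNr
  have hN0 : (0 : ℝ) < N := by linarith
  obtain ⟨hx0, hlx⟩ := SumA_x hNr hx1
  have hM := hM0 (2082 / 10000) (29202 / 100000) (9472 / 10000) (-(31884 / 10000))
    (by norm_num) (by norm_num) (by norm_num) (by rw [abs_of_pos (by norm_num)]; norm_num)
    (by rw [abs_neg, abs_of_pos (by norm_num)]; norm_num) (fun u hu => by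
      have := hu.2
      linarith)
  have hqf0 : ∀ (p : ℕ), (0 : ℝ) < p → ∀ q ∈ (Icc 1 (16 * N)).filter
        (fun q : ℕ => q.Prime ∧ (N : ℝ) ^ (3540 / 10000 : ℝ) < q ∧ p * q ^ 2 ≤ 16 * N),
        (1 ≤ q ∧ q.Prime ∧ (N : ℝ) ^ (3540 / 10000 : ℝ) < q) ∧
        (0 : ℝ) < q ∧ 3540 / 10000 < Real.log q / Real.log N ∧
          Real.log q / Real.log N ≤ (1 - Real.log p / Real.log N) / 2 + 1 / 100000 := by
    intro p hp0 q hqm
    rw [Finset.mem_filter, Finset.mem_Icc] at hqm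
    obtain ⟨⟨h1, -⟩, h2, h8, h3⟩ := hqm
    have hq0 : (0 : ℝ) < q := by exact_mod_cast h1
    obtain ⟨u, hu⟩ : ∃ u, u = Real.log p / Real.log N := ⟨_, rfl⟩
    have hpu : Real.log p = u * Real.log N := by rw [hu, div_mul_cancel₀ _ hL.ne']
    rw [← hu]
    have h5 : (p : ℝ) * (q : ℝ) ^ 2 ≤ 16 * N := by exact_mod_cast h3
    have h6 : Real.log ((p : ℝ) * (q : ℝ) ^ 2) ≤ Real.log (16 * N) :=
      Real.log_le_log (by positivity) h5
    rw [Real.log_mul hp0.ne' (by positivity), Real.log_pow, Real.log_mul (by norm_num) hN0.ne', hpu] at h6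
    push_cast at h6
    have h16 := SumA_log16
    have h7 : Real.log q ≤ ((1 - u) / 2 + 1 / 100000) * Real.log N := by
      have : ((1 - u) / 2 + 1 / 100000) * Real.log N =
        (Real.log N - u * Real.log N) / 2 + 1 / 100000 * Real.log N := by ring
      rw [this]
      linarith
    have h9 : Real.log q / Real.log N ≤ (1 - u) / 2 + 1 / 100000 := by
      rw [div_le_iff₀ hL]
      exact h7
    have h10 : 3540 / 10000 < Real.log q / Real.log N := by
      have h8' := h8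
      rw [lt_div_iff₀ hL]
      rw [Real.rpow_def_of_pos hN0, ← Real.lt_log_iff_exp_lt hq0] at h8'
      linarith
    exact ⟨⟨h1, h2, h8⟩, hq0, h10, h9⟩
  have hinner : ∀ p ∈ PE N (2082 / 10000) (29202 / 100000),
      ∑ q ∈ (Icc 1 (16 * N)).filter (fun q : ℕ => q.Prime ∧ (N : ℝ) ^ (3540 / 10000 : ℝ) < q ∧ p * q ^ 2 ≤ 16 * N),
        1 / (p * q * Real.log ((x : ℝ) / (p * q))) ≤
      1 / Real.log N * ((9472 / 10000 + -(31884 / 10000) * (Real.log p / Real.log N)) / p) := by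
    intro p hp
    obtain ⟨hp0, hu1, hu2⟩ := SumA_mem hNr hp
    have hqf1 := hqf0 p hp0
    obtain ⟨u, hu⟩ : ∃ u, u = Real.log p / Real.log N := ⟨_, rfl⟩
    have hpu : Real.log p = u * Real.log N := by rw [hu, div_mul_cancel₀ _ hL.ne']
    rw [← hu] at hu1 hu2 hqf1 ⊢
    have hc : 0 < 3540 / 10000 * (1 - u - 3540 / 10000) - 1 / 100000 := by linarith
    obtain ⟨κ, hκ⟩ : ∃ κ : ℝ, κ = 1 / (3540 / 10000 * (1 - u - 3540 / 10000) - 1 / 100000) := ⟨_, rfl⟩
    have hκ0 : 0 < κ := by rw [hκ]; positivity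
    have hκ10 : κ ≤ 10 := by
      rw [hκ, div_le_iff₀ hc]
      linarith
    have hκc : κ * (3540 / 10000 * (1 - u - 3540 / 10000) - 1 / 100000) = 1 := by
      rw [hκ]
      exact div_mul_cancel₀ _ hc.ne'
    have hin := hM0 (3540 / 10000) ((1 - u) / 2 + 1 / 100000) 0 κ (by norm_num) (by linarith) (by linarith)
      (by rw [abs_zero]; norm_num) (by rw [abs_of_pos hκ0]; exact hκ10) (fun v hv => by
        have h1 : 0 ≤ v := by linarith [hv.1]
        have h2 : 0 ≤ κ * v := mul_nonneg hκ0.le h1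
        linarith)
    have hqf : ∀ q ∈ (Icc 1 (16 * N)).filter
        (fun q : ℕ => q.Prime ∧ (N : ℝ) ^ (3540 / 10000 : ℝ) < q ∧ p * q ^ 2 ≤ 16 * N),
        (0 : ℝ) < q ∧ 3540 / 10000 < Real.log q / Real.log N ∧
          Real.log q / Real.log N ≤ (1 - u) / 2 + 1 / 100000 ∧ q ∈ PE N (3540 / 10000) ((1 - u) / 2 + 1 / 100000) := by
      intro q hqm
      obtain ⟨⟨h1, h2, h8⟩, hq0, h10, h9⟩ := hqf1 q hqm
      have h7 : Real.log q ≤ ((1 - u) / 2 + 1 / 100000) * Real.log N := by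
        rw [← div_le_iff₀ hL]
        exact h9
      have h11 : (q : ℝ) ≤ (N : ℝ) ^ ((1 - u) / 2 + 1 / 100000) := by
        rw [Real.rpow_def_of_pos hN0, ← Real.log_le_iff_le_exp hq0]
        linarith
      refine ⟨hq0, h10, h9, ?_⟩
      unfold PE
      rw [Finset.mem_filter, Finset.mem_Icc]
      refine ⟨⟨h1, ?_⟩, h2, h8, h11⟩
      have h12 : (N : ℝ) ^ ((1 - u) / 2 + 1 / 100000) ≤ (N : ℝ) ^ (1 : ℝ) :=
        Real.rpow_le_rpow_of_exponent_le hNr.le (by linarith)
      rw [Real.rpow_one] at h12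
      exact_mod_cast h11.trans h12
    have hterm : ∀ q ∈ (Icc 1 (16 * N)).filter
        (fun q : ℕ => q.Prime ∧ (N : ℝ) ^ (3540 / 10000 : ℝ) < q ∧ p * q ^ 2 ≤ 16 * N),
        1 / (p * q * Real.log ((x : ℝ) / (p * q))) ≤
        1 / Real.log N / p * ((0 + κ * (Real.log q / Real.log N)) / q) := by
      intro q hqm
      obtain ⟨hq0, hv1, hv2, -⟩ := hqf q hqm
      obtain ⟨v, hv⟩ : ∃ v, v = Real.log q / Real.log N := ⟨_, rfl⟩
      have hqv : Real.log q = v * Real.log N := by rw [hv, div_mul_cancel₀ _ hL.ne']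
      rw [← hv] at hv1 hv2 ⊢
      have hD : 0 < 1 - 1 / 100000 - u - v := by linarith
      have h1 : Real.log N * (1 - 1 / 100000 - u - v) ≤ Real.log ((x : ℝ) / (p * q)) := by
        rw [Real.log_div hx0.ne' (mul_pos hp0 hq0).ne', Real.log_mul hp0.ne' hq0.ne', hpu, hqv]
        have : Real.log N * (1 - 1 / 100000 - u - v) =
          Real.log N - 1 / 100000 * Real.log N - u * Real.log N - v * Real.log N := by ring
        rw [this]
        linarith
      have h2 : 3540 / 10000 * (1 - u - 3540 / 10000) - 1 / 100000 ≤ v * (1 - 1 / 100000 - u - v) := by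
        have h3 : v * (1 - 1 / 100000 - u - v) -
          (3540 / 10000 * (1 - u - 3540 / 10000) - 1 / 100000) =
          (v - 3540 / 10000) * (1 - u - v - 3540 / 10000 + 2 / 100000) +
            ((1 - v) / 100000 - (v - 3540 / 10000) * (2 / 100000)) := by ring
        have h4 : 0 ≤ (v - 3540 / 10000) * (1 - u - v - 3540 / 10000 + 2 / 100000) :=
          mul_nonneg (by linarith) (by linarith)
        have h5 : 0 ≤ (1 - v) / 100000 - (v - 3540 / 10000) * (2 / 100000) := by linarith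
        linarith
      have h3 : 1 ≤ κ * v * (1 - 1 / 100000 - u - v) := by
        have := mul_le_mul_of_nonneg_left h2 hκ0.le
        rw [hκc] at this
        calc (1 : ℝ) ≤ κ * (v * (1 - 1 / 100000 - u - v)) := this
          _ = κ * v * (1 - 1 / 100000 - u - v) := by ring
      have h4 : 1 / (p * q * Real.log ((x : ℝ) / (p * q))) ≤
          1 / (p * q * (Real.log N * (1 - 1 / 100000 - u - v))) :=
        one_div_le_one_div_of_le (by positivity) (mul_le_mul_of_nonneg_left h1 (by positivity))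
      refine h4.trans ?_
      rw [div_le_iff₀ (by positivity)]
      have h5 : 1 / Real.log N / p * ((0 + κ * v) / q) *
          (p * q * (Real.log N * (1 - 1 / 100000 - u - v))) = κ * v * (1 - 1 / 100000 - u - v) := by
        rw [zero_add]
        field_simp
      rw [h5]
      exact h3
    have hfin : κ * ((1 - u) / 2 + 1 / 100000 - 3540 / 10000) + 1 / 100000 ≤
        9472 / 10000 + -(31884 / 10000) * u := by
      have h1 : (1 - u) / 2 + 1 / 100000 - 3540 / 10000 ≤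
          (9471 / 10000 - 31884 / 10000 * u) * (3540 / 10000 * (1 - u - 3540 / 10000) - 1 / 100000) := by
        nlinarith [sq_nonneg (u - 1 / 4)]
      have h2 : κ * ((1 - u) / 2 + 1 / 100000 - 3540 / 10000) ≤ 9471 / 10000 - 31884 / 10000 * u := by
        have h3 := mul_le_mul_of_nonneg_left h1 hκ0.le
        calc κ * ((1 - u) / 2 + 1 / 100000 - 3540 / 10000) ≤ _ := h3
          _ = (9471 / 10000 - 31884 / 10000 * u) *
            (κ * (3540 / 10000 * (1 - u - 3540 / 10000) - 1 / 100000)) := by ring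
          _ = 9471 / 10000 - 31884 / 10000 * u := by rw [hκc, mul_one]
      linarith
    calc ∑ q ∈ (Icc 1 (16 * N)).filter
          (fun q : ℕ => q.Prime ∧ (N : ℝ) ^ (3540 / 10000 : ℝ) < q ∧ p * q ^ 2 ≤ 16 * N),
          1 / (p * q * Real.log ((x : ℝ) / (p * q)))
        ≤ ∑ q ∈ (Icc 1 (16 * N)).filter
            (fun q : ℕ => q.Prime ∧ (N : ℝ) ^ (3540 / 10000 : ℝ) < q ∧ p * q ^ 2 ≤ 16 * N),
          1 / Real.log N / p * ((0 + κ * (Real.log q / Real.log N)) / q) := Finset.sum_le_sum hterm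
      _ ≤ ∑ q ∈ PE N (3540 / 10000) ((1 - u) / 2 + 1 / 100000),
          1 / Real.log N / p * ((0 + κ * (Real.log q / Real.log N)) / q) := by
          refine Finset.sum_le_sum_of_subset_of_nonneg (fun q hq => (hqf q hq).2.2.2) ?_
          intro q hq _
          obtain ⟨hq0, hv1, -⟩ := SumA_mem hNr hq
          have h1 : 0 < Real.log q / Real.log N := by linarith
          positivity
      _ = 1 / Real.log N / p * ∑ q ∈ PE N (3540 / 10000) ((1 - u) / 2 + 1 / 100000),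
            (0 + κ * (Real.log q / Real.log N)) / q := by rw [Finset.mul_sum]
      _ ≤ 1 / Real.log N / p * (9472 / 10000 + -(31884 / 10000) * u) := by
          refine mul_le_mul_of_nonneg_left (hin.trans ?_) (by positivity)
          rw [zero_mul, zero_add]
          exact hfin
      _ = 1 / Real.log N * ((9472 / 10000 + -(31884 / 10000) * u) / p) := by ring
  have hred : ∑ p ∈ PE N (2082 / 10000) (3541 / 10000),
      ∑ q ∈ (Icc 1 (16 * N)).filter (fun q : ℕ => q.Prime ∧ (N : ℝ) ^ (3540 / 10000 : ℝ) < q ∧ p * q ^ 2 ≤ 16 * N),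
        1 / (p * q * Real.log ((x : ℝ) / (p * q))) =
      ∑ p ∈ PE N (2082 / 10000) (29202 / 100000),
      ∑ q ∈ (Icc 1 (16 * N)).filter (fun q : ℕ => q.Prime ∧ (N : ℝ) ^ (3540 / 10000 : ℝ) < q ∧ p * q ^ 2 ≤ 16 * N),
        1 / (p * q * Real.log ((x : ℝ) / (p * q))) := by
    symm
    apply Finset.sum_subset
    · intro p hp
      unfold PE at hp ⊢
      rw [Finset.mem_filter] at hp ⊢
      exact ⟨hp.1, hp.2.1, hp.2.2.1, hp.2.2.2.trans
        (Real.rpow_le_rpow_of_exponent_le hNr.le (by norm_num))⟩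
    · intro p hp hp2
      obtain ⟨hp0, hu1, hu2⟩ := SumA_mem hNr hp
      have hbig : 29202 / 100000 < Real.log p / Real.log N := by
        by_contra hle
        rw [not_lt, div_le_iff₀ hL] at hle
        apply hp2
        unfold PE at hp ⊢
        rw [Finset.mem_filter] at hp ⊢
        refine ⟨hp.1, hp.2.1, hp.2.2.1, ?_⟩
        rw [Real.rpow_def_of_pos hN0, ← Real.log_le_iff_le_exp hp0]
        linarith
      apply Finset.sum_eq_zero
      intro q hq
      exfalso
      obtain ⟨-, -, h1, h2⟩ := hqf0 p hp0 q hq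
      linarith
  rw [hred]
  have hl := SumA_logA
  calc ∑ p ∈ PE N (2082 / 10000) (29202 / 100000),
      ∑ q ∈ (Icc 1 (16 * N)).filter (fun q : ℕ => q.Prime ∧ (N : ℝ) ^ (3540 / 10000 : ℝ) < q ∧ p * q ^ 2 ≤ 16 * N),
        1 / (p * q * Real.log ((x : ℝ) / (p * q)))
      ≤ ∑ p ∈ PE N (2082 / 10000) (29202 / 100000),
        1 / Real.log N * ((9472 / 10000 + -(31884 / 10000) * (Real.log p / Real.log N)) / p) :=
        Finset.sum_le_sum hinner
    _ = 1 / Real.log N * ∑ p ∈ PE N (2082 / 10000) (29202 / 100000),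
        (9472 / 10000 + -(31884 / 10000) * (Real.log p / Real.log N)) / p := by rw [Finset.mul_sum]
    _ ≤ 1 / Real.log N * (540 / 10000) := by
        refine mul_le_mul_of_nonneg_left (hM.trans ?_) (one_div_pos.2 hL).le
        linarith
    _ = (540 / 10000) / Real.log N := by ring

end Pool.Agent.H9.TN
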