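import Pool.Agent.H9.TM.LinM

/-!
# TN SumB: the sum over the pairs of small primes (parameters of the `5/24` version; compare `H9/TM/SumB.lean`)

`a = 2082/10000`, `b = 3541/10000`, `u = log p/L`, `v = log q/L ∈ (a, b]`, `log(x/(pq)) ≥ L (1 - u - v) - log 8 ≥ L (1 - η - u - v)`.  `U = u - a`, `V = v - a ∈ [0, 0.1459]`, `t = U + V ≤ 0.2918`, `c = 1 - 2a = 0.5836`:
`1/(c - t) = 1/c + t/c² + t²/(c² (c - t)) ≤ 1.713503 + 2.936091 t + 10.0621 t²` (`c - t ≥ 0.2918`; slightly larger coefficients for `η`).  `S0 = ∑ 1/p ≤ log(b/a) + ε ≤ 0.53112`, `S1 = ∑ U/p ≤ (b - a) - a log(b/a) + ε ≤ 0.03534`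
(`lin_m`, `α = -a`, `β = 1`; `log(b/a) ≥ 0.53105`), `S2 = ∑ U²/p ≤ ∫_a^b (u-a)²/u du + ε = (b-a)²/2 - a (b-a) + a² log(b/a) + ε ≤ 0.00330` (`mert_r` with `f u = (u - a)²`; or from `(u-a)² ≤ u (u-a)²/a`:
`∫ (u-a)² du/a = (b-a)³/(3a) = 0.00498` is NOT enough).  All ordered pairs: `≤ (1/L) (1.713503 S0² + 2 · 2.936091 S0 S1 + 10.0621 (2 S0 S2 + 2 S1²)) ≤ 0.6548/L`; half of it for `p < q` (symmetry, `SumB_half` in `TM/SumB.lean`): `0.3274`, allowed `0.3285`.
-/

set_option autoImplicit false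

namespace Pool.Agent.H9.TN

open Finset MeasureTheory
open Pool.Agent.H76.TP
open Pool.Agent.H9.TM (PE lin_m)

private theorem SumB_log_up : Real.log (3541 / 10000 / (2082 / 10000)) ≤ 53109 / 100000 := by
  have h2 := Real.log_two_lt_d9
  have e1 : (3541 / 10000 / (2082 / 10000) : ℝ) = 3541 / 2082 := by norm_num
  rw [e1]
  have h3 : Real.log ((3541 / 2082 : ℝ) ^ 17 / 2 ^ 13) ≤ (3541 / 2082 : ℝ) ^ 17 / 2 ^ 13 - 1 :=
    Real.log_le_sub_one_of_pos (by positivity)
  rw [Real.log_div (by positivity) (by positivity), Real.log_pow, Real.log_pow] at h3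
  have h4 : (3541 / 2082 : ℝ) ^ 17 / 2 ^ 13 - 1 ≤ 17604 / 1000000 := by norm_num
  push_cast at h3
  linarith

private theorem SumB_log_lo : 53107 / 100000 ≤ Real.log (3541 / 10000 / (2082 / 10000)) := by
  have h2 := Real.log_two_gt_d9
  have e1 : (3541 / 10000 / (2082 / 10000) : ℝ) = 3541 / 2082 := by norm_num
  rw [e1]
  have h3 : Real.log (2 ^ 13 / (3541 / 2082 : ℝ) ^ 17) ≤ 2 ^ 13 / (3541 / 2082 : ℝ) ^ 17 - 1 :=
    Real.log_le_sub_one_of_pos (by positivity)
  rw [Real.log_div (by positivity) (by positivity), Real.log_pow, Real.log_pow] at h3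
  have h4 : 2 ^ 13 / (3541 / 2082 : ℝ) ^ 17 - 1 ≤ -17298 / 1000000 := by norm_num
  push_cast at h3
  linarith

/-- the quadratic majorant -/
private theorem SumB_quad (η s t : ℝ) (hη : η ≤ 1 / 100000) (hs : 0 ≤ s)
    (hs2 : s ≤ 2918 / 10000) (ht : 5836 / 10000 - η - s ≤ t) :
    0 < t ∧ 1 / t ≤ 171354 / 100000 + 293622 / 100000 * s + 10063 / 1000 * s ^ 2 := by
  have ht0 : 0 < t := by linarith
  refine ⟨ht0, ?_⟩
  rw [div_le_iff₀ ht0]
  have h1 : (171354 / 100000 + 293622 / 100000 * s + 10063 / 1000 * s ^ 2) *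
      (5836 / 10000 - 1 / 100000 - s) ≤
      (171354 / 100000 + 293622 / 100000 * s + 10063 / 1000 * s ^ 2) * t :=
    mul_le_mul_of_nonneg_left (by linarith) (by positivity)
  refine le_trans ?_ h1
  have h2 : 0 ≤ s ^ 2 * (2918 / 10000 - s) := mul_nonneg (by positivity) (by linarith)
  have h3 : 0 ≤ s ^ 2 := by positivity
  have e : (171354 / 100000 + 293622 / 100000 * s + 10063 / 1000 * s ^ 2) *
      (5836 / 10000 - 1 / 100000 - s) =
      171354 / 100000 * (5836 / 10000 - 1 / 100000) +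
      (293622 / 100000 * (5836 / 10000 - 1 / 100000) - 171354 / 100000) * s +
      (10063 / 1000 * (5836 / 10000 - 1 / 100000 - 2918 / 10000) - 293622 / 100000) * s ^ 2 +
      10063 / 1000 * (s ^ 2 * (2918 / 10000 - s)) := by ring
  rw [e]
  have h4 : (1 : ℝ) ≤ 171354 / 100000 * (5836 / 10000 - 1 / 100000) := by norm_num
  have h5 : 0 ≤ (293622 / 100000 * (5836 / 10000 - 1 / 100000) - 171354 / 100000) * s :=
    mul_nonneg (by norm_num) hs
  have h6 : 0 ≤ (10063 / 1000 * (5836 / 10000 - 1 / 100000 - 2918 / 10000) - 293622 / 100000) * s ^ 2 :=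
    mul_nonneg (by norm_num) h3
  linarith

private theorem SumB_half (P : Finset ℕ) (G : ℕ → ℕ → ℝ) (h0 : ∀ p ∈ P, ∀ q ∈ P, 0 ≤ G p q)
    (hs : ∀ p q, G p q = G q p) :
    2 * ∑ p ∈ P, ∑ q ∈ P.filter (fun q => p < q), G p q ≤ ∑ p ∈ P, ∑ q ∈ P, G p q := by
  have h1 : ∑ p ∈ P, ∑ q ∈ P.filter (fun q => p < q), G p q =
      ∑ p ∈ P, ∑ q ∈ P.filter (fun q => q < p), G p q := by
    rw [sum_comm' (t' := P) (s' := fun q => P.filter (fun p => p < q))]
    · exact sum_congr rfl fun p _ => sum_congr rfl fun q _ => hs q p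
    · intro p q
      simp only [mem_filter]
      tauto
  calc 2 * ∑ p ∈ P, ∑ q ∈ P.filter (fun q => p < q), G p q
      = ∑ p ∈ P, ∑ q ∈ P.filter (fun q => p < q), G p q +
        ∑ p ∈ P, ∑ q ∈ P.filter (fun q => q < p), G p q := by
        rw [← h1]
        ring
    _ = ∑ p ∈ P, (∑ q ∈ P.filter (fun q => p < q), G p q +
        ∑ q ∈ P.filter (fun q => q < p), G p q) := by rw [sum_add_distrib]
    _ ≤ ∑ p ∈ P, ∑ q ∈ P, G p q := by
        refine sum_le_sum fun p hp => ?_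
        rw [← sum_union]
        · refine sum_le_sum_of_subset_of_nonneg ?_ fun q hq _ => h0 p hp q hq
          intro q hq
          rw [mem_union, mem_filter, mem_filter] at hq
          rcases hq with hq | hq
          · exact hq.1
          · exact hq.1
        · rw [disjoint_left]
          intro q h2 h3
          rw [mem_filter] at h2 h3
          omega

private theorem SumB_full (P : Finset ℕ) (f : ℕ → ℝ) (c d e : ℝ) :
    ∑ p ∈ P, ∑ q ∈ P, (c + d * (f p + f q) + e * (f p + f q) ^ 2) / ((p : ℝ) * q) =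
      c * (∑ p ∈ P, 1 / (p : ℝ)) ^ 2 + 2 * d * ((∑ p ∈ P, 1 / (p : ℝ)) * ∑ p ∈ P, f p / (p : ℝ)) +
      2 * e * ((∑ p ∈ P, 1 / (p : ℝ)) * ∑ p ∈ P, f p ^ 2 / (p : ℝ) + (∑ p ∈ P, f p / (p : ℝ)) ^ 2) := by
  have h1 : ∀ p q : ℕ, (c + d * (f p + f q) + e * (f p + f q) ^ 2) / ((p : ℝ) * q) =
      c * (1 / (p : ℝ) * (1 / (q : ℝ))) + d * (f p / (p : ℝ) * (1 / (q : ℝ))) +
        d * (1 / (p : ℝ) * (f q / (q : ℝ))) + e * (f p ^ 2 / (p : ℝ) * (1 / (q : ℝ))) +
        e * (1 / (p : ℝ) * (f q ^ 2 / (q : ℝ))) + 2 * e * (f p / (p : ℝ) * (f q / (q : ℝ))) := by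
    intro p q
    rw [div_eq_mul_inv, mul_inv]
    ring
  simp only [h1, sum_add_distrib, ← mul_sum, ← sum_mul]
  ring

/-- the quadratic sum -/
private theorem SumB_sq (ε : ℝ) (hε : 0 < ε) : ∃ N0 : ℕ, ∀ N : ℕ, N0 ≤ N →
    ∑ p ∈ PE N (2082 / 10000) (3541 / 10000),
      (Real.log p / Real.log N - 2082 / 10000) ^ 2 / (p : ℝ) ≤
      ((3541 / 10000) ^ 2 - (2082 / 10000) ^ 2) / 2 -
        2 * (2082 / 10000) * (3541 / 10000 - 2082 / 10000) +
        (2082 / 10000) ^ 2 * Real.log (3541 / 10000 / (2082 / 10000)) + ε := by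
  obtain ⟨N0, hN0⟩ := mert_r (2082 / 10000) 2 ε (by norm_num) (by norm_num) hε
  refine ⟨N0, fun N hN => ?_⟩
  have h := hN0 N hN (2082 / 10000) (3541 / 10000) (fun u => (u - 2082 / 10000) ^ 2) le_rfl
    (by norm_num) (by norm_num) (fun u hu => ⟨by positivity, ?_⟩) (fun u hu v hv => ?_)
  · refine h.trans (le_of_eq ?_)
    have h1 : ∫ u in (2082 / 10000 : ℝ)..(3541 / 10000), (u - 2082 / 10000) ^ 2 / u =
        ∫ u in (2082 / 10000 : ℝ)..(3541 / 10000),
          ((u - 2 * (2082 / 10000)) + (2082 / 10000) ^ 2 * (1 / u)) := by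
      refine intervalIntegral.integral_congr fun u hu => ?_
      rw [Set.uIcc_of_le (by norm_num)] at hu
      have hu0 : u ≠ 0 := by
        have := hu.1
        intro h0
        rw [h0] at this
        norm_num at this
      show (u - 2082 / 10000) ^ 2 / u = (u - 2 * (2082 / 10000)) + (2082 / 10000) ^ 2 * (1 / u)
      field_simp
      ring
    rw [h1]
    have h0 : ∀ u ∈ Set.uIcc (2082 / 10000 : ℝ) (3541 / 10000), u ≠ 0 := by
      intro u hu
      rw [Set.uIcc_of_le (by norm_num)] at hu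
      have := hu.1
      intro h0
      rw [h0] at this
      norm_num at this
    have hint : IntervalIntegrable (fun u : ℝ => (2082 / 10000 : ℝ) ^ 2 * (1 / u)) volume
        (2082 / 10000) (3541 / 10000) :=
      (intervalIntegral.intervalIntegrable_one_div h0 continuousOn_id).const_mul _
    have hint2 : IntervalIntegrable (fun u : ℝ => u - 2 * (2082 / 10000)) volume
        (2082 / 10000) (3541 / 10000) :=
      (continuous_id.sub continuous_const).intervalIntegrable _ _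
    rw [intervalIntegral.integral_add hint2 hint, intervalIntegral.integral_const_mul,
      integral_one_div_of_pos (by norm_num) (by norm_num),
      intervalIntegral.integral_sub intervalIntegral.intervalIntegrable_id
        intervalIntegrable_const, integral_id, intervalIntegral.integral_const, smul_eq_mul]
    ring
  · have h1 : 0 ≤ u - 2082 / 10000 := by linarith [hu.1]
    have h2 : u - 2082 / 10000 ≤ 1 := by linarith [hu.2]
    show (u - 2082 / 10000) ^ 2 ≤ 2
    have h3 : (u - 2082 / 10000) ^ 2 ≤ 1 ^ 2 := pow_le_pow_left₀ h1 h2 2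
    linarith
  · show |(u - 2082 / 10000) ^ 2 - (v - 2082 / 10000) ^ 2| ≤ 2 * |u - v|
    have e : (u - 2082 / 10000) ^ 2 - (v - 2082 / 10000) ^ 2 =
        ((u - 2082 / 10000) + (v - 2082 / 10000)) * (u - v) := by ring
    rw [e, abs_mul]
    refine mul_le_mul_of_nonneg_right ?_ (abs_nonneg _)
    rw [abs_le]
    constructor
    · linarith [hu.1, hv.1]
    · linarith [hu.2, hv.2]

theorem s3_le : ∃ N0 : ℕ, ∀ N : ℕ, N0 ≤ N → ∀ x : ℕ, N ≤ 8 * x → x ≤ 8 * N →
    ∑ p ∈ PE N (2082 / 10000) (3541 / 10000), ∑ q ∈ (PE N (2082 / 10000) (3541 / 10000)).filter (fun q => p < q),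
        1 / (p * q * Real.log ((x : ℝ) / (p * q))) ≤ (3285 / 10000) / Real.log N := by
  obtain ⟨N1, hN1⟩ := lin_m (2082 / 10000) 1 (1 / 1000000) (by norm_num) (by norm_num) (by norm_num)
  obtain ⟨N4, hN4⟩ := SumB_sq (1 / 1000000) (by norm_num)
  obtain ⟨N2, hN2⟩ := exists_nat_ge (Real.exp (100000 * Real.log 8))
  refine ⟨max N4 (max N1 (max N2 3)), fun N hN x hx1 hx2 => ?_⟩
  have hNN4 : N4 ≤ N := le_trans (le_max_left _ _) hN
  have hN' : max N1 (max N2 3) ≤ N := le_trans (le_max_right _ _) hN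
  have hNN1 : N1 ≤ N := le_trans (le_max_left _ _) hN'
  have hNN2 : N2 ≤ N := le_trans (le_trans (le_max_left _ _) (le_max_right _ _)) hN'
  have hN3 : 3 ≤ N := le_trans (le_trans (le_max_right _ _) (le_max_right _ _)) hN'
  have hNp : (0 : ℝ) < N := by exact_mod_cast (by omega : 0 < N)
  have hL1 : 100000 * Real.log 8 ≤ Real.log N := by
    have h1 : Real.exp (100000 * Real.log 8) ≤ N := hN2.trans (by exact_mod_cast hNN2)
    exact (Real.le_log_iff_exp_le hNp).2 h1
  have h8 : 0 < Real.log 8 := Real.log_pos (by norm_num)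
  have hL : 0 < Real.log N := by linarith
  have hS2' := hN4 N hNN4
  set L := Real.log N with hLd
  set P := PE N (2082 / 10000) (3541 / 10000) with hPd
  -- elements of P
  have hP : ∀ p ∈ P, (0 : ℝ) < p ∧ 0 ≤ Real.log p / L - 2082 / 10000 ∧
      Real.log p / L - 2082 / 10000 ≤ 1459 / 10000 := by
    intro p hp
    rw [hPd, PE, mem_filter] at hp
    obtain ⟨hp1, hpp, h1, h2⟩ := hp
    have hp0 : (0 : ℝ) < p := by exact_mod_cast hpp.pos
    refine ⟨hp0, ?_, ?_⟩
    · have h3 : (2082 / 10000 : ℝ) * L ≤ Real.log p := by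
        rw [hLd, ← Real.log_rpow hNp]
        exact Real.log_le_log (Real.rpow_pos_of_pos hNp _) h1.le
      have h4 : (2082 / 10000 : ℝ) ≤ Real.log p / L := by
        rw [le_div_iff₀ hL]
        exact h3
      linarith
    · have h3 : Real.log p ≤ (3541 / 10000 : ℝ) * L := by
        rw [hLd, ← Real.log_rpow hNp]
        exact Real.log_le_log hp0 h2
      have h4 : Real.log p / L ≤ (3541 / 10000 : ℝ) := by
        rw [div_le_iff₀ hL]
        exact h3
      linarith
  set f : ℕ → ℝ := fun p => Real.log p / L - 2082 / 10000 with hfd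
  have hS0 : ∑ p ∈ P, 1 / (p : ℝ) ≤ 53110 / 100000 := by
    have h1 := hN1 N hNN1 (2082 / 10000) (3541 / 10000) 1 0 le_rfl (by norm_num) (by norm_num)
      (by norm_num) (by norm_num) (fun u _ => by norm_num)
    have h2 := SumB_log_up
    have h3 : ∑ p ∈ P, 1 / (p : ℝ) = ∑ p ∈ PE N (2082 / 10000) (3541 / 10000),
        (1 + 0 * (Real.log p / Real.log N)) / (p : ℝ) :=
      sum_congr rfl fun p _ => by rw [zero_mul, add_zero]
    rw [h3]
    linarith
  have hS1 : ∑ p ∈ P, f p / (p : ℝ) ≤ 3534 / 100000 := by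
    have h1 := hN1 N hNN1 (2082 / 10000) (3541 / 10000) (-(2082 / 10000)) 1 le_rfl (by norm_num) (by norm_num)
      (by rw [abs_neg, abs_of_pos (by norm_num)]; norm_num) (by norm_num) (fun u hu => by linarith [hu.1])
    have h2 := SumB_log_lo
    have h3 : ∑ p ∈ P, f p / (p : ℝ) = ∑ p ∈ PE N (2082 / 10000) (3541 / 10000),
        (-(2082 / 10000) + 1 * (Real.log p / Real.log N)) / (p : ℝ) :=
      sum_congr rfl fun p _ => by
        rw [hfd]
        show (Real.log p / L - 2082 / 10000) / (p : ℝ) = _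
        congr 1
        ring
    rw [h3]
    linarith
  have hS2 : ∑ p ∈ P, f p ^ 2 / (p : ℝ) ≤ 33 / 10000 := by
    have h2 := SumB_log_up
    refine hS2'.trans ?_
    linarith
  have hS00 : 0 ≤ ∑ p ∈ P, 1 / (p : ℝ) := sum_nonneg fun p _ => by positivity
  have hS10 : 0 ≤ ∑ p ∈ P, f p / (p : ℝ) := sum_nonneg fun p hp => div_nonneg (hP p hp).2.1 (hP p hp).1.le
  have hS20 : 0 ≤ ∑ p ∈ P, f p ^ 2 / (p : ℝ) := sum_nonneg fun p _ => by positivity
  -- one term
  have hterm : ∀ p ∈ P, ∀ q ∈ P, 1 / (p * q * Real.log ((x : ℝ) / (p * q))) ≤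
      1 / L * ((171354 / 100000 + 293622 / 100000 * (f p + f q) + 10063 / 1000 * (f p + f q) ^ 2) /
        ((p : ℝ) * q)) := by
    intro p hp q hq
    obtain ⟨hp0, hpa, hpb⟩ := hP p hp
    obtain ⟨hq0, hqa, hqb⟩ := hP q hq
    have hx0 : (0 : ℝ) < x := by
      have : 0 < x := by omega
      exact_mod_cast this
    have hxN : Real.log N - Real.log 8 ≤ Real.log x := by
      rw [← Real.log_div hNp.ne' (by norm_num)]
      refine Real.log_le_log (by positivity) ?_
      rw [div_le_iff₀ (by norm_num)]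
      have : (N : ℝ) ≤ 8 * x := by exact_mod_cast hx1
      linarith
    have hlog : Real.log ((x : ℝ) / (p * q)) = Real.log x - (Real.log p + Real.log q) := by
      rw [Real.log_div hx0.ne' (by positivity), Real.log_mul hp0.ne' hq0.ne']
    set η := Real.log 8 / L with hη
    have hη1 : η ≤ 1 / 100000 := by
      rw [hη, div_le_iff₀ hL]
      linarith
    have hge : 5836 / 10000 - η - (f p + f q) ≤ Real.log ((x : ℝ) / (p * q)) / L := by
      rw [hlog, le_div_iff₀ hL]
      have e1 : Real.log p / L * L = Real.log p := div_mul_cancel₀ _ hL.ne'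
      have e2 : Real.log q / L * L = Real.log q := div_mul_cancel₀ _ hL.ne'
      have e3 : η * L = Real.log 8 := div_mul_cancel₀ _ hL.ne'
      have e4 : (5836 / 10000 - η - (f p + f q)) * L = 5836 / 10000 * L - η * L -
          (Real.log p / L * L - 2082 / 10000 * L + (Real.log q / L * L - 2082 / 10000 * L)) := by
        rw [hfd]
        ring
      rw [e4, e1, e2, e3]
      linarith
    obtain ⟨ht0, ht⟩ := SumB_quad η (f p + f q) _ hη1 (add_nonneg hpa hqa) (by
      have h5 : f p ≤ 1459 / 10000 := hpb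
      have h6 : f q ≤ 1459 / 10000 := hqb
      linarith) hge
    have hpq : (0 : ℝ) < p * q := mul_pos hp0 hq0
    have e5 : 1 / ((p : ℝ) * q * Real.log ((x : ℝ) / (p * q))) =
        1 / L * (1 / (Real.log ((x : ℝ) / (p * q)) / L) / ((p : ℝ) * q)) := by
      have hlg : Real.log ((x : ℝ) / (p * q)) ≠ 0 := by
        intro h0
        rw [h0, zero_div] at ht0
        exact lt_irrefl _ ht0
      field_simp
    rw [e5]
    refine mul_le_mul_of_nonneg_left ?_ (by positivity)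
    exact div_le_div_of_nonneg_right ht hpq.le
  set G : ℕ → ℕ → ℝ := fun p q => (171354 / 100000 + 293622 / 100000 * (f p + f q) +
    10063 / 1000 * (f p + f q) ^ 2) / ((p : ℝ) * q) with hGd
  have hG0 : ∀ p ∈ P, ∀ q ∈ P, 0 ≤ G p q := by
    intro p hp q hq
    have h5 : 0 ≤ f p := (hP p hp).2.1
    have h6 : 0 ≤ f q := (hP q hq).2.1
    have h7 := (hP p hp).1
    have h8 := (hP q hq).1
    rw [hGd]
    positivity
  have hGs : ∀ p q, G p q = G q p := by
    intro p q
    rw [hGd]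
    show (171354 / 100000 + 293622 / 100000 * (f p + f q) + 10063 / 1000 * (f p + f q) ^ 2) / ((p : ℝ) * q) =
      (171354 / 100000 + 293622 / 100000 * (f q + f p) + 10063 / 1000 * (f q + f p) ^ 2) / ((q : ℝ) * p)
    rw [add_comm (f p) (f q), mul_comm (p : ℝ) q]
  have hhalf := SumB_half P G hG0 hGs
  have hfull : ∑ p ∈ P, ∑ q ∈ P, G p q = _ :=
    SumB_full P f (171354 / 100000) (293622 / 100000) (10063 / 1000)
  have hb : ∑ p ∈ P, ∑ q ∈ P.filter (fun q => p < q), G p q ≤ 3285 / 10000 := by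
    have h1 : (∑ p ∈ P, 1 / (p : ℝ)) ^ 2 ≤ (53110 / 100000) ^ 2 := pow_le_pow_left₀ hS00 hS0 2
    have h2 : (∑ p ∈ P, 1 / (p : ℝ)) * ∑ p ∈ P, f p / (p : ℝ) ≤ 53110 / 100000 * (3534 / 100000) :=
      mul_le_mul hS0 hS1 hS10 (by norm_num)
    have h3 : (∑ p ∈ P, 1 / (p : ℝ)) * ∑ p ∈ P, f p ^ 2 / (p : ℝ) ≤ 53110 / 100000 * (33 / 10000) :=
      mul_le_mul hS0 hS2 hS20 (by norm_num)
    have h4 : (∑ p ∈ P, f p / (p : ℝ)) ^ 2 ≤ (3534 / 100000) ^ 2 := pow_le_pow_left₀ hS10 hS1 2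
    rw [hfull] at hhalf
    linarith
  calc ∑ p ∈ P, ∑ q ∈ P.filter (fun q => p < q), 1 / (p * q * Real.log ((x : ℝ) / (p * q)))
      ≤ ∑ p ∈ P, ∑ q ∈ P.filter (fun q => p < q), 1 / L * G p q :=
        sum_le_sum fun p hp => sum_le_sum fun q hq => hterm p hp q (mem_filter.1 hq).1
    _ = 1 / L * ∑ p ∈ P, ∑ q ∈ P.filter (fun q => p < q), G p q := by
        rw [mul_sum]
        exact sum_congr rfl fun p _ => by rw [mul_sum]
    _ ≤ 1 / L * (3285 / 10000) := mul_le_mul_of_nonneg_left hb (by positivity)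
    _ = (3285 / 10000) / L := by ring

end Pool.Agent.H9.TN
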