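import Pool.Agent.H9.TM.LinM

/-!
# TN SumC: the sum of `E_4` (parameters of the `5/24` version; compare `H9/TM/SumC.lean`, where `1 ≤ t/a` is used instead of (*))

`a = 2082/10000`; `p ≤ q ≤ r`, `p q r² ≤ 16 N`; `t1, t2, t3 = log(.)/L ≥ a`, `E = 1 + η` (`16 N ≤ N^E`), `t1 + t2 + 2 t3 ≤ E`; `log(x/(pqr)) ≥ L t4`, `t4 = 1 - η - t1 - t2 - t3 ≥ t3 - 2η ≥ a - 2η`.
(*) `t1 t2 t3 t4 ≥ (1 - O(η)) a³ (1 - 3a)` (`t_i = a + s_i`, `s_i ≥ 0` up to `O(η)`: `∏ (a + s_i) ≥ a⁴ + a³ ∑ s_i`), so `1/(p q r log(x/(pqr))) ≤ (1/L) (295.2 + O(η)) (t1/p) (t2/q) (t3/r)`, `1/(a³ (1-3a)) = 295.17`.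
Sums of `t/p` are Riemann sums of `∫ dt`: `∑_r t3/r ≤ (E - t1 - t2)/2 - t2 + η + ε` (`lin_m`, `α = 0`, `β = 1`; empty if `t1 + 3 t2 > E + η`), `∑_q (t2/q) (E - t1 - 3t2 + 2η)_+ ≤ (E + 2η - 4 t1 + 3η)²/6 + ε` (`mert_r` with `f t = t (..)_+`),
`∑_p (t1/p) (E + 5η - 4 t1)²_+ ≤ (E + 5η - 4a)³/12 + ε`.  Total `≤ (1/L) 295.2 (1/2)(1/6)(1/12) (0.1672 + ..)³ = 295.2 · 0.0000324592 = 0.009582`, allowed `0.0098`.
-/

set_option autoImplicit false

namespace Pool.Agent.H9.TN

open Finset MeasureTheory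
open Pool.Agent.H76.TP
open Pool.Agent.H9.TM (PE)

private theorem sumC_prod {t1 t2 t3 w : ℝ} (h1 : 2082 / 10000 ≤ t1) (h2 : 2082 / 10000 ≤ t2)
    (h3 : 2082 / 10000 ≤ t3) (h1' : t1 ≤ 3 / 10) (h2' : t2 ≤ 3 / 10) (h3' : t3 ≤ 3 / 10)
    (hw : 2082 / 10000 - 2 / 1000000 ≤ w) (hs : t1 + t2 + t3 + w = 1 - 1 / 1000000) :
    1 ≤ 2952 / 10 * (t1 * (t2 * t3)) * w := by
  obtain ⟨s1, rfl⟩ : ∃ s, t1 = 2082 / 10000 + s := ⟨t1 - 2082 / 10000, by ring⟩
  obtain ⟨s2, rfl⟩ : ∃ s, t2 = 2082 / 10000 + s := ⟨t2 - 2082 / 10000, by ring⟩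
  obtain ⟨s3, rfl⟩ : ∃ s, t3 = 2082 / 10000 + s := ⟨t3 - 2082 / 10000, by ring⟩
  obtain ⟨s4, rfl⟩ : ∃ s, w = 2082 / 10000 + s - 2 / 1000000 :=
    ⟨w - 2082 / 10000 + 2 / 1000000, by ring⟩
  have g1 : 0 ≤ s1 := by linarith
  have g2 : 0 ≤ s2 := by linarith
  have g3 : 0 ≤ s3 := by linarith
  have g4 : 0 ≤ s4 := by linarith
  have hsum : s1 + s2 + s3 + s4 = 1 + 1 / 1000000 - 4 * (2082 / 10000) := by linarith
  have k1 : (2082 / 10000 : ℝ) ^ 4 + (2082 / 10000) ^ 3 * (s1 + s2 + s3 + s4) ≤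
      (2082 / 10000 + s1) * ((2082 / 10000 + s2) * (2082 / 10000 + s3)) * (2082 / 10000 + s4) := by
    have : 0 ≤ (2082 / 10000 : ℝ) ^ 2 * (s1 * s2 + s1 * s3 + s1 * s4 + s2 * s3 + s2 * s4 + s3 * s4) +
        2082 / 10000 * (s1 * s2 * s3 + s1 * s2 * s4 + s1 * s3 * s4 + s2 * s3 * s4) +
        s1 * s2 * s3 * s4 := by positivity
    nlinarith
  have k2 : (2082 / 10000 + s1) * ((2082 / 10000 + s2) * (2082 / 10000 + s3)) ≤
      3 / 10 * (3 / 10 * (3 / 10)) :=
    mul_le_mul h1' (mul_le_mul h2' h3' (by positivity) (by norm_num)) (by positivity) (by norm_num)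
  rw [hsum] at k1
  have k3 : (2082 / 10000 + s1) * ((2082 / 10000 + s2) * (2082 / 10000 + s3)) *
      (2082 / 10000 + s4 - 2 / 1000000) =
      (2082 / 10000 + s1) * ((2082 / 10000 + s2) * (2082 / 10000 + s3)) * (2082 / 10000 + s4) -
      2 / 1000000 * ((2082 / 10000 + s1) * ((2082 / 10000 + s2) * (2082 / 10000 + s3))) := by ring
  rw [mul_assoc, k3]
  norm_num at k1 k2 ⊢
  linarith

private theorem sumC_mem {N : ℕ} {s t : ℝ} (hN : 1 < (N : ℝ)) {p : ℕ} (hp : p ∈ PE N s t) :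
    (0 : ℝ) < p ∧ s ≤ Real.log p / Real.log N ∧ Real.log p / Real.log N ≤ t := by
  rw [PE, mem_filter] at hp
  obtain ⟨hp1, hpp, h1, h2⟩ := hp
  have hp0 : (0 : ℝ) < p := by exact_mod_cast hpp.pos
  have hN0 : (0 : ℝ) < N := by linarith
  have hL : 0 < Real.log N := Real.log_pos hN
  refine ⟨hp0, ?_, ?_⟩
  · rw [le_div_iff₀ hL]
    have h3 := Real.log_le_log (Real.rpow_pos_of_pos hN0 s) h1.le
    rwa [Real.log_rpow hN0] at h3
  · rw [div_le_iff₀ hL]
    have h3 := Real.log_le_log hp0 h2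
    rwa [Real.log_rpow hN0] at h3

private theorem sumC_low {N p q : ℕ} {η : ℝ} (hN : 1 < (N : ℝ)) (hη : 0 < η) (hp : (0 : ℝ) < p)
    (hpq : p ≤ q) : (N : ℝ) ^ (Real.log p / Real.log N - η) < q := by
  have hN0 : (0 : ℝ) < N := by linarith
  have hL : 0 < Real.log N := Real.log_pos hN
  have h1 : (N : ℝ) ^ (Real.log p / Real.log N) = p := by
    rw [Real.rpow_def_of_pos hN0, mul_div_cancel₀ _ hL.ne', Real.exp_log hp]
  have h2 : (N : ℝ) ^ (Real.log p / Real.log N - η) < (N : ℝ) ^ (Real.log p / Real.log N) :=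
    Real.rpow_lt_rpow_of_exponent_lt hN (by linarith)
  have h3 : (p : ℝ) ≤ q := by exact_mod_cast hpq
  linarith

private theorem sumC_mono {N : ℕ} (hN : 1 < (N : ℝ)) {Q : Finset ℕ} {s t u v : ℝ}
    (hQ : ∀ q ∈ Q, q ∈ PE N s t ∧ (N : ℝ) ^ u < q) {F : ℕ → ℝ} {f : ℝ → ℝ}
    (hf : ∀ z ∈ Set.Icc u v, 0 ≤ f z)
    (hF : ∀ q ∈ Q, Real.log q / Real.log N ≤ v → F q ≤ f (Real.log q / Real.log N) / q)
    (hF' : ∀ q ∈ Q, ¬ Real.log q / Real.log N ≤ v → F q ≤ 0) :
    ∑ q ∈ Q, F q ≤ ∑ q ∈ PE N u v, f (Real.log q / Real.log N) / q := by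
  have hN0 : (0 : ℝ) < N := by linarith
  have hL : 0 < Real.log N := Real.log_pos hN
  calc ∑ q ∈ Q, F q ≤ ∑ q ∈ Q, if Real.log q / Real.log N ≤ v then
        f (Real.log q / Real.log N) / q else 0 := by
        refine sum_le_sum fun q hq => ?_
        split_ifs with h
        · exact hF q hq h
        · exact hF' q hq h
    _ = ∑ q ∈ Q.filter (fun q : ℕ => Real.log q / Real.log N ≤ v), f (Real.log q / Real.log N) / q := by
        rw [sum_filter]
    _ ≤ ∑ q ∈ PE N u v, f (Real.log q / Real.log N) / q := by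
        refine sum_le_sum_of_subset_of_nonneg ?_ fun q hq _ => ?_
        · intro q hq
          rw [mem_filter] at hq
          obtain ⟨h1, h2⟩ := hQ q hq.1
          have h3 := (sumC_mem hN h1).1
          rw [PE, mem_filter] at h1 ⊢
          refine ⟨h1.1, h1.2.1, h2, ?_⟩
          have h4 := hq.2
          rw [div_le_iff₀ hL] at h4
          rw [← Real.log_le_log_iff h3 (Real.rpow_pos_of_pos hN0 v), Real.log_rpow hN0]
          exact h4
        · obtain ⟨h1, h2, h3⟩ := sumC_mem hN hq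
          exact div_nonneg (hf _ ⟨h2, h3⟩) h1.le

private theorem sumC_term {N x p q r : ℕ} (hN : 1 < (N : ℝ))
    (h16 : Real.log 16 ≤ 1 / 1000000 * Real.log N) (hx : N ≤ 8 * x)
    (hp : p ∈ PE N (2082 / 10000) (3 / 10)) (hq : q ∈ PE N (2082 / 10000) (3 / 10))
    (hr : r ∈ PE N (2082 / 10000) (3 / 10))
    (hpqr : Real.log p / Real.log N + Real.log q / Real.log N + 2 * (Real.log r / Real.log N) ≤
      1 + 1 / 1000000) :
    1 / (p * q * r * Real.log ((x : ℝ) / (p * q * r))) ≤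
      2952 / 10 / Real.log N * (Real.log p / Real.log N / p * (Real.log q / Real.log N / q *
        (Real.log r / Real.log N / r))) := by
  obtain ⟨hp0, hp1, hp2⟩ := sumC_mem hN hp
  obtain ⟨hq0, hq1, hq2⟩ := sumC_mem hN hq
  obtain ⟨hr0, hr1, hr2⟩ := sumC_mem hN hr
  have hN0 : (0 : ℝ) < N := by linarith
  have hL : 0 < Real.log N := Real.log_pos hN
  have hx0 : (0 : ℝ) < x := by
    have : (N : ℝ) ≤ 8 * x := by exact_mod_cast hx
    linarith
  have h8 : Real.log 8 ≤ Real.log 16 := Real.log_le_log (by norm_num) (by norm_num)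
  have hlx : Real.log N ≤ Real.log 8 + Real.log x := by
    rw [← Real.log_mul (by norm_num) hx0.ne']
    exact Real.log_le_log hN0 (by exact_mod_cast hx)
  have hlog : Real.log ((x : ℝ) / (p * q * r)) = Real.log x - (Real.log p + Real.log q + Real.log r) := by
    rw [Real.log_div hx0.ne' (by positivity), Real.log_mul (by positivity) hr0.ne',
      Real.log_mul hp0.ne' hq0.ne']
  set L := Real.log N with hLd
  obtain ⟨t1, ht1⟩ : ∃ t, t = Real.log p / L := ⟨_, rfl⟩
  obtain ⟨t2, ht2⟩ : ∃ t, t = Real.log q / L := ⟨_, rfl⟩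
  obtain ⟨t3, ht3⟩ : ∃ t, t = Real.log r / L := ⟨_, rfl⟩
  rw [← ht1] at hp1 hp2 hpqr ⊢
  rw [← ht2] at hq1 hq2 hpqr ⊢
  rw [← ht3] at hr1 hr2 hpqr ⊢
  have e1 : Real.log p = t1 * L := by rw [ht1, div_mul_cancel₀ _ hL.ne']
  have e2 : Real.log q = t2 * L := by rw [ht2, div_mul_cancel₀ _ hL.ne']
  have e3 : Real.log r = t3 * L := by rw [ht3, div_mul_cancel₀ _ hL.ne']
  rw [e1, e2, e3] at hlog
  have hw := sumC_prod (w := 1 - 1 / 1000000 - t1 - t2 - t3) hp1 hq1 hr1 hp2 hq2 hr2 (by linarith)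
    (by ring)
  have hw0 : 0 < 1 - 1 / 1000000 - t1 - t2 - t3 := by linarith
  have hlow : L * (1 - 1 / 1000000 - t1 - t2 - t3) ≤ Real.log ((x : ℝ) / (p * q * r)) := by
    rw [hlog]
    have : L * (1 - 1 / 1000000 - t1 - t2 - t3) =
        L - 1 / 1000000 * L - (t1 * L + t2 * L + t3 * L) := by ring
    rw [this]
    linarith
  have hpos : 0 < L * (1 - 1 / 1000000 - t1 - t2 - t3) := mul_pos hL hw0
  have hd : 0 < (p : ℝ) * q * r := by positivity
  calc 1 / (p * q * r * Real.log ((x : ℝ) / (p * q * r)))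
      ≤ 1 / (p * q * r * (L * (1 - 1 / 1000000 - t1 - t2 - t3))) :=
        one_div_le_one_div_of_le (mul_pos hd hpos) (mul_le_mul_of_nonneg_left hlow hd.le)
    _ ≤ 2952 / 10 * (t1 * (t2 * t3)) * (1 - 1 / 1000000 - t1 - t2 - t3) /
        (p * q * r * (L * (1 - 1 / 1000000 - t1 - t2 - t3))) :=
        div_le_div_of_nonneg_right hw (mul_pos hd hpos).le
    _ = 2952 / 10 / L * (t1 / p * (t2 / q * (t3 / r))) := by
        have hw0' := hw0.ne'
        have hL' := hL.ne'
        have hp' := hp0.ne'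
        have hq' := hq0.ne'
        have hr' := hr0.ne'
        generalize 1 - 1 / 1000000 - t1 - t2 - t3 = w at *
        field_simp

/-- the sum over `r` -/
private theorem sumC_r {N N1 : ℕ} (hN1 : ∀ N : ℕ, N1 ≤ N →
    ∀ a b α β : ℝ, 1 / 5 ≤ a → a ≤ b → b ≤ 1 → |α| ≤ 1 → |β| ≤ 1 →
      (∀ u ∈ Set.Icc a b, 0 ≤ α + β * u) →
      ∑ p ∈ PE N a b, (α + β * (Real.log p / Real.log N)) / p ≤
        α * Real.log (b / a) + β * (b - a) + 1 / 100000000)
    (hNN : N1 ≤ N) (hN : 1 < (N : ℝ)) {p q : ℕ}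
    (hp : p ∈ PE N (2082 / 10000) (3 / 10)) (hq : q ∈ PE N (2082 / 10000) (3 / 10))
    {Q : Finset ℕ} (hQ : ∀ r ∈ Q, r ∈ PE N (2082 / 10000) (3 / 10) ∧ q ≤ r ∧
      Real.log p / Real.log N + Real.log q / Real.log N + 2 * (Real.log r / Real.log N) ≤
      1 + 1 / 1000000)
    (hpq : Real.log p / Real.log N + 3 * (Real.log q / Real.log N) ≤ 1 + 1 / 1000000) :
    ∑ r ∈ Q, Real.log r / Real.log N / r ≤
      (1 + 1 / 1000000 - Real.log p / Real.log N - 3 * (Real.log q / Real.log N)) / 2 +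
        1 / 1000000 + 1 / 100000000 := by
  obtain ⟨hp0, hp1, hp2⟩ := sumC_mem hN hp
  obtain ⟨hq0, hq1, hq2⟩ := sumC_mem hN hq
  have h1 := hN1 N hNN (Real.log q / Real.log N - 1 / 1000000)
    ((1 + 1 / 1000000 - Real.log p / Real.log N - Real.log q / Real.log N) / 2) 0 1
    (by linarith) (by linarith) (by linarith) (by simp) (by simp) (fun u hu => by
      have := hu.1
      linarith)
  have h2 : ∑ r ∈ Q, Real.log r / Real.log N / r ≤
      ∑ r ∈ PE N (Real.log q / Real.log N - 1 / 1000000)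
        ((1 + 1 / 1000000 - Real.log p / Real.log N - Real.log q / Real.log N) / 2),
        (0 + 1 * (Real.log r / Real.log N)) / r := by
    refine sumC_mono (s := 2082 / 10000) (t := 3 / 10) (f := fun z => 0 + 1 * z) hN
      (fun r hr => ⟨(hQ r hr).1, sumC_low hN (by norm_num) hq0 (hQ r hr).2.1⟩) (fun z hz => ?_)
      (fun r hr _ => ?_) (fun r hr h => ?_)
    · have := hz.1
      simp only [zero_add, one_mul]
      linarith
    · simp only [zero_add, one_mul]
      exact le_rfl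
    · exfalso
      refine h ?_
      have := (hQ r hr).2.2
      linarith
  linarith

/-- the sum over `q` -/
private theorem sumC_q {N N2 : ℕ} (hN2 : ∀ N : ℕ, N2 ≤ N →
    ∀ (a b : ℝ) (f : ℝ → ℝ), 1 / 5 ≤ a → a ≤ b → b ≤ 1 → (∀ u ∈ Set.Icc a b, 0 ≤ f u ∧ f u ≤ 2) →
      (∀ u ∈ Set.Icc a b, ∀ v ∈ Set.Icc a b, |f u - f v| ≤ 2 * |u - v|) →
      ∑ p ∈ (Icc 1 N).filter (fun p : ℕ => p.Prime ∧ (N : ℝ) ^ a < p ∧ (p : ℝ) ≤ (N : ℝ) ^ b),
        f (Real.log p / Real.log N) / p ≤ (∫ u in a..b, f u / u) + 1 / 100000000)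
    (hNN : N2 ≤ N) (hN : 1 < (N : ℝ)) {p : ℕ} (hp : p ∈ PE N (2082 / 10000) (3 / 10))
    (h4 : 4 * (Real.log p / Real.log N) ≤ 1 + 1 / 1000000) {Q : Finset ℕ}
    (hQ : ∀ q ∈ Q, q ∈ PE N (2082 / 10000) (3 / 10) ∧ p ≤ q) {R : ℕ → ℝ}
    (hR : ∀ q ∈ Q, Real.log p / Real.log N + 3 * (Real.log q / Real.log N) ≤ 1 + 1 / 1000000 →
      R q ≤ (1 + 1 / 1000000 - Real.log p / Real.log N - 3 * (Real.log q / Real.log N)) / 2 +
        1 / 1000000 + 1 / 100000000)
    (hR' : ∀ q ∈ Q, ¬ Real.log p / Real.log N + 3 * (Real.log q / Real.log N) ≤ 1 + 1 / 1000000 →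
      R q = 0) :
    ∑ q ∈ Q, Real.log q / Real.log N / q * R q ≤
      (1 + 4 / 1000000 - 4 * (Real.log p / Real.log N)) ^ 2 / 12 + 12 / 100000000 := by
  obtain ⟨hp0, hp1, hp2⟩ := sumC_mem hN hp
  set t := Real.log p / Real.log N with ht
  set c : ℝ := 1 + 1 / 1000000 - t with hc
  set u : ℝ := t - 1 / 1000000 with hu
  set v : ℝ := c / 3 with hv
  set f : ℝ → ℝ := fun z => z * ((c - 3 * z) / 2 + 1 / 1000000 + 1 / 100000000) with hf
  have huv : u ≤ v := by
    rw [hu, hv, hc]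
    linarith
  have hu5 : 1 / 5 ≤ u := by
    rw [hu]
    linarith
  have hv3 : v ≤ 1 := by
    rw [hv, hc]
    linarith
  have hf0 : ∀ z ∈ Set.Icc u v, 0 ≤ f z := by
    intro z hz
    have h1 : 0 ≤ z := by linarith [hz.1]
    have h2 : 0 ≤ c - 3 * z := by
      have := hz.2
      rw [hv] at this
      linarith
    simp only [hf]
    positivity
  have hc1 : c ≤ 1 := by
    rw [hc]
    linarith
  have hc0 : 0 ≤ c := by
    rw [hc]
    linarith
  have h1 := hN2 N hNN u v f hu5 huv hv3 (fun z hz => ⟨hf0 z hz, by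
      have h1 : 0 ≤ z := by linarith [hz.1]
      have h2 : z ≤ 1 := by linarith [hz.2]
      have h3 : (c - 3 * z) / 2 + 1 / 1000000 + 1 / 100000000 ≤ 1 := by linarith
      simp only [hf]
      nlinarith⟩) (fun z hz w hw => by
      have h1 : 0 ≤ z := by linarith [hz.1]
      have h2 : z ≤ 1 / 2 := by
        have := hz.2
        rw [hv] at this
        linarith
      have h3 : 0 ≤ w := by linarith [hw.1]
      have h4 : w ≤ 1 / 2 := by
        have := hw.2
        rw [hv] at this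
        linarith
      have e : f z - f w = (c / 2 + 1 / 1000000 + 1 / 100000000 - 3 / 2 * (z + w)) * (z - w) := by
        simp only [hf]
        ring
      rw [e, abs_mul]
      refine mul_le_mul_of_nonneg_right ?_ (abs_nonneg _)
      rw [abs_le]
      constructor <;> linarith)
  have h2 : (∫ z in u..v, f z / z) = (c - 3 * u) ^ 2 / 12 +
      (1 / 1000000 + 1 / 100000000) * (v - u) := by
    have e1 : (∫ z in u..v, f z / z) =
        ∫ z in u..v, ((c / 2 + 1 / 1000000 + 1 / 100000000) - 3 / 2 * z) := by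
      refine intervalIntegral.integral_congr fun z hz => ?_
      rw [Set.uIcc_of_le huv] at hz
      have hz0 : z ≠ 0 := by
        have := hz.1
        intro h0
        linarith
      simp only [hf]
      field_simp
      ring
    rw [e1, intervalIntegral.integral_sub (by simp) (by
      exact (continuous_const.mul continuous_id).intervalIntegrable _ _),
      intervalIntegral.integral_const, intervalIntegral.integral_const_mul, integral_id,
      smul_eq_mul, hv]
    ring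
  have h3 : ∑ q ∈ Q, Real.log q / Real.log N / q * R q ≤
      ∑ q ∈ PE N u v, f (Real.log q / Real.log N) / q := by
    refine sumC_mono (s := 2082 / 10000) (t := 3 / 10) hN
      (fun q hq => ⟨(hQ q hq).1, sumC_low hN (by norm_num) hp0 (hQ q hq).2⟩) hf0
      (fun q hq hqv => ?_) (fun q hq hqv => ?_)
    · obtain ⟨hq0, hq1, hq2⟩ := sumC_mem hN (hQ q hq).1
      have h5 := hR q hq (by
        rw [hv, hc] at hqv
        linarith)
      have h6 : 0 ≤ Real.log q / Real.log N / q := div_nonneg (by linarith) hq0.le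
      calc Real.log q / Real.log N / q * R q ≤ Real.log q / Real.log N / q *
            ((c - 3 * (Real.log q / Real.log N)) / 2 + 1 / 1000000 + 1 / 100000000) :=
            mul_le_mul_of_nonneg_left h5 h6
        _ = f (Real.log q / Real.log N) / q := by
            simp only [hf]
            ring
    · rw [hR' q hq (fun h => hqv (by
        rw [hv, hc]
        linarith)), mul_zero]
  have h5 : v - u ≤ 1 / 10 := by
    rw [hv, hu, hc]
    linarith
  have h6 : c - 3 * u = 1 + 4 / 1000000 - 4 * t := by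
    rw [hc, hu]
    ring
  rw [← h6]
  have h7 : ∑ q ∈ PE N u v, f (Real.log q / Real.log N) / q ≤ (∫ z in u..v, f z / z) + 1 / 100000000 := h1
  rw [h2] at h7
  linarith

/-- the sum over `p` -/
private theorem sumC_p {N N2 : ℕ} (hN2 : ∀ N : ℕ, N2 ≤ N →
    ∀ (a b : ℝ) (f : ℝ → ℝ), 1 / 5 ≤ a → a ≤ b → b ≤ 1 → (∀ u ∈ Set.Icc a b, 0 ≤ f u ∧ f u ≤ 2) →
      (∀ u ∈ Set.Icc a b, ∀ v ∈ Set.Icc a b, |f u - f v| ≤ 2 * |u - v|) →
      ∑ p ∈ (Icc 1 N).filter (fun p : ℕ => p.Prime ∧ (N : ℝ) ^ a < p ∧ (p : ℝ) ≤ (N : ℝ) ^ b),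
        f (Real.log p / Real.log N) / p ≤ (∫ u in a..b, f u / u) + 1 / 100000000)
    (hNN : N2 ≤ N) (hN : 1 < (N : ℝ)) {S : ℕ → ℝ}
    (hS : ∀ p ∈ PE N (2082 / 10000) (3 / 10), 4 * (Real.log p / Real.log N) ≤ 1 + 1 / 1000000 →
      S p ≤ (1 + 4 / 1000000 - 4 * (Real.log p / Real.log N)) ^ 2 / 12 + 12 / 100000000)
    (hS' : ∀ p ∈ PE N (2082 / 10000) (3 / 10), ¬ 4 * (Real.log p / Real.log N) ≤ 1 + 1 / 1000000 →
      S p = 0) :
    ∑ p ∈ PE N (2082 / 10000) (3 / 10), Real.log p / Real.log N / p * S p ≤ 325 / 10000000 := by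
  set v : ℝ := (1 + 1 / 1000000) / 4 with hv
  set f : ℝ → ℝ := fun z => z * ((1 + 4 / 1000000 - 4 * z) ^ 2 / 12 + 12 / 100000000) with hf
  have hf0 : ∀ z ∈ Set.Icc (2082 / 10000) v, 0 ≤ f z := by
    intro z hz
    have h1 : 0 ≤ z := by linarith [hz.1]
    simp only [hf]
    positivity
  have h1 := hN2 N hNN (2082 / 10000) v f (by norm_num) (by rw [hv]; norm_num)
    (by rw [hv]; norm_num) (fun z hz => ⟨hf0 z hz, by
      have h1 : 0 ≤ z := by linarith [hz.1]
      have h2 : z ≤ 1 := by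
        have := hz.2
        rw [hv] at this
        linarith
      have h3 : (1 + 4 / 1000000 - 4 * z) ^ 2 / 12 + 12 / 100000000 ≤ 1 := by
        have h4 : -1 ≤ 1 + 4 / 1000000 - 4 * z := by
          have := hz.2
          rw [hv] at this
          linarith
        have h5 : 1 + 4 / 1000000 - 4 * z ≤ 1 := by linarith [hz.1]
        nlinarith
      simp only [hf]
      nlinarith⟩) (fun z hz w hw => by
      have h1 : 1 / 5 ≤ z := by linarith [hz.1]
      have h2 : z ≤ 3 / 10 := by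
        have := hz.2
        rw [hv] at this
        linarith
      have h3 : 1 / 5 ≤ w := by linarith [hw.1]
      have h4 : w ≤ 3 / 10 := by
        have := hw.2
        rw [hv] at this
        linarith
      have e : f z - f w = (((1 + 4 / 1000000) ^ 2 - 8 * (1 + 4 / 1000000) * (z + w) +
          16 * (z ^ 2 + z * w + w ^ 2)) / 12 + 12 / 100000000) * (z - w) := by
        simp only [hf]
        ring
      rw [e, abs_mul]
      refine mul_le_mul_of_nonneg_right ?_ (abs_nonneg _)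
      have k1 : 0 ≤ z ^ 2 + z * w + w ^ 2 := by positivity
      have k2 : z ^ 2 + z * w + w ^ 2 ≤ 1 := by nlinarith
      rw [abs_le]
      constructor <;> linarith)
  have h2 : (∫ z in (2082 / 10000)..v, f z / z) ≤ 3247 / 100000000 := by
    have e1 : (∫ z in (2082 / 10000)..v, f z / z) =
        ∫ z in (2082 / 10000)..v, (((1 + 4 / 1000000) ^ 2 / 12 + 12 / 100000000) -
          2 / 3 * (1 + 4 / 1000000) * z + 4 / 3 * z ^ 2) := by
      refine intervalIntegral.integral_congr fun z hz => ?_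
      rw [Set.uIcc_of_le (by rw [hv]; norm_num)] at hz
      have hz0 : z ≠ 0 := by
        have := hz.1
        intro h0
        linarith
      simp only [hf]
      field_simp
      ring
    rw [e1, intervalIntegral.integral_add (by
        exact (continuous_const.sub (continuous_const.mul continuous_id)).intervalIntegrable _ _) (by
        exact (continuous_const.mul (continuous_id.pow 2)).intervalIntegrable _ _),
      intervalIntegral.integral_sub (by simp) (by
        exact (continuous_const.mul continuous_id).intervalIntegrable _ _),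
      intervalIntegral.integral_const, intervalIntegral.integral_const_mul,
      intervalIntegral.integral_const_mul, integral_id, integral_pow, smul_eq_mul, hv]
    norm_num
  have h3 : ∑ p ∈ PE N (2082 / 10000) (3 / 10), Real.log p / Real.log N / p * S p ≤
      ∑ p ∈ PE N (2082 / 10000) v, f (Real.log p / Real.log N) / p := by
    refine sumC_mono (s := 2082 / 10000) (t := 3 / 10) hN (fun p hp => ⟨hp, ?_⟩) hf0
      (fun p hp hpv => ?_) (fun p hp hpv => ?_)
    · rw [PE, mem_filter] at hp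
      exact hp.2.2.1
    · obtain ⟨hp0, hp1, hp2⟩ := sumC_mem hN hp
      have h5 := hS p hp (by
        rw [hv] at hpv
        linarith)
      have h6 : 0 ≤ Real.log p / Real.log N / p := div_nonneg (by linarith) hp0.le
      calc Real.log p / Real.log N / p * S p ≤ Real.log p / Real.log N / p *
            ((1 + 4 / 1000000 - 4 * (Real.log p / Real.log N)) ^ 2 / 12 + 12 / 100000000) :=
            mul_le_mul_of_nonneg_left h5 h6
        _ = f (Real.log p / Real.log N) / p := by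
            simp only [hf]
            ring
    · rw [hS' p hp (fun h => hpv (by
        rw [hv]
        linarith)), mul_zero]
  have h7 : ∑ p ∈ PE N (2082 / 10000) v, f (Real.log p / Real.log N) / p ≤
    (∫ z in (2082 / 10000)..v, f z / z) + 1 / 100000000 := h1
  linarith

theorem s4_le : ∃ N0 : ℕ, ∀ N : ℕ, N0 ≤ N → ∀ x : ℕ, N ≤ 8 * x → x ≤ 8 * N →
    ∑ p ∈ PE N (2082 / 10000) (3 / 10), ∑ q ∈ (PE N (2082 / 10000) (3 / 10)).filter (fun q => p ≤ q),
      ∑ r ∈ (PE N (2082 / 10000) (3 / 10)).filter (fun r => q ≤ r ∧ p * q * r ^ 2 ≤ 16 * N),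
        1 / (p * q * r * Real.log ((x : ℝ) / (p * q * r))) ≤ (98 / 10000) / Real.log N := by
  obtain ⟨N1, hN1⟩ := Pool.Agent.H9.TM.lin_m (1 / 5) 1 (1 / 100000000) (by norm_num) (by norm_num) (by norm_num)
  obtain ⟨N2, hN2⟩ := mert_r (1 / 5) 2 (1 / 100000000) (by norm_num) (by norm_num) (by norm_num)
  obtain ⟨N3, hN3⟩ := exists_nat_ge (Real.exp (1000000 * Real.log 16))
  refine ⟨max N1 (max N2 (max N3 3)), fun N hN x hx1 hx2 => ?_⟩
  have hNN1 : N1 ≤ N := le_trans (le_max_left _ _) hN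
  have hNN2 : N2 ≤ N := le_trans (le_trans (le_max_left _ _) (le_max_right _ _)) hN
  have hNN3 : N3 ≤ N := by omega
  have hN3' : 3 ≤ N := by omega
  have hNp : (0 : ℝ) < N := by exact_mod_cast (by omega : 0 < N)
  have hNo : (1 : ℝ) < N := by exact_mod_cast (by omega : 1 < N)
  have hL1 : 1000000 * Real.log 16 ≤ Real.log N := by
    have h1 : Real.exp (1000000 * Real.log 16) ≤ N := hN3.trans (by exact_mod_cast hNN3)
    exact (Real.le_log_iff_exp_le hNp).2 h1
  have h16 : Real.log 16 ≤ 1 / 1000000 * Real.log N := by linarith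
  have hL : 0 < Real.log N := Real.log_pos hNo
  have hmono : ∀ p q : ℕ, (0 : ℝ) < p → p ≤ q → Real.log p / Real.log N ≤ Real.log q / Real.log N := by
    intro p q hp hpq
    exact div_le_div_of_nonneg_right (Real.log_le_log hp (by exact_mod_cast hpq)) hL.le
  have hcond : ∀ p q r : ℕ, (0 : ℝ) < p → (0 : ℝ) < q → (0 : ℝ) < r → p * q * r ^ 2 ≤ 16 * N →
      Real.log p / Real.log N + Real.log q / Real.log N + 2 * (Real.log r / Real.log N) ≤
      1 + 1 / 1000000 := by
    intro p q r hp hq hr h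
    have h1 : (p : ℝ) * q * r ^ 2 ≤ 16 * N := by exact_mod_cast h
    have h2 := Real.log_le_log (by positivity) h1
    rw [Real.log_mul (by positivity) (by positivity), Real.log_mul hp.ne' hq.ne', Real.log_pow,
      Real.log_mul (by norm_num) hNp.ne'] at h2
    push_cast at h2
    have h3 : Real.log p / Real.log N + Real.log q / Real.log N + 2 * (Real.log r / Real.log N) =
        (Real.log p + Real.log q + 2 * Real.log r) / Real.log N := by ring
    rw [h3, div_le_iff₀ hL]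
    linarith
  set P := PE N (2082 / 10000) (3 / 10) with hP
  have key : ∑ p ∈ P, ∑ q ∈ P.filter (fun q => p ≤ q),
      ∑ r ∈ P.filter (fun r => q ≤ r ∧ p * q * r ^ 2 ≤ 16 * N),
        1 / (p * q * r * Real.log ((x : ℝ) / (p * q * r))) ≤
      2952 / 10 / Real.log N * ∑ p ∈ P, Real.log p / Real.log N / p *
        ∑ q ∈ P.filter (fun q => p ≤ q), Real.log q / Real.log N / q *
          ∑ r ∈ P.filter (fun r => q ≤ r ∧ p * q * r ^ 2 ≤ 16 * N), Real.log r / Real.log N / r := by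
    simp only [mul_sum]
    refine sum_le_sum fun p hp => sum_le_sum fun q hq => sum_le_sum fun r hr => ?_
    rw [mem_filter] at hq hr
    exact sumC_term hNo h16 hx1 hp hq.1 hr.1 (hcond p q r (sumC_mem hNo hp).1
      (sumC_mem hNo hq.1).1 (sumC_mem hNo hr.1).1 hr.2.2)
  refine key.trans ?_
  have main : ∑ p ∈ P, Real.log p / Real.log N / p *
        ∑ q ∈ P.filter (fun q => p ≤ q), Real.log q / Real.log N / q *
          ∑ r ∈ P.filter (fun r => q ≤ r ∧ p * q * r ^ 2 ≤ 16 * N), Real.log r / Real.log N / r ≤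
      325 / 10000000 := by
    have hemp : ∀ p ∈ P, ∀ q ∈ P, p ≤ q →
        ¬ Real.log p / Real.log N + 3 * (Real.log q / Real.log N) ≤ 1 + 1 / 1000000 →
        ∑ r ∈ P.filter (fun r => q ≤ r ∧ p * q * r ^ 2 ≤ 16 * N), Real.log r / Real.log N / r = 0 := by
      intro p hp q hq hpq h
      refine sum_eq_zero fun r hr => ?_
      exfalso
      rw [mem_filter] at hr
      obtain ⟨hr1, hr2, hr3⟩ := hr
      refine h ?_
      have h1 := hcond p q r (sumC_mem hNo hp).1 (sumC_mem hNo hq).1 (sumC_mem hNo hr1).1 hr3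
      have h2 := hmono q r (sumC_mem hNo hq).1 hr2
      linarith
    refine sumC_p hN2 hNN2 hNo (fun p hp h4 => ?_) (fun p hp h4 => ?_)
    · refine sumC_q hN2 hNN2 hNo hp h4 (fun q hq => ?_) (fun q hq h => ?_) (fun q hq h => ?_)
      · exact mem_filter.1 hq
      · rw [mem_filter] at hq
        refine sumC_r hN1 hNN1 hNo hp hq.1 (fun r hr => ?_) h
        rw [mem_filter] at hr
        exact ⟨hr.1, hr.2.1, hcond p q r (sumC_mem hNo hp).1 (sumC_mem hNo hq.1).1
          (sumC_mem hNo hr.1).1 hr.2.2⟩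
      · rw [mem_filter] at hq
        exact hemp p hp q hq.1 hq.2 h
    · refine sum_eq_zero fun q hq => ?_
      rw [mem_filter] at hq
      rw [hemp p hp q hq.1 hq.2 (fun h => h4 (by
        have := hmono p q (sumC_mem hNo hp).1 hq.2
        linarith)), mul_zero]
  calc 2952 / 10 / Real.log N * _ ≤ 2952 / 10 / Real.log N * (325 / 10000000) :=
        mul_le_mul_of_nonneg_left main (by positivity)
    _ ≤ 98 / 10000 / Real.log N := by
        rw [div_mul_eq_mul_div]
        exact div_le_div_of_nonneg_right (by norm_num) hL.le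

end Pool.Agent.H9.TN
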