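import Pool.Agent.H9.TM.Cls

/-!
# TN Cls: classification of the composite rough numbers of `(N/8, 16N]` (parameters of the `5/24` version; compare `H9/TM/Cls.lean`, whose private lemmas can be copied)

`a = 2082/10000`, `b' = 3540/10000`, `b = 3541/10000`; `z, z1` natural numbers, `N^a ≤ z`, `N^b' ≤ z1 ≤ N^b`.  `split4` with `y = N^a`, `5a > 1`: `m` is a product of 2, 3 or 4 primes in increasing order.
* `cls_zero`, `om = 0`: all primes `> z1 ≥ N^b'`; three of them: `m > N^(3b') > 16N`; so `m = p q`, `p ≤ q`, `p² ≤ 16N`.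
* `cls_one`, `om = 1`: `m = p q`: first alternative.  `m = p q r`: `q > z1`: second alternative; `q ≤ z1`: `q = p`, `p² ∣ m`.  `m = p q r s`: `q ≤ z1`: `p² ∣ m`; `q > z1`: `m > N^(a + 3b') > 16N`.
* `cls_two`, `om = 2`: `m = p q`: `m ≤ N^(2b) < N/8`.  `m = p q r`: `p, q ≤ z1`, `p < q` or `p² ∣ m` (if `q > z1` then `om ≤ 1`).  `m = p q r s`: `q ≤ z1`; `p = q`: `p² ∣ m`; `r ≤ z1`: `r = q`; `r > z1`: `m > N^(2a + 2b') > 16N`.
* `cls_three`, `om = 3`: `m = p q r`: `p < q < r ≤ z1` (first alternative); `m = p q r s`: second alternative (`p q r² ≤ 16N`, `r ≤ 4 N^((1-2a)/2) ≤ N^(3/10)`).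
* `cls_four`, `om ≥ 4`: `m = p q r s`.
* `om_le4`: five primes `> z` have a product `> 16N`.
-/

set_option autoImplicit false

namespace Pool.Agent.H9.TN

open Finset
open Pool.Agent.H9.TM (PE rou omz sqz split4)

/-- products of four primes of the right size -/
def IsF (N m : ℕ) : Prop := ∃ p ∈ PE N (2082 / 10000) (3 / 10), ∃ q ∈ (PE N (2082 / 10000) (3 / 10)).filter (fun q => p ≤ q),
  ∃ r ∈ (PE N (2082 / 10000) (3 / 10)).filter (fun r => q ≤ r ∧ p * q * r ^ 2 ≤ 16 * N), ∃ s : ℕ, s.Prime ∧ m = p * q * r * s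

/-- products of three different small primes -/
def IsT (N m : ℕ) : Prop := ∃ p ∈ PE N (2082 / 10000) (3541 / 10000), ∃ q ∈ PE N (2082 / 10000) (3541 / 10000),
  ∃ r ∈ PE N (2082 / 10000) (3541 / 10000), p < q ∧ q < r ∧ m = p * q * r

private theorem Cls_ev : ∃ N0 : ℕ, ∀ N : ℕ, N0 ≤ N → 16 ≤ N ∧ (17 : ℝ) ≤ (N : ℝ) ^ (1 / 100 : ℝ) := by
  have h3 : ∀ᶠ N : ℕ in Filter.atTop, (17 : ℝ) ≤ (N : ℝ) ^ (1 / 100 : ℝ) :=
    ((tendsto_rpow_atTop (by norm_num : (0 : ℝ) < 1 / 100)).comp tendsto_natCast_atTop_atTop).eventually_ge_atTop _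
  obtain ⟨N0, hN0⟩ := Filter.eventually_atTop.1 ((Filter.eventually_ge_atTop 16).and h3)
  exact ⟨N0, hN0⟩

private theorem Cls_pw {N : ℕ} (hN : 16 ≤ N) (h17 : (17 : ℝ) ≤ (N : ℝ) ^ (1 / 100 : ℝ)) (e : ℝ) (he : 1 + 1 / 100 ≤ e) :
    16 * (N : ℝ) < (N : ℝ) ^ e := by
  have hNr : (16 : ℝ) ≤ N := by exact_mod_cast hN
  have hN0 : (0 : ℝ) < N := by linarith
  calc 16 * (N : ℝ) < N * 17 := by linarith
    _ ≤ N * (N : ℝ) ^ (1 / 100 : ℝ) := mul_le_mul_of_nonneg_left h17 hN0.le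
    _ = (N : ℝ) ^ (1 + 1 / 100 : ℝ) := by rw [Real.rpow_add hN0, Real.rpow_one]
    _ ≤ (N : ℝ) ^ e := Real.rpow_le_rpow_of_exponent_le (by linarith) he

private theorem Cls_pw2 {N : ℕ} (hN : 16 ≤ N) (h17 : (17 : ℝ) ≤ (N : ℝ) ^ (1 / 100 : ℝ)) (e : ℝ) (he : e + 1 / 100 ≤ 1) :
    8 * (N : ℝ) ^ e < N := by
  have hNr : (16 : ℝ) ≤ N := by exact_mod_cast hN
  have hN0 : (0 : ℝ) < N := by linarith
  have hp : 0 < (N : ℝ) ^ e := Real.rpow_pos_of_pos hN0 e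
  calc 8 * (N : ℝ) ^ e < (N : ℝ) ^ e * 17 := by linarith
    _ ≤ (N : ℝ) ^ e * (N : ℝ) ^ (1 / 100 : ℝ) := mul_le_mul_of_nonneg_left h17 hp.le
    _ = (N : ℝ) ^ (e + 1 / 100 : ℝ) := by rw [Real.rpow_add hN0]
    _ ≤ (N : ℝ) ^ (1 : ℝ) := Real.rpow_le_rpow_of_exponent_le (by linarith) he
    _ = N := Real.rpow_one _

private theorem Cls_five {N : ℕ} (hN : 16 ≤ N) (h17 : (17 : ℝ) ≤ (N : ℝ) ^ (1 / 100 : ℝ)) :
    16 * (N : ℝ) < ((N : ℝ) ^ (2082 / 10000 : ℝ)) ^ 5 := by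
  rw [← Real.rpow_natCast, ← Real.rpow_mul (Nat.cast_nonneg N)]
  exact Cls_pw hN h17 _ (by norm_num)

theorem om_le4 : ∃ N0 : ℕ, ∀ N : ℕ, N0 ≤ N → ∀ z z1 m : ℕ, (N : ℝ) ^ (2082 / 10000 : ℝ) ≤ z → 1 ≤ m → m ≤ 16 * N → omz z z1 m ≤ 4 := by
  obtain ⟨N0, hN0⟩ := Cls_ev
  refine ⟨N0, fun N hN z z1 m hz hm1 hm2 => ?_⟩
  obtain ⟨h16, h17⟩ := hN0 N hN
  have hF := Cls_five h16 h17
  by_contra hcon
  push Not at hcon
  unfold omz at hcon
  obtain ⟨T, hTS, hT5⟩ := exists_subset_card_eq (show 5 ≤ (m.primeFactors.filter (fun p => z < p ∧ p ≤ z1)).card by omega)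
  have hT : ∀ p ∈ T, p.Prime ∧ p ∣ m ∧ z < p := by
    intro p hp
    have h1 := hTS hp
    rw [mem_filter] at h1
    exact ⟨Nat.prime_of_mem_primeFactors h1.1, Nat.dvd_of_mem_primeFactors h1.1, h1.2.1⟩
  have hdvd : ∏ p ∈ T, p ∣ m :=
    Finset.prod_primes_dvd m (fun p hp => (hT p hp).1.prime) (fun p hp => (hT p hp).2.1)
  have hle : ∏ p ∈ T, p ≤ 16 * N := (Nat.le_of_dvd (by omega) hdvd).trans hm2
  have hle' : ∏ p ∈ T, (p : ℝ) ≤ 16 * N := by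
    have h0 : ((∏ p ∈ T, p : ℕ) : ℝ) ≤ ((16 * N : ℕ) : ℝ) := Nat.cast_le.2 hle
    rw [Nat.cast_prod, Nat.cast_mul] at h0
    simpa using h0
  have hNr : (0 : ℝ) < N := by exact_mod_cast (by omega : 0 < N)
  have hbase : 0 < (N : ℝ) ^ (2082 / 10000 : ℝ) := Real.rpow_pos_of_pos hNr _
  have hlt : ∏ _p ∈ T, (N : ℝ) ^ (2082 / 10000 : ℝ) ≤ ∏ p ∈ T, (p : ℝ) := by
    refine prod_le_prod (fun _ _ => hbase.le) (fun p hp => hz.trans ?_)
    exact_mod_cast (hT p hp).2.2.le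
  rw [prod_const, hT5] at hlt
  linarith

/-- the common setup -/
private theorem Cls_set : ∃ N0 : ℕ, ∀ N : ℕ, N0 ≤ N → ∀ z z1 m : ℕ, (N : ℝ) ^ (2082 / 10000 : ℝ) ≤ z → (N : ℝ) ^ (3540 / 10000 : ℝ) ≤ z1 →
    (z1 : ℝ) ≤ (N : ℝ) ^ (3541 / 10000 : ℝ) → N ≤ 8 * m → m ≤ 16 * N → rou z m →
    (m.Prime ∨
      (∃ p q : ℕ, p.Prime ∧ q.Prime ∧ p ≤ q ∧ m = p * q) ∨
      (∃ p q r : ℕ, p.Prime ∧ q.Prime ∧ r.Prime ∧ p ≤ q ∧ q ≤ r ∧ m = p * q * r) ∨
      (∃ p q r s : ℕ, p.Prime ∧ q.Prime ∧ r.Prime ∧ s.Prime ∧ p ≤ q ∧ q ≤ r ∧ r ≤ s ∧ m = p * q * r * s)) ∧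
    (∀ p : ℕ, p.Prime → z < p → p ≤ z1 → p ∈ PE N (2082 / 10000) (3541 / 10000)) ∧
    (∀ p q r s : ℕ, z < p → z1 < q → z1 < r → z1 < s → 16 * N < p * q * r * s) ∧
    (∀ p q r s : ℕ, z < p → z < q → z1 < r → z1 < s → 16 * N < p * q * r * s) ∧
    (∀ p q : ℕ, p ≤ z1 → q ≤ z1 → 8 * (p * q) < N) ∧
    (∀ p q r s : ℕ, p.Prime → q.Prime → r.Prime → s.Prime → z < p → p ≤ q → q ≤ r → r ≤ s → m = p * q * r * s →
      p ∈ PE N (2082 / 10000) (3 / 10) ∧ q ∈ PE N (2082 / 10000) (3 / 10) ∧ r ∈ PE N (2082 / 10000) (3 / 10) ∧ p * q * r ^ 2 ≤ 16 * N) ∧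
    1 ≤ z1 := by
  obtain ⟨N0, hN0⟩ := Cls_ev
  refine ⟨N0, fun N hN z z1 m hz hz1 hz1' hm1 hm2 hrou => ?_⟩
  obtain ⟨h16, h17⟩ := hN0 N hN
  have hF := Cls_five h16 h17
  have hNr : (16 : ℝ) ≤ N := by exact_mod_cast h16
  have hN0' : (0 : ℝ) < N := by linarith
  obtain ⟨A, hA⟩ : ∃ A, A = (N : ℝ) ^ (2082 / 10000 : ℝ) := ⟨_, rfl⟩
  obtain ⟨B', hB'⟩ : ∃ B', B' = (N : ℝ) ^ (3540 / 10000 : ℝ) := ⟨_, rfl⟩
  obtain ⟨B, hB⟩ : ∃ B, B = (N : ℝ) ^ (3541 / 10000 : ℝ) := ⟨_, rfl⟩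
  obtain ⟨C, hC⟩ : ∃ C, C = (N : ℝ) ^ (3 / 10 : ℝ) := ⟨_, rfl⟩
  have hA0 : 0 < A := by rw [hA]; exact Real.rpow_pos_of_pos hN0' _
  have hB'0 : 0 < B' := by rw [hB']; exact Real.rpow_pos_of_pos hN0' _
  have hB0 : 0 < B := by rw [hB]; exact Real.rpow_pos_of_pos hN0' _
  have hC0 : 0 < C := by rw [hC]; exact Real.rpow_pos_of_pos hN0' _
  have hB'1 : 1 ≤ B' := by rw [hB']; exact Real.one_le_rpow (by linarith) (by norm_num)
  have hBN : B ≤ N := by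
    rw [hB]
    calc (N : ℝ) ^ (3541 / 10000 : ℝ) ≤ (N : ℝ) ^ (1 : ℝ) := Real.rpow_le_rpow_of_exponent_le (by linarith) (by norm_num)
      _ = N := Real.rpow_one _
  have hCN : C ≤ N := by
    rw [hC]
    calc (N : ℝ) ^ (3 / 10 : ℝ) ≤ (N : ℝ) ^ (1 : ℝ) := Real.rpow_le_rpow_of_exponent_le (by linarith) (by norm_num)
      _ = N := Real.rpow_one _
  have f2 : 16 * (N : ℝ) < A * B' * B' * B' := by
    rw [hA, hB', ← Real.rpow_add hN0', ← Real.rpow_add hN0', ← Real.rpow_add hN0']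
    exact Cls_pw h16 h17 _ (by norm_num)
  have f3 : 16 * (N : ℝ) < A * A * B' * B' := by
    rw [hA, hB', ← Real.rpow_add hN0', ← Real.rpow_add hN0', ← Real.rpow_add hN0']
    exact Cls_pw h16 h17 _ (by norm_num)
  have f4 : 8 * (B * B) < N := by
    rw [hB, ← Real.rpow_add hN0']
    exact Cls_pw2 h16 h17 _ (by norm_num)
  have f5 : 16 * (N : ℝ) < A * A * (C * C) := by
    rw [hA, hC, ← Real.rpow_add hN0', ← Real.rpow_add hN0', ← Real.rpow_add hN0']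
    exact Cls_pw h16 h17 _ (by norm_num)
  rw [← hA] at hz hF
  rw [← hB'] at hz1
  rw [← hB] at hz1'
  refine ⟨?_, ?_, ?_, ?_, ?_, ?_, ?_⟩
  · refine split4 (M := 16 * N) (y := (z : ℝ)) (Nat.cast_nonneg z) ?_ (by omega) hm2 (fun p hp hpm => ?_)
    · push_cast
      exact lt_of_lt_of_le hF (pow_le_pow_left₀ hA0.le hz 5)
    · exact_mod_cast hrou p hp hpm
  · intro p hp hzp hpz
    have h1 : (z : ℝ) < p := by exact_mod_cast hzp
    have h2 : (p : ℝ) ≤ z1 := by exact_mod_cast hpz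
    have h3 : (p : ℝ) ≤ N := by linarith
    unfold PE
    rw [mem_filter, mem_Icc, ← hA, ← hB]
    exact ⟨⟨hp.one_lt.le, by exact_mod_cast h3⟩, hp, by linarith, by linarith⟩
  · intro p q r s hp hq hr hs
    have h1 : (z : ℝ) < p := by exact_mod_cast hp
    have h2 : (z1 : ℝ) < q := by exact_mod_cast hq
    have h3 : (z1 : ℝ) < r := by exact_mod_cast hr
    have h4 : (z1 : ℝ) < s := by exact_mod_cast hs
    have k2 : A * B' ≤ (p : ℝ) * q := mul_le_mul (by linarith) (by linarith) hB'0.le (by positivity)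
    have k3 : A * B' * B' ≤ (p : ℝ) * q * r := mul_le_mul k2 (by linarith) hB'0.le (by positivity)
    have k4 : A * B' * B' * B' ≤ (p : ℝ) * q * r * s := mul_le_mul k3 (by linarith) hB'0.le (by positivity)
    have k5 : 16 * (N : ℝ) < (p : ℝ) * q * r * s := by linarith
    exact_mod_cast k5
  · intro p q r s hp hq hr hs
    have h1 : (z : ℝ) < p := by exact_mod_cast hp
    have h2 : (z : ℝ) < q := by exact_mod_cast hq
    have h3 : (z1 : ℝ) < r := by exact_mod_cast hr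
    have h4 : (z1 : ℝ) < s := by exact_mod_cast hs
    have k2 : A * A ≤ (p : ℝ) * q := mul_le_mul (by linarith) (by linarith) hA0.le (by positivity)
    have k3 : A * A * B' ≤ (p : ℝ) * q * r := mul_le_mul k2 (by linarith) hB'0.le (by positivity)
    have k4 : A * A * B' * B' ≤ (p : ℝ) * q * r * s := mul_le_mul k3 (by linarith) hB'0.le (by positivity)
    have k5 : 16 * (N : ℝ) < (p : ℝ) * q * r * s := by linarith
    exact_mod_cast k5
  · intro p q hp hq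
    have h1 : (p : ℝ) ≤ z1 := by exact_mod_cast hp
    have h2 : (q : ℝ) ≤ z1 := by exact_mod_cast hq
    have k2 : (p : ℝ) * q ≤ B * B := mul_le_mul (by linarith) (by linarith) (by positivity) hB0.le
    have k5 : 8 * ((p : ℝ) * q) < N := by linarith
    exact_mod_cast k5
  · intro p q r s hp hq hr hs hzp hpq hqr hrs em
    have h1 : (z : ℝ) < p := by exact_mod_cast hzp
    have h2 : (p : ℝ) ≤ q := by exact_mod_cast hpq
    have h3 : (q : ℝ) ≤ r := by exact_mod_cast hqr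
    have h4 : (r : ℝ) ≤ s := by exact_mod_cast hrs
    have hle : p * q * r ^ 2 ≤ 16 * N := by
      refine le_trans ?_ hm2
      rw [em, pow_two, ← mul_assoc]
      exact Nat.mul_le_mul_left _ hrs
    have hle' : (p : ℝ) * q * (r * r) ≤ 16 * N := by
      have h0 : ((p * q * r ^ 2 : ℕ) : ℝ) ≤ ((16 * N : ℕ) : ℝ) := Nat.cast_le.2 hle
      push_cast at h0
      linarith [h0, (by ring : (p : ℝ) * q * r ^ 2 = (p : ℝ) * q * (r * r))]
    have hrC : (r : ℝ) ≤ C := by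
      by_contra hcon
      push Not at hcon
      have k2 : A * A ≤ (p : ℝ) * q := mul_le_mul (by linarith) (by linarith) hA0.le (by positivity)
      have k3 : C * C ≤ (r : ℝ) * r := mul_le_mul hcon.le hcon.le hC0.le (by positivity)
      have k4 : A * A * (C * C) ≤ (p : ℝ) * q * (r * r) := mul_le_mul k2 k3 (by positivity) (by positivity)
      linarith
    have hmem : ∀ t : ℕ, t.Prime → A < t → (t : ℝ) ≤ C → t ∈ PE N (2082 / 10000) (3 / 10) := by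
      intro t ht h5 h6
      have h7 : (t : ℝ) ≤ N := by linarith
      unfold PE
      rw [mem_filter, mem_Icc, ← hA, ← hC]
      exact ⟨⟨ht.one_lt.le, by exact_mod_cast h7⟩, ht, h5, h6⟩
    exact ⟨hmem p hp (by linarith) (by linarith), hmem q hq (by linarith) (by linarith), hmem r hr (by linarith) hrC, hle⟩
  · have h1 : (1 : ℝ) ≤ z1 := by linarith
    exact_mod_cast h1

private theorem Cls_mem {z z1 m p : ℕ} (hm : m ≠ 0) (hp : p.Prime) (hpm : p ∣ m) (h1 : z < p) (h2 : p ≤ z1) :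
    p ∈ m.primeFactors.filter (fun p => z < p ∧ p ≤ z1) := by
  rw [mem_filter, Nat.mem_primeFactors]
  exact ⟨⟨hp, hpm, hm⟩, h1, h2⟩

private theorem Cls_two {z z1 m p q : ℕ} (hm : m ≠ 0) (hp : p.Prime) (hq : q.Prime) (hpm : p ∣ m) (hqm : q ∣ m) (hpq : p ≠ q)
    (hp1 : z < p) (hp2 : p ≤ z1) (hq1 : z < q) (hq2 : q ≤ z1) : 2 ≤ omz z z1 m :=
  one_lt_card.2 ⟨p, Cls_mem hm hp hpm hp1 hp2, q, Cls_mem hm hq hqm hq1 hq2, hpq⟩

private theorem Cls_three {z z1 m p q r : ℕ} (hm : m ≠ 0) (hp : p.Prime) (hq : q.Prime) (hr : r.Prime) (hpm : p ∣ m) (hqm : q ∣ m)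
    (hrm : r ∣ m) (hpq : p ≠ q) (hpr : p ≠ r) (hqr : q ≠ r) (hp1 : z < p) (hp2 : p ≤ z1) (hq1 : z < q) (hq2 : q ≤ z1)
    (hr1 : z < r) (hr2 : r ≤ z1) : 3 ≤ omz z z1 m :=
  two_lt_card.2 ⟨p, Cls_mem hm hp hpm hp1 hp2, q, Cls_mem hm hq hqm hq1 hq2, r, Cls_mem hm hr hrm hr1 hr2, hpq, hpr, hqr⟩

/-- if all prime factors in the range lie in a set, `omz` is at most its size -/
private theorem Cls_le {z z1 m : ℕ} (S : Finset ℕ) (h : ∀ x : ℕ, x.Prime → x ∣ m → x ≤ z1 → x ∈ S) : omz z z1 m ≤ S.card := by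
  refine card_le_card fun x hx => ?_
  rw [mem_filter, Nat.mem_primeFactors] at hx
  exact h x hx.1.1 hx.1.2.1 hx.2.2

private theorem Cls_dvd2 {x p q : ℕ} (hx : x.Prime) (hp : p.Prime) (hq : q.Prime) (h : x ∣ p * q) : x = p ∨ x = q := by
  rcases (Nat.Prime.dvd_mul hx).1 h with h | h
  · exact Or.inl ((Nat.prime_dvd_prime_iff_eq hx hp).1 h)
  · exact Or.inr ((Nat.prime_dvd_prime_iff_eq hx hq).1 h)

private theorem Cls_dvd3 {x p q r : ℕ} (hx : x.Prime) (hp : p.Prime) (hq : q.Prime) (hr : r.Prime) (h : x ∣ p * q * r) :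
    x = p ∨ x = q ∨ x = r := by
  rcases (Nat.Prime.dvd_mul hx).1 h with h | h
  · rcases Cls_dvd2 hx hp hq h with h | h
    · exact Or.inl h
    · exact Or.inr (Or.inl h)
  · exact Or.inr (Or.inr ((Nat.prime_dvd_prime_iff_eq hx hr).1 h))

private theorem Cls_dvd4 {x p q r s : ℕ} (hx : x.Prime) (hp : p.Prime) (hq : q.Prime) (hr : r.Prime) (hs : s.Prime)
    (h : x ∣ p * q * r * s) : x = p ∨ x = q ∨ x = r ∨ x = s := by
  rcases (Nat.Prime.dvd_mul hx).1 h with h | h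
  · rcases Cls_dvd3 hx hp hq hr h with h | h | h
    · exact Or.inl h
    · exact Or.inr (Or.inl h)
    · exact Or.inr (Or.inr (Or.inl h))
  · exact Or.inr (Or.inr (Or.inr ((Nat.prime_dvd_prime_iff_eq hx hs).1 h)))

theorem cls_zero : ∃ N0 : ℕ, ∀ N : ℕ, N0 ≤ N → ∀ z z1 m : ℕ, (N : ℝ) ^ (2082 / 10000 : ℝ) ≤ z → (N : ℝ) ^ (3540 / 10000 : ℝ) ≤ z1 →
    (z1 : ℝ) ≤ (N : ℝ) ^ (3541 / 10000 : ℝ) → N ≤ 8 * m → m ≤ 16 * N → rou z m → ¬ m.Prime → omz z z1 m = 0 →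
    ∃ p ∈ (Icc 1 (16 * N)).filter (fun p : ℕ => p.Prime ∧ (N : ℝ) ^ (3540 / 10000 : ℝ) < p ∧ p ^ 2 ≤ 16 * N),
      ∃ q : ℕ, q.Prime ∧ m = p * q := by
  obtain ⟨N0, hN0⟩ := Cls_set
  obtain ⟨N1, hN1⟩ := Cls_ev
  refine ⟨max (max N0 16) N1, fun N hN z z1 m hz hz1 hz1' hm1 hm2 hrou hnp hom => ?_⟩
  have h16 : 16 ≤ N := (le_max_right _ _).trans ((le_max_left _ _).trans hN)
  obtain ⟨-, h17⟩ := hN1 N ((le_max_right _ _).trans hN)
  obtain ⟨hsplit, -, -, -, -, -, hz1p⟩ := hN0 N ((le_max_left _ _).trans ((le_max_left _ _).trans hN)) z z1 m hz hz1 hz1' hm1 hm2 hrou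
  have hm0 : m ≠ 0 := by omega
  have hNr : (16 : ℝ) ≤ N := by exact_mod_cast h16
  have hN0' : (0 : ℝ) < N := by linarith
  -- all prime factors exceed `z1`
  have hall : ∀ x : ℕ, x.Prime → x ∣ m → z1 < x := by
    intro x hx hxm
    by_contra hcon
    push Not at hcon
    have h1 := Cls_mem hm0 hx hxm (hrou x hx hxm) hcon
    have h2 : m.primeFactors.filter (fun p => z < p ∧ p ≤ z1) = ∅ := card_eq_zero.1 hom
    rw [h2] at h1
    exact absurd h1 (notMem_empty x)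
  -- three such primes are too many
  have hbig : ∀ p q r : ℕ, z1 < p → z1 < q → z1 < r → 16 * N < p * q * r := by
    intro p q r hp hq hr
    obtain ⟨B', hB'⟩ : ∃ B', B' = (N : ℝ) ^ (3540 / 10000 : ℝ) := ⟨_, rfl⟩
    have hB'0 : 0 < B' := by rw [hB']; exact Real.rpow_pos_of_pos hN0' _
    have f1 : 16 * (N : ℝ) < B' * B' * B' := by
      rw [hB', ← Real.rpow_add hN0', ← Real.rpow_add hN0']
      exact Cls_pw h16 h17 _ (by norm_num)
    rw [← hB'] at hz1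
    have h1 : (z1 : ℝ) < p := by exact_mod_cast hp
    have h2 : (z1 : ℝ) < q := by exact_mod_cast hq
    have h3 : (z1 : ℝ) < r := by exact_mod_cast hr
    have k2 : B' * B' ≤ (p : ℝ) * q := mul_le_mul (by linarith) (by linarith) hB'0.le (by positivity)
    have k3 : B' * B' * B' ≤ (p : ℝ) * q * r := mul_le_mul k2 (by linarith) hB'0.le (by positivity)
    have k5 : 16 * (N : ℝ) < (p : ℝ) * q * r := by linarith
    exact_mod_cast k5
  rcases hsplit with h | ⟨p, q, hp, hq, hpq, em⟩ | ⟨p, q, r, hp, hq, hr, hpq, hqr, em⟩ | ⟨p, q, r, s, hp, hq, hr, hs, hpq, hqr, hrs, em⟩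
  · exact absurd h hnp
  · have hpm : p ∣ m := ⟨q, em⟩
    have hle : p ^ 2 ≤ 16 * N := by
      refine le_trans ?_ hm2
      rw [em, pow_two]
      exact Nat.mul_le_mul_left _ hpq
    refine ⟨p, ?_, q, hq, em⟩
    rw [mem_filter, mem_Icc]
    refine ⟨⟨hp.one_lt.le, ?_⟩, hp, ?_, hle⟩
    · refine le_trans ?_ hle
      calc p ≤ p * p := Nat.le_mul_of_pos_left p hp.pos
        _ = p ^ 2 := (pow_two p).symm
    · refine lt_of_le_of_lt hz1 ?_
      exact_mod_cast hall p hp hpm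
  · exfalso
    have := hbig p q r (hall p hp ⟨q * r, by rw [em]; ring⟩) (hall q hq ⟨p * r, by rw [em]; ring⟩) (hall r hr ⟨p * q, by rw [em]; ring⟩)
    omega
  · exfalso
    have h1 := hbig p q r (hall p hp ⟨q * r * s, by rw [em]; ring⟩) (hall q hq ⟨p * r * s, by rw [em]; ring⟩)
      (hall r hr ⟨p * q * s, by rw [em]; ring⟩)
    have h2 : p * q * r ≤ p * q * r * s := Nat.le_mul_of_pos_right _ hs.pos
    rw [← em] at h2
    omega

theorem cls_one : ∃ N0 : ℕ, ∀ N : ℕ, N0 ≤ N → ∀ z z1 m : ℕ, (N : ℝ) ^ (2082 / 10000 : ℝ) ≤ z → (N : ℝ) ^ (3540 / 10000 : ℝ) ≤ z1 →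
    (z1 : ℝ) ≤ (N : ℝ) ^ (3541 / 10000 : ℝ) → N ≤ 8 * m → m ≤ 16 * N → rou z m → ¬ m.Prime → omz z z1 m = 1 → ¬ sqz z m →
    (∃ p ∈ PE N (2082 / 10000) (3541 / 10000), ∃ q : ℕ, q.Prime ∧ m = p * q) ∨
    (∃ p ∈ PE N (2082 / 10000) (3541 / 10000),
      ∃ q ∈ (Icc 1 (16 * N)).filter (fun q : ℕ => q.Prime ∧ (N : ℝ) ^ (3540 / 10000 : ℝ) < q ∧ p * q ^ 2 ≤ 16 * N),
        ∃ r : ℕ, r.Prime ∧ m = p * q * r) := by
  obtain ⟨N0, hN0⟩ := Cls_set
  refine ⟨max N0 16, fun N hN z z1 m hz hz1 hz1' hm1 hm2 hrou hnp hom hsq => ?_⟩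
  have h16 : 16 ≤ N := (le_max_right _ _).trans hN
  obtain ⟨hsplit, hPE, hbig1, -, -, -, -⟩ := hN0 N ((le_max_left _ _).trans hN) z z1 m hz hz1 hz1' hm1 hm2 hrou
  have hm0 : m ≠ 0 := by omega
  -- some prime factor is at most `z1`
  have hlow : ∃ x : ℕ, x.Prime ∧ x ∣ m ∧ x ≤ z1 := by
    by_contra hcon
    push Not at hcon
    have h1 := Cls_le (z := z) (z1 := z1) (m := m) ∅ (fun x hx hxm hxz => absurd hxz (not_le.2 (hcon x hx hxm)))
    rw [hom] at h1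
    simp at h1
  obtain ⟨x, hx, hxm, hxz⟩ := hlow
  rcases hsplit with h | ⟨p, q, hp, hq, hpq, em⟩ | ⟨p, q, r, hp, hq, hr, hpq, hqr, em⟩ | ⟨p, q, r, s, hp, hq, hr, hs, hpq, hqr, hrs, em⟩
  · exact absurd h hnp
  · left
    have hpm : p ∣ m := ⟨q, em⟩
    have hpz : p ≤ z1 := by
      rcases Cls_dvd2 hx hp hq (em ▸ hxm) with h | h <;> omega
    exact ⟨p, hPE p hp (hrou p hp hpm) hpz, q, hq, em⟩
  · have hpm : p ∣ m := ⟨q * r, by rw [em]; ring⟩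
    have hqm : q ∣ m := ⟨p * r, by rw [em]; ring⟩
    have hpz : p ≤ z1 := by
      rcases Cls_dvd3 hx hp hq hr (em ▸ hxm) with h | h | h <;> omega
    rcases le_or_gt q z1 with hqz | hqz
    · exfalso
      by_cases hne : p = q
      · exact hsq ⟨p, hp, hrou p hp hpm, ⟨r, by rw [em, ← hne]; ring⟩⟩
      · have := Cls_two hm0 hp hq hpm hqm hne (hrou p hp hpm) hpz (hrou q hq hqm) hqz
        omega
    · right
      have hle : p * q ^ 2 ≤ 16 * N := by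
        refine le_trans ?_ hm2
        rw [em, pow_two, ← mul_assoc]
        exact Nat.mul_le_mul_left _ hqr
      refine ⟨p, hPE p hp (hrou p hp hpm) hpz, q, ?_, r, hr, em⟩
      rw [mem_filter, mem_Icc]
      refine ⟨⟨hq.one_lt.le, ?_⟩, hq, ?_, hle⟩
      · refine le_trans ?_ hle
        calc q ≤ q * q := Nat.le_mul_of_pos_left q hq.pos
          _ = q ^ 2 := (pow_two q).symm
          _ ≤ p * q ^ 2 := Nat.le_mul_of_pos_left _ hp.pos
      · refine lt_of_le_of_lt hz1 ?_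
        exact_mod_cast hqz
  · exfalso
    have hpm : p ∣ m := ⟨q * r * s, by rw [em]; ring⟩
    have hqm : q ∣ m := ⟨p * r * s, by rw [em]; ring⟩
    have hpz : p ≤ z1 := by
      rcases Cls_dvd4 hx hp hq hr hs (em ▸ hxm) with h | h | h | h <;> omega
    rcases le_or_gt q z1 with hqz | hqz
    · by_cases hne : p = q
      · exact hsq ⟨p, hp, hrou p hp hpm, ⟨r * s, by rw [em, ← hne]; ring⟩⟩
      · have := Cls_two hm0 hp hq hpm hqm hne (hrou p hp hpm) hpz (hrou q hq hqm) hqz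
        omega
    · have := hbig1 p q r s (hrou p hp hpm) hqz (by omega) (by omega)
      omega

theorem cls_two : ∃ N0 : ℕ, ∀ N : ℕ, N0 ≤ N → ∀ z z1 m : ℕ, (N : ℝ) ^ (2082 / 10000 : ℝ) ≤ z → (N : ℝ) ^ (3540 / 10000 : ℝ) ≤ z1 →
    (z1 : ℝ) ≤ (N : ℝ) ^ (3541 / 10000 : ℝ) → N ≤ 8 * m → m ≤ 16 * N → rou z m → ¬ m.Prime → omz z z1 m = 2 → ¬ sqz z m →
    ∃ p ∈ PE N (2082 / 10000) (3541 / 10000), ∃ q ∈ (PE N (2082 / 10000) (3541 / 10000)).filter (fun q => p < q),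
      ∃ r : ℕ, r.Prime ∧ m = p * q * r := by
  obtain ⟨N0, hN0⟩ := Cls_set
  refine ⟨max N0 16, fun N hN z z1 m hz hz1 hz1' hm1 hm2 hrou hnp hom hsq => ?_⟩
  have h16 : 16 ≤ N := (le_max_right _ _).trans hN
  obtain ⟨hsplit, hPE, -, hbig2, hsmall, -, -⟩ := hN0 N ((le_max_left _ _).trans hN) z z1 m hz hz1 hz1' hm1 hm2 hrou
  have hm0 : m ≠ 0 := by omega
  rcases hsplit with h | ⟨p, q, hp, hq, hpq, em⟩ | ⟨p, q, r, hp, hq, hr, hpq, hqr, em⟩ | ⟨p, q, r, s, hp, hq, hr, hs, hpq, hqr, hrs, em⟩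
  · exact absurd h hnp
  · exfalso
    have hqz : q ≤ z1 := by
      by_contra hcon
      have h1 := Cls_le (z := z) (z1 := z1) (m := m) {p} (fun x hx hxm hxz => by
        rcases Cls_dvd2 hx hp hq (em ▸ hxm) with h | h
        · rw [h]; exact mem_singleton_self p
        · omega)
      rw [hom, card_singleton] at h1
      omega
    have h1 := hsmall p q (by omega) hqz
    rw [← em] at h1
    omega
  · have hpm : p ∣ m := ⟨q * r, by rw [em]; ring⟩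
    have hqm : q ∣ m := ⟨p * r, by rw [em]; ring⟩
    have hqz : q ≤ z1 := by
      by_contra hcon
      have h1 := Cls_le (z := z) (z1 := z1) (m := m) {p} (fun x hx hxm hxz => by
        rcases Cls_dvd3 hx hp hq hr (em ▸ hxm) with h | h | h
        · rw [h]; exact mem_singleton_self p
        · omega
        · omega)
      rw [hom, card_singleton] at h1
      omega
    have hne : p ≠ q := by
      intro hne
      exact hsq ⟨p, hp, hrou p hp hpm, ⟨r, by rw [em, ← hne]; ring⟩⟩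
    refine ⟨p, hPE p hp (hrou p hp hpm) (by omega), q, ?_, r, hr, em⟩
    rw [mem_filter]
    exact ⟨hPE q hq (hrou q hq hqm) hqz, by omega⟩
  · exfalso
    have hpm : p ∣ m := ⟨q * r * s, by rw [em]; ring⟩
    have hqm : q ∣ m := ⟨p * r * s, by rw [em]; ring⟩
    have hrm : r ∣ m := ⟨p * q * s, by rw [em]; ring⟩
    have hqz : q ≤ z1 := by
      by_contra hcon
      have h1 := Cls_le (z := z) (z1 := z1) (m := m) {p} (fun x hx hxm hxz => by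
        rcases Cls_dvd4 hx hp hq hr hs (em ▸ hxm) with h | h | h | h
        · rw [h]; exact mem_singleton_self p
        · omega
        · omega
        · omega)
      rw [hom, card_singleton] at h1
      omega
    have hne : p ≠ q := by
      intro hne
      exact hsq ⟨p, hp, hrou p hp hpm, ⟨r * s, by rw [em, ← hne]; ring⟩⟩
    rcases le_or_gt r z1 with hrz | hrz
    · by_cases hne2 : q = r
      · exact hsq ⟨q, hq, hrou q hq hqm, ⟨p * s, by rw [em, ← hne2]; ring⟩⟩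
      · have := Cls_three hm0 hp hq hr hpm hqm hrm hne (by omega) hne2 (hrou p hp hpm) (by omega) (hrou q hq hqm) hqz
          (hrou r hr hrm) hrz
        omega
    · have := hbig2 p q r s (hrou p hp hpm) (hrou q hq hqm) hrz (by omega)
      omega

/-- four primes -/
private theorem Cls_F : ∃ N0 : ℕ, ∀ N : ℕ, N0 ≤ N → ∀ z z1 m : ℕ, (N : ℝ) ^ (2082 / 10000 : ℝ) ≤ z → (N : ℝ) ^ (3540 / 10000 : ℝ) ≤ z1 →
    (z1 : ℝ) ≤ (N : ℝ) ^ (3541 / 10000 : ℝ) → N ≤ 8 * m → m ≤ 16 * N → rou z m → 3 ≤ omz z z1 m →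
    (∃ p q r : ℕ, p.Prime ∧ q.Prime ∧ r.Prime ∧ p ≤ q ∧ q ≤ r ∧ m = p * q * r) ∨ IsF N m := by
  obtain ⟨N0, hN0⟩ := Cls_set
  refine ⟨max N0 16, fun N hN z z1 m hz hz1 hz1' hm1 hm2 hrou hom => ?_⟩
  have h16 : 16 ≤ N := (le_max_right _ _).trans hN
  obtain ⟨hsplit, -, -, -, -, hfour, -⟩ := hN0 N ((le_max_left _ _).trans hN) z z1 m hz hz1 hz1' hm1 hm2 hrou
  have hm0 : m ≠ 0 := by omega
  rcases hsplit with h | ⟨p, q, hp, hq, hpq, em⟩ | ⟨p, q, r, hp, hq, hr, hpq, hqr, em⟩ | ⟨p, q, r, s, hp, hq, hr, hs, hpq, hqr, hrs, em⟩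
  · exfalso
    have h1 := Cls_le (z := z) (z1 := z1) (m := m) {m} (fun x hx hxm _ => by
      rw [(Nat.prime_dvd_prime_iff_eq hx h).1 hxm]
      exact mem_singleton_self m)
    rw [card_singleton] at h1
    omega
  · exfalso
    have h1 := Cls_le (z := z) (z1 := z1) (m := m) {p, q} (fun x hx hxm _ => by
      rw [mem_insert, mem_singleton]
      exact Cls_dvd2 hx hp hq (em ▸ hxm))
    have h2 := card_le_two (a := p) (b := q)
    omega
  · exact Or.inl ⟨p, q, r, hp, hq, hr, hpq, hqr, em⟩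
  · right
    have hpm : p ∣ m := ⟨q * r * s, by rw [em]; ring⟩
    obtain ⟨h1, h2, h3, h4⟩ := hfour p q r s hp hq hr hs (hrou p hp hpm) hpq hqr hrs em
    refine ⟨p, h1, q, ?_, r, ?_, s, hs, em⟩
    · rw [mem_filter]
      exact ⟨h2, hpq⟩
    · rw [mem_filter]
      exact ⟨h3, hqr, h4⟩

theorem cls_three : ∃ N0 : ℕ, ∀ N : ℕ, N0 ≤ N → ∀ z z1 m : ℕ, (N : ℝ) ^ (2082 / 10000 : ℝ) ≤ z → (N : ℝ) ^ (3540 / 10000 : ℝ) ≤ z1 →
    (z1 : ℝ) ≤ (N : ℝ) ^ (3541 / 10000 : ℝ) → N ≤ 8 * m → m ≤ 16 * N → rou z m → omz z z1 m = 3 → ¬ sqz z m →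
    IsT N m ∨ IsF N m := by
  obtain ⟨N0, hN0⟩ := Cls_set
  obtain ⟨N1, hN1⟩ := Cls_F
  refine ⟨max (max N0 16) N1, fun N hN z z1 m hz hz1 hz1' hm1 hm2 hrou hom hsq => ?_⟩
  have h16 : 16 ≤ N := (le_max_right _ _).trans ((le_max_left _ _).trans hN)
  obtain ⟨-, hPE, -, -, -, -, -⟩ := hN0 N ((le_max_left _ _).trans ((le_max_left _ _).trans hN)) z z1 m hz hz1 hz1' hm1 hm2 hrou
  rcases hN1 N ((le_max_right _ _).trans hN) z z1 m hz hz1 hz1' hm1 hm2 hrou (by omega) with ⟨p, q, r, hp, hq, hr, hpq, hqr, em⟩ | h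
  swap
  · exact Or.inr h
  left
  have hm0 : m ≠ 0 := by omega
  have hpm : p ∣ m := ⟨q * r, by rw [em]; ring⟩
  have hqm : q ∣ m := ⟨p * r, by rw [em]; ring⟩
  have hrm : r ∣ m := ⟨p * q, by rw [em]; ring⟩
  have hrz : r ≤ z1 := by
    by_contra hcon
    have h1 := Cls_le (z := z) (z1 := z1) (m := m) {p, q} (fun x hx hxm hxz => by
      rw [mem_insert, mem_singleton]
      rcases Cls_dvd3 hx hp hq hr (em ▸ hxm) with h | h | h
      · exact Or.inl h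
      · exact Or.inr h
      · omega)
    have h2 := card_le_two (a := p) (b := q)
    omega
  have hne : p ≠ q := by
    intro hne
    exact hsq ⟨p, hp, hrou p hp hpm, ⟨r, by rw [em, ← hne]; ring⟩⟩
  have hne2 : q ≠ r := by
    intro hne2
    exact hsq ⟨q, hq, hrou q hq hqm, ⟨p, by rw [em, ← hne2]; ring⟩⟩
  exact ⟨p, hPE p hp (hrou p hp hpm) (by omega), q, hPE q hq (hrou q hq hqm) (by omega), r, hPE r hr (hrou r hr hrm) hrz,
    by omega, by omega, em⟩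

theorem cls_four : ∃ N0 : ℕ, ∀ N : ℕ, N0 ≤ N → ∀ z z1 m : ℕ, (N : ℝ) ^ (2082 / 10000 : ℝ) ≤ z → (N : ℝ) ^ (3540 / 10000 : ℝ) ≤ z1 →
    (z1 : ℝ) ≤ (N : ℝ) ^ (3541 / 10000 : ℝ) → N ≤ 8 * m → m ≤ 16 * N → rou z m → 4 ≤ omz z z1 m → IsF N m := by
  obtain ⟨N1, hN1⟩ := Cls_F
  refine ⟨N1, fun N hN z z1 m hz hz1 hz1' hm1 hm2 hrou hom => ?_⟩
  rcases hN1 N hN z z1 m hz hz1 hz1' hm1 hm2 hrou (by omega) with ⟨p, q, r, hp, hq, hr, hpq, hqr, em⟩ | h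
  swap
  · exact h
  exfalso
  have h1 := Cls_le (z := z) (z1 := z1) (m := m) {p, q, r} (fun x hx hxm hxz => by
    rw [mem_insert, mem_insert, mem_singleton]
    exact Cls_dvd3 hx hp hq hr (em ▸ hxm))
  have h2 := card_le_three (a := p) (b := q) (c := r)
  omega

end Pool.Agent.H9.TN
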