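import Pool.Agent.H9.TN.MeanS
import Pool.Agent.H9.TN.MeanQ
import Pool.Agent.H9.TN.Cls
import Pool.Agent.H91.TQ.SqpB

/-!
# TM Dens: the densities are the long averages of the exact functions
-/

set_option autoImplicit false

namespace Pool.Agent.H9.TN

open Finset
open Pool.Agent.H53.MID (Fp)
open Pool.Agent.H76.TP (yN zz rg PY bf AA WK kapA aa_nonneg aa_one aa_le)
open Pool.Agent.H91.TQ (om W1 bq WQ Fq kapF sqp fq_eq sqp_int)
open Pool.Agent.H46.TPQ (SvI k1)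

/-- facts for large `N` -/
private theorem Dens_large (K : ℕ) : ∃ N0 : ℕ, ∀ N : ℕ, N0 ≤ N → (10 : ℝ) ^ 9 ≤ Real.log N ∧
    (N : ℝ) ^ (1 / 2 : ℝ) * (8 * Real.log N ^ K) ≤ N := by
  obtain ⟨x1, hx1⟩ := Pool.Agent.H76.GB.log_ge (10 ^ 9)
  obtain ⟨x2, hx2⟩ := Pool.Agent.H76.GB.log_pow_le (1 / 2) 8 (by norm_num) (by norm_num) K
  refine ⟨x1 + x2 + 1, fun N hN => ?_⟩
  have g1 := hx1 N (by omega)
  have g2 := hx2 N (by omega)
  have hNpos : (0 : ℝ) < N := by exact_mod_cast (by omega : 0 < N)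
  refine ⟨g1, ?_⟩
  have h6 : (N : ℝ) = (N : ℝ) ^ (1 / 2 : ℝ) * (N : ℝ) ^ (1 / 2 : ℝ) := by
    rw [← Real.rpow_add hNpos]
    have : (1 / 2 : ℝ) + 1 / 2 = 1 := by norm_num
    rw [this, Real.rpow_one]
  calc (N : ℝ) ^ (1 / 2 : ℝ) * (8 * Real.log N ^ K) ≤ (N : ℝ) ^ (1 / 2 : ℝ) * (N : ℝ) ^ (1 / 2 : ℝ) :=
        mul_le_mul_of_nonneg_left g2 (by positivity)
    _ = N := h6.symm

theorem dens (e1 : ℝ) (he1 : 0 < e1) (he2 : e1 ≤ 1 / 100) (K : ℕ) : ∃ N0 : ℕ, ∀ N : ℕ, N0 ≤ N →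
    ∀ (J J1 x l : ℕ) (S T : ℕ → ℝ) (kS kT : ℝ), LevR N (yN e1 N) J J1 → SvI N (yN e1 N) (1 / 10 ^ 7) S T kS kT →
    N ≤ 4 * x → x ≤ 4 * N → (x : ℝ) / Real.log N ^ K ≤ l → (l : ℝ) ≤ 4 * x / Real.log N ^ 10 →
      |l * kapA kS (yN e1 N) J x - ∑ m ∈ Ioc x (x + l), rg (zz (yN e1 N) J) m| ≤ (1 / 10 ^ 5) * l / Real.log N ∧
      |l * k1 kS kT (yN e1 N) J J1 x - ∑ m ∈ Ioc x (x + l), rg (zz (yN e1 N) J) m * (om (yN e1 N) J J1 m : ℝ)| ≤
        (1 / 10 ^ 5) * l / Real.log N := by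
  obtain ⟨N1, hN1⟩ := mean_b e1 he1 he2 K
  obtain ⟨N2, hN2⟩ := mean_q e1 he1 he2 K
  obtain ⟨N3, hN3⟩ := mean_s K
  obtain ⟨N4, hN4⟩ := sqp_int e1 he1 3
  obtain ⟨N5, hN5⟩ := om_le4
  obtain ⟨N6, hN6⟩ := Dens_large K
  refine ⟨N1 + N2 + N3 + N4 + N5 + N6 + 1, fun N hN J J1 x l S T kS kT hLev hSv hx1 hx2 hl1 hl2 => ?_⟩
  have hNr : (1 : ℝ) ≤ N := by exact_mod_cast (by omega : 1 ≤ N)
  have hz21 : (zz (yN e1 N) J : ℝ) ≤ (N : ℝ) ^ (2221 / 10000 : ℝ) :=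
    hLev.2.2.1.trans (Real.rpow_le_rpow_of_exponent_le hNr (by norm_num))
  have hB := hN1 N (by omega) J x l hz21 (by omega) (by omega) hl1 hl2
  have hQ := hN2 N (by omega) J J1 x l hLev.1 hz21 (hLev.2.2.2.2) (by omega) (by omega) hl1 hl2
  have hS := hN3 N (by omega) (yN e1 N) J J1 x l S T kS kT hLev hSv (by omega) (by omega) hl1
  obtain ⟨g1, g2⟩ := hN6 N (by omega)
  obtain ⟨hJ, h1, h2, h3, h4⟩ := hLev
  obtain ⟨-, -, -, -, hint⟩ := hSv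
  set L := Real.log N with hL
  set y := yN e1 N with hy
  have hN1' : (1 : ℝ) ≤ N := by exact_mod_cast (by omega : 1 ≤ N)
  have hNpos : (0 : ℝ) < N := by linarith
  have hL0 : 0 < L := by linarith [show (0 : ℝ) < 10 ^ 9 by norm_num]
  have hL1 : 1 ≤ L := by linarith [show (1 : ℝ) ≤ 10 ^ 9 by norm_num]
  have hx1n : 1 ≤ x := by omega
  have hxR : (N : ℝ) ≤ 8 * x := by exact_mod_cast (by omega : N ≤ 8 * x)
  have hl12 : (N : ℝ) ^ (1 / 2 : ℝ) ≤ l := by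
    refine le_trans ?_ hl1
    rw [le_div_iff₀ (by positivity)]
    have e1 : (N : ℝ) ^ (1 / 2 : ℝ) * (8 * L ^ K) = 8 * ((N : ℝ) ^ (1 / 2 : ℝ) * L ^ K) := by ring
    rw [e1] at g2
    linarith
  have hl14 : (N : ℝ) ^ (1 / 4 : ℝ) ≤ l := le_trans (Real.rpow_le_rpow_of_exponent_le hN1' (by norm_num)) hl12
  have hSq := hN4 N (by omega) J x l (h2.trans (Real.rpow_le_rpow_of_exponent_le hN1' (by norm_num))) hl12
  have hR := (hint x l hx1n (by omega) hl14).1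
  have hlx : l ≤ x := by
    have e1 : (4 : ℝ) * x / L ^ 10 ≤ x := by
      rw [div_le_iff₀ (by positivity)]
      have e2 : (4 : ℝ) ≤ L ^ 10 := by
        have : L ^ 1 ≤ L ^ 10 := pow_le_pow_right₀ hL1 (by norm_num)
        rw [pow_one] at this
        linarith [show (4 : ℝ) ≤ 10 ^ 9 by norm_num]
      have e3 : (0 : ℝ) ≤ x := Nat.cast_nonneg x
      calc (4 : ℝ) * x = x * 4 := mul_comm _ _
        _ ≤ x * L ^ 10 := mul_le_mul_of_nonneg_left e2 e3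
    exact_mod_cast hl2.trans e1
  -- pointwise identities
  have hpB : ∀ m ∈ Ioc x (x + l), ∑ j ∈ range J, Fp (bf y J) (2 ^ j * y) m = rg y m - AA y J m := by
    intro m _
    unfold AA
    ring
  have hpQ : ∀ m ∈ Ioc x (x + l), ∑ j ∈ range J, Fp (bq y J J1) (2 ^ j * y) m =
      rg y m - (om y J J1 m : ℝ) * rg y m / 2 - (1 - (om y J J1 m : ℝ) / 2) * AA y J m := by
    intro m hm
    rw [mem_Ioc] at hm
    have h1 := fq_eq (rg y) (rg y) y J J1 m (by omega)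
    unfold Fq at h1
    linarith
  have hAA : ∀ m ∈ Ioc x (x + l), rg (zz y J) m ≤ AA y J m ∧ AA y J m ≤ rg (zz y J) m + sqp y J m := by
    intro m hm
    rw [mem_Ioc] at hm
    refine ⟨?_, aa_le y J m (by omega)⟩
    by_cases hr : ∀ p : ℕ, p.Prime → p ∣ m → zz y J < p
    · rw [aa_one y J m (by omega) hr]
      unfold rg
      rw [if_pos hr]
    · have : rg (zz y J) m = 0 := by
        unfold rg
        rw [if_neg hr]
      rw [this]
      exact aa_nonneg y J m (by omega)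
  have hom : ∀ m ∈ Ioc x (x + l), (om y J J1 m : ℝ) ≤ 4 := by
    intro m hm
    rw [mem_Ioc] at hm
    have e1 := hN5 N (by omega) (zz y J) (zz y J1) m h1 (by omega) (by omega)
    have e2 : om y J J1 m ≤ 4 := e1
    exact_mod_cast e2
  have hsA : |∑ m ∈ Ioc x (x + l), AA y J m - ∑ m ∈ Ioc x (x + l), rg (zz y J) m| ≤ l / L ^ 3 := by
    have e1 : ∑ m ∈ Ioc x (x + l), rg (zz y J) m ≤ ∑ m ∈ Ioc x (x + l), AA y J m := sum_le_sum fun m hm => (hAA m hm).1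
    have e2 : ∑ m ∈ Ioc x (x + l), AA y J m ≤ ∑ m ∈ Ioc x (x + l), rg (zz y J) m + ∑ m ∈ Ioc x (x + l), sqp y J m := by
      rw [← sum_add_distrib]
      exact sum_le_sum fun m hm => (hAA m hm).2
    rw [abs_le]
    have e3 : (0 : ℝ) ≤ l / L ^ 3 := by positivity
    constructor <;> linarith
  have hsO : |∑ m ∈ Ioc x (x + l), (om y J J1 m : ℝ) * AA y J m -
      ∑ m ∈ Ioc x (x + l), rg (zz y J) m * (om y J J1 m : ℝ)| ≤ 4 * (l / L ^ 3) := by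
    have e1 : ∑ m ∈ Ioc x (x + l), rg (zz y J) m * (om y J J1 m : ℝ) ≤ ∑ m ∈ Ioc x (x + l), (om y J J1 m : ℝ) * AA y J m := by
      refine sum_le_sum fun m hm => ?_
      rw [mul_comm]
      exact mul_le_mul_of_nonneg_left (hAA m hm).1 (Nat.cast_nonneg _)
    have e2 : ∑ m ∈ Ioc x (x + l), (om y J J1 m : ℝ) * AA y J m ≤
        ∑ m ∈ Ioc x (x + l), rg (zz y J) m * (om y J J1 m : ℝ) + 4 * ∑ m ∈ Ioc x (x + l), sqp y J m := by
      rw [mul_sum, ← sum_add_distrib]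
      refine sum_le_sum fun m hm => ?_
      have a1 := mul_le_mul_of_nonneg_left (hAA m hm).2 (Nat.cast_nonneg (om y J J1 m) : (0 : ℝ) ≤ _)
      have a2 : 0 ≤ sqp y J m := by
        unfold sqp
        positivity
      have a3 := mul_le_mul_of_nonneg_right (hom m hm) a2
      calc (om y J J1 m : ℝ) * AA y J m ≤ (om y J J1 m : ℝ) * (rg (zz y J) m + sqp y J m) := a1
        _ = rg (zz y J) m * (om y J J1 m : ℝ) + (om y J J1 m : ℝ) * sqp y J m := by ring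
        _ ≤ _ := by linarith
    rw [abs_le]
    have e3 : (0 : ℝ) ≤ l / L ^ 3 := by positivity
    constructor <;> linarith
  rw [sum_congr rfl hpB, sum_sub_distrib] at hB
  rw [sum_congr rfl hpQ, sum_sub_distrib, sum_sub_distrib] at hQ
  have hq2 : ∑ m ∈ Ioc x (x + l), (1 - (om y J J1 m : ℝ) / 2) * AA y J m =
      ∑ m ∈ Ioc x (x + l), AA y J m - (∑ m ∈ Ioc x (x + l), (om y J J1 m : ℝ) * AA y J m) / 2 := by
    rw [sum_div, ← sum_sub_distrib]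
    exact sum_congr rfl fun m _ => by ring
  have hq3 : ∑ m ∈ Ioc x (x + l), (om y J J1 m : ℝ) * rg y m / 2 =
      (∑ m ∈ Ioc x (x + l), (om y J J1 m : ℝ) * rg y m) / 2 := by
    rw [sum_div]
  rw [hq2, hq3] at hQ
  -- error terms
  have er1 : 3 * (l : ℝ) / L ^ 2 ≤ (1 / 10 ^ 8) * l / L := by
    have hl0 : (0 : ℝ) ≤ l := Nat.cast_nonneg l
    rw [div_le_div_iff₀ (by positivity) hL0]
    have e1 : (3 : ℝ) ≤ 1 / 10 ^ 8 * L := by linarith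
    have e2 : (0 : ℝ) ≤ l * L := by positivity
    calc 3 * (l : ℝ) * L = l * L * 3 := by ring
      _ ≤ l * L * (1 / 10 ^ 8 * L) := mul_le_mul_of_nonneg_left e1 e2
      _ = 1 / 10 ^ 8 * l * L ^ 2 := by ring
  have er2 : (l : ℝ) / L ^ 3 ≤ 3 * (l : ℝ) / L ^ 2 := by
    have hl0 : (0 : ℝ) ≤ l := Nat.cast_nonneg l
    rw [div_le_div_iff₀ (by positivity) (by positivity)]
    have e2 : (0 : ℝ) ≤ l * L ^ 2 := by positivity
    have e3 : (1 : ℝ) ≤ 3 * L := by linarith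
    calc (l : ℝ) * L ^ 2 = l * L ^ 2 * 1 := (mul_one _).symm
      _ ≤ l * L ^ 2 * (3 * L) := mul_le_mul_of_nonneg_left e3 e2
      _ = 3 * l * L ^ 3 := by ring
  have er3 : (1 / 10 ^ 5) * (l : ℝ) / L = 1000 * ((1 / 10 ^ 8) * l / L) := by ring
  have er4 : (1 / 10 ^ 6) * (l : ℝ) / L = 100 * ((1 / 10 ^ 8) * l / L) := by ring
  have er5 : (1 / 10 ^ 7) * (l : ℝ) / L = 10 * ((1 / 10 ^ 8) * l / L) := by ring
  rw [er5] at hR
  rw [er4] at hS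
  rw [er3]
  set δ := (1 / 10 ^ 8) * (l : ℝ) / L with hδ
  have hδ0 : 0 ≤ δ := by positivity
  rw [abs_le] at hB hQ hS hR hsA hsO
  obtain ⟨B1, B2⟩ := hB
  obtain ⟨Q1, Q2⟩ := hQ
  obtain ⟨S1, S2⟩ := hS
  obtain ⟨R1', R2'⟩ := hR
  obtain ⟨A1, A2⟩ := hsA
  obtain ⟨O1, O2⟩ := hsO
  constructor
  · unfold kapA
    have e1 : (l : ℝ) * (kS - ∑ j ∈ range J, WK y J (2 ^ j * y) x) = kS * l - l * ∑ j ∈ range J, WK y J (2 ^ j * y) x := by ring
    rw [e1, abs_le]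
    constructor <;> linarith
  · unfold k1 kapA kapF
    have e1 : (l : ℝ) * (2 * (kS - ∑ j ∈ range J, WK y J (2 ^ j * y) x -
        (kS - kT * W1 y J J1 / 2 - ∑ j ∈ range J, WQ y J J1 (2 ^ j * y) x))) =
        kT * W1 y J J1 * l - 2 * (l * ∑ j ∈ range J, WK y J (2 ^ j * y) x) +
          2 * (l * ∑ j ∈ range J, WQ y J J1 (2 ^ j * y) x) := by ring
    rw [e1, abs_le]
    constructor <;> linarith
  

end Pool.Agent.H9.TN
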