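import Pool.Agent.H9.TN.Poly
import Pool.Agent.H9.TN.Dens
import Pool.Agent.H9.TN.Cnt
import Pool.Agent.H9.TM.Zero

/-!
# TN Mass8: the mass condition
-/

set_option autoImplicit false

namespace Pool.Agent.H9.TN

open Finset
open Pool.Agent.H76.TP (yN zz rg kapA)
open Pool.Agent.H91.TQ (om)
open Pool.Agent.H31.EQ (gam)
open Pool.Agent.H46.TPQ (SvI k1)
open Pool.Agent.H9.TM (rou omz sqz pr_int)

private theorem Mass8_rg (z m : ℕ) (h : rou z m) : rg z m = 1 := by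
  unfold rg
  exact if_pos h

private theorem Mass8_rg0 (z m : ℕ) (h : ¬ rou z m) : rg z m = 0 := by
  unfold rg
  exact if_neg h

open Classical in
/-- sums of functions of the number of small primes over the rough numbers -/
private theorem Mass8_sum (z z1 : ℕ) (T : Finset ℕ) (φ : ℕ → ℝ) (hz : z ≤ z1) (hT : ∀ m ∈ T, z1 < m)
    (h4 : ∀ m ∈ T, omz z z1 m ≤ 4) :
    ∑ m ∈ T, rg z m * φ (omz z z1 m) = ((T.filter Nat.Prime).card : ℝ) * φ 0 +
      ∑ k ∈ range 5, ((T.filter (fun m => ¬ m.Prime ∧ rou z m ∧ omz z z1 m = k)).card : ℝ) * φ k := by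
  rw [← sum_filter_add_sum_filter_not T Nat.Prime]
  congr 1
  · rw [← nsmul_eq_mul, ← sum_const]
    refine sum_congr rfl fun m hm => ?_
    rw [mem_filter] at hm
    have hr : rou z m := by
      intro p hp hpm
      rw [(Nat.prime_dvd_prime_iff_eq hp hm.2).1 hpm]
      exact lt_of_le_of_lt hz (hT m hm.1)
    have h0 : omz z z1 m = 0 := by
      unfold omz
      rw [Nat.Prime.primeFactors hm.2, card_eq_zero, filter_eq_empty_iff]
      intro p hp
      rw [mem_singleton] at hp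
      rw [hp]
      have := hT m hm.1
      omega
    rw [Mass8_rg z m hr, h0, one_mul]
  · have h1 : ∀ m ∈ T.filter (fun m => ¬ m.Prime), rg z m * φ (omz z z1 m) =
        ∑ k ∈ range 5, if rou z m ∧ omz z z1 m = k then φ k else 0 := by
      intro m hm
      rw [mem_filter] at hm
      by_cases hr : rou z m
      · have h2 : omz z z1 m ∈ range 5 := by
          rw [mem_range]
          have := h4 m hm.1
          omega
        have h3 : ∀ k ∈ range 5, (if rou z m ∧ omz z z1 m = k then φ k else 0) =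
            if omz z z1 m = k then φ k else 0 := by
          intro k _
          by_cases hk : omz z z1 m = k
          · rw [if_pos ⟨hr, hk⟩, if_pos hk]
          · rw [if_neg (fun h => hk h.2), if_neg hk]
        rw [sum_congr rfl h3, sum_ite_eq, if_pos h2, Mass8_rg z m hr, one_mul]
      · rw [Mass8_rg0 z m hr, zero_mul]
        symm
        refine sum_eq_zero fun k _ => ?_
        rw [if_neg (fun h => hr h.1)]
    rw [sum_congr rfl h1, sum_comm]
    refine sum_congr rfl fun k _ => ?_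
    rw [← sum_filter, sum_const, nsmul_eq_mul, filter_filter]

/-- facts for large `N` -/
private theorem Mass8_large (A1 : ℕ) : ∃ N0 : ℕ, ∀ N : ℕ, N0 ≤ N → (10 : ℝ) ^ 9 ≤ Real.log N ∧
    8 * Real.log N ^ A1 ≤ N ∧ 16 * (N : ℝ) ^ (3541 / 10000 : ℝ) ≤ N ∧ (N : ℝ) ^ (1 / 4 : ℝ) * (2 * Real.log N ^ A1) ≤ N := by
  obtain ⟨x1, hx1⟩ := Pool.Agent.H76.GB.log_ge (10 ^ 9)
  obtain ⟨x2, hx2⟩ := Pool.Agent.H76.GB.log_pow_le 1 8 (by norm_num) (by norm_num) A1
  obtain ⟨x3, hx3⟩ := Pool.Agent.H76.GB.log_pow_le (6459 / 10000) 16 (by norm_num) (by norm_num) 0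
  obtain ⟨x4, hx4⟩ := Pool.Agent.H76.GB.log_pow_le (3 / 4) 2 (by norm_num) (by norm_num) A1
  refine ⟨x1 + x2 + x3 + x4 + 1, fun N hN => ?_⟩
  have g1 := hx1 N (by omega)
  have g2 := hx2 N (by omega)
  have g3 := hx3 N (by omega)
  have g4 := hx4 N (by omega)
  have hNpos : (0 : ℝ) < N := by exact_mod_cast (by omega : 0 < N)
  rw [Real.rpow_one] at g2
  rw [pow_zero, mul_one] at g3
  refine ⟨g1, g2, ?_, ?_⟩
  · have h6 : (N : ℝ) = (N : ℝ) ^ (6459 / 10000 : ℝ) * (N : ℝ) ^ (3541 / 10000 : ℝ) := by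
      rw [← Real.rpow_add hNpos]
      have : (6459 / 10000 : ℝ) + 3541 / 10000 = 1 := by norm_num
      rw [this, Real.rpow_one]
    calc 16 * (N : ℝ) ^ (3541 / 10000 : ℝ) ≤ (N : ℝ) ^ (6459 / 10000 : ℝ) * (N : ℝ) ^ (3541 / 10000 : ℝ) :=
          mul_le_mul_of_nonneg_right g3 (by positivity)
      _ = N := h6.symm
  · have h6 : (N : ℝ) = (N : ℝ) ^ (1 / 4 : ℝ) * (N : ℝ) ^ (3 / 4 : ℝ) := by
      rw [← Real.rpow_add hNpos]
      have : (1 / 4 : ℝ) + 3 / 4 = 1 := by norm_num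
      rw [this, Real.rpow_one]
    calc (N : ℝ) ^ (1 / 4 : ℝ) * (2 * Real.log N ^ A1) ≤ (N : ℝ) ^ (1 / 4 : ℝ) * (N : ℝ) ^ (3 / 4 : ℝ) :=
          mul_le_mul_of_nonneg_left g4 (by positivity)
      _ = N := h6.symm

open Classical in
theorem mass8 (C0 C1 : ℝ) (hC0 : 0 ≤ C0) (hC0' : C0 ≤ 100) (hC1 : 0 ≤ C1) (hC1' : C1 ≤ 100) (e1 : ℝ) (A1 : ℕ)
    (he1 : 0 < e1) (he2 : e1 ≤ 1 / 100) (hA1 : 10 ≤ A1) : ∃ N0 : ℕ, ∀ N : ℕ, N0 ≤ N →
    ∀ (J J1 : ℕ) (S T : ℕ → ℝ) (kS kT : ℝ), LevR N (yN e1 N) J J1 → SvI N (yN e1 N) (1 / 10 ^ 7) S T kS kT →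
      ∀ x : ℕ, N ≤ 4 * x → x ≤ 4 * N →
        |kapA kS (yN e1 N) J x| ≤ 1 ∧ |k1 kS kT (yN e1 N) J J1 x| ≤ 1 ∧
        1 / 100 / Real.log N ^ 2 ≤ MM2 C0 C1 (1 / Real.log x)
          (gam (yy0 (yN e1 N) J J1) ⌊(N : ℝ) / Real.log N ^ A1⌋₊ x) (gam (zz0 (yN e1 N) J J1) ⌊(N : ℝ) / Real.log N ^ A1⌋₊ x)
          (kapA kS (yN e1 N) J x) (k1 kS kT (yN e1 N) J J1 x) (kS - kT) := by
  obtain ⟨N1, hN1⟩ := dens e1 he1 he2 (A1 + 1)
  obtain ⟨N2, hN2⟩ := pr_int (A1 + 1) (1 / 10 ^ 5) (by norm_num)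
  obtain ⟨N3, hN3⟩ := cnt_zero (A1 + 1)
  obtain ⟨N4, hN4⟩ := cnt_one (A1 + 1)
  obtain ⟨N5, hN5⟩ := cnt_pair (A1 + 1)
  obtain ⟨N6, hN6⟩ := cnt_four (A1 + 1)
  obtain ⟨N7, hN7⟩ := om_le4
  obtain ⟨N8, hN8⟩ := Mass8_large A1
  refine ⟨N1 + N2 + N3 + N4 + N5 + N6 + N7 + N8 + 1, fun N hN J J1 S T kS kT hLev hSv x hx1 hx2 => ?_⟩
  obtain ⟨g1, g2, g3, g4⟩ := hN8 N (by omega)
  have hdens := hN1 N (by omega) J J1 x ⌊(N : ℝ) / Real.log N ^ A1⌋₊ S T kS kT hLev hSv hx1 hx2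
  have hpr := hN2 N (by omega) x ⌊(N : ℝ) / Real.log N ^ A1⌋₊ (by omega) (by omega)
  obtain ⟨hJ, h1, h2, h3, h4⟩ := hLev
  obtain ⟨-, -, -, hkST, hint⟩ := hSv
  set L := Real.log N with hL
  set y := yN e1 N with hy
  set l : ℕ := ⌊(N : ℝ) / L ^ A1⌋₊ with hl
  set z := zz y J with hz
  set z1 := zz y J1 with hz1
  have hN1' : (1 : ℝ) ≤ N := by exact_mod_cast (by omega : 1 ≤ N)
  have hNpos : (0 : ℝ) < N := by linarith
  have h109 : (1000 : ℝ) ≤ 10 ^ 9 := by norm_num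
  have hL0 : 0 < L := by linarith
  have hL1 : 1 ≤ L := by linarith
  have hLA : 0 < L ^ A1 := by positivity
  have hxR1 : (N : ℝ) ≤ 4 * x := by exact_mod_cast hx1
  have hxR2 : (x : ℝ) ≤ 4 * N := by exact_mod_cast hx2
  have hx0 : (0 : ℝ) < x := by linarith
  -- the length
  have hlu : (l : ℝ) ≤ N / L ^ A1 := Nat.floor_le (by positivity)
  have hll : (N : ℝ) / L ^ A1 / 2 ≤ l := by
    have e1 : (N : ℝ) / L ^ A1 < l + 1 := Nat.lt_floor_add_one _
    have e2 : (8 : ℝ) ≤ N / L ^ A1 := by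
      rw [le_div_iff₀ hLA]
      exact g2
    linarith
  have hl1 : (x : ℝ) / L ^ (A1 + 1) ≤ l := by
    refine le_trans ?_ hll
    rw [pow_succ, div_div (N : ℝ), div_le_div_iff₀ (by positivity) (by positivity)]
    have e1 : (x : ℝ) * 2 ≤ N * L := by
      have : (N : ℝ) * 8 ≤ N * L := mul_le_mul_of_nonneg_left (by linarith) hNpos.le
      linarith
    calc (x : ℝ) * (L ^ A1 * 2) = x * 2 * L ^ A1 := by ring
      _ ≤ N * L * L ^ A1 := mul_le_mul_of_nonneg_right e1 hLA.le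
      _ = N * (L ^ A1 * L) := by ring
  have hl2 : (l : ℝ) ≤ 4 * x / L ^ 10 := by
    refine hlu.trans ?_
    have e1 : L ^ 10 ≤ L ^ A1 := pow_le_pow_right₀ hL1 hA1
    calc (N : ℝ) / L ^ A1 ≤ 4 * x / L ^ A1 := by gcongr
      _ ≤ 4 * x / L ^ 10 := by gcongr
  have hlx : l ≤ x := by
    have e1 : (4 : ℝ) * x / L ^ 10 ≤ x := by
      rw [div_le_iff₀ (by positivity)]
      have e2 : (4 : ℝ) ≤ L ^ 10 := by
        have : L ^ 1 ≤ L ^ 10 := pow_le_pow_right₀ hL1 (by norm_num)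
        rw [pow_one] at this
        linarith
      calc (4 : ℝ) * x = x * 4 := mul_comm _ _
        _ ≤ x * L ^ 10 := mul_le_mul_of_nonneg_left e2 hx0.le
    exact_mod_cast hl2.trans e1
  have hl0 : (0 : ℝ) < l := by
    have e2 : (0 : ℝ) < N / L ^ A1 := by positivity
    linarith
  obtain ⟨D1, D2⟩ := hdens hl1 hl2
  have hP := hpr hl1 hlx
  have hx8 : N ≤ 8 * x := by omega
  have hx88 : x ≤ 8 * N := by omega
  have hzz1 : z ≤ z1 := by
    rw [hz, hz1]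
    unfold zz
    exact Nat.mul_le_mul_right _ (Nat.pow_le_pow_right (by norm_num) hJ)
  have c0 := hN3 N (by omega) z z1 x l h1 h3 h4 hx8 hx88 hl1 hlx
  have c1 := hN4 N (by omega) z z1 x l h1 h3 h4 hx8 hx88 hl1 hlx
  have c2 := hN5 N (by omega) z z1 x l h1 h3 h4 hx8 hx88 hl1 hlx
  have c3 := hN6 N (by omega) z z1 x l h1 h3 h4 hx8 hx88 hl1 hlx
  clear hN1 hN2 hN3 hN4 hN5 hN6 hN8 hdens hpr g2 hLA hl2 hx1 hx2
  -- the members of the interval
  have hTz : ∀ m ∈ Ioc x (x + l), z1 < m := by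
    intro m hm
    rw [mem_Ioc] at hm
    have e1 : (z1 : ℝ) < m := by
      have e2 : (x : ℝ) < m := by exact_mod_cast hm.1
      have e3 : (0 : ℝ) ≤ (N : ℝ) ^ (3541 / 10000 : ℝ) := by positivity
      linarith
    exact_mod_cast e1
  have hT4 : ∀ m ∈ Ioc x (x + l), omz z z1 m ≤ 4 := by
    intro m hm
    rw [mem_Ioc] at hm
    exact hN7 N (by omega) z z1 m h1 (by omega) (by omega)
  have hsum := fun φ => Mass8_sum z z1 (Ioc x (x + l)) φ hzz1 hTz hT4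
  obtain ⟨n, hn⟩ : ∃ n : ℕ → ℝ, ∀ k, n k = (((Ioc x (x + l)).filter (fun m => ¬ m.Prime ∧ rou z m ∧ omz z z1 m = k)).card : ℝ) :=
    ⟨fun k => (((Ioc x (x + l)).filter (fun m => ¬ m.Prime ∧ rou z m ∧ omz z z1 m = k)).card : ℝ), fun _ => rfl⟩
  obtain ⟨P, hPdef⟩ : ∃ P : ℝ, P = (((Ioc x (x + l)).filter Nat.Prime).card : ℝ) := ⟨_, rfl⟩
  have hsum' : ∀ φ : ℕ → ℝ, ∑ m ∈ Ioc x (x + l), rg z m * φ (omz z z1 m) =
      P * φ 0 + (n 0 * φ 0 + n 1 * φ 1 + n 2 * φ 2 + n 3 * φ 3 + n 4 * φ 4) := by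
    intro φ
    rw [hsum φ, hPdef]
    simp only [← hn, sum_range_succ, sum_range_zero, zero_add]
  have hn0 : ∀ k, 0 ≤ n k := by
    intro k
    rw [hn]
    exact Nat.cast_nonneg _
  have hom : ∀ m, om y J J1 m = omz z z1 m := fun m => rfl
  -- the four sums
  have s1 : ∑ m ∈ Ioc x (x + l), rg z m = P + (n 0 + n 1 + n 2 + n 3 + n 4) := by
    have := hsum' (fun _ => 1)
    simp only [mul_one] at this
    exact this
  have s2 : ∑ m ∈ Ioc x (x + l), rg z m * (om y J J1 m : ℝ) = n 1 + 2 * n 2 + 3 * n 3 + 4 * n 4 := by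
    have := hsum' (fun k => (k : ℝ))
    refine this.trans ?_
    push_cast
    ring
  have s3 : ∑ m ∈ Ioc x (x + l), yy0 y J J1 m = n 1 + 4 / 3 * n 2 + n 3 + 2 / 3 * n 4 := by
    have := hsum' fY
    refine this.trans ?_
    have k0 : fY 0 = 0 := by unfold fY; norm_num
    have k1' : fY 1 = 1 := by unfold fY; norm_num
    have k2 : fY 2 = 4 / 3 := by unfold fY; norm_num
    have k3 : fY 3 = 1 := by unfold fY; norm_num
    have k4 : fY 4 = 2 / 3 := by unfold fY; norm_num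
    rw [k0, k1', k2, k3, k4]
    ring
  have s4 : ∑ m ∈ Ioc x (x + l), zz0 y J J1 m = -(1 / 3) * n 1 - 2 / 3 * n 2 - 1 / 3 * n 3 - 1 / 4 * n 4 := by
    have := hsum' fZ
    refine this.trans ?_
    have k0 : fZ 0 = 0 := by unfold fZ; norm_num
    have k1' : fZ 1 = -1 / 3 := by unfold fZ; norm_num
    have k2 : fZ 2 = -2 / 3 := by unfold fZ; norm_num
    have k3 : fZ 3 = -1 / 3 := by unfold fZ; norm_num
    have k4 : fZ 4 = -1 / 4 := by unfold fZ; norm_num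
    rw [k0, k1', k2, k3, k4]
    ring
  -- the products of three small primes
  obtain ⟨t, ht⟩ : ∃ t : ℝ, t = (((Ioc x (x + l)).filter (fun m => ¬ m.Prime ∧ rou z m ∧ omz z z1 m = 3 ∧ IsT N m)).card : ℝ) := ⟨_, rfl⟩
  obtain ⟨t', ht'⟩ : ∃ t' : ℝ, t' = (((Ioc x (x + l)).filter (fun m => ¬ m.Prime ∧ rou z m ∧ omz z z1 m = 3 ∧ ¬ IsT N m)).card : ℝ) := ⟨_, rfl⟩
  have ht0 : 0 ≤ t := by rw [ht]; exact Nat.cast_nonneg _
  have htt : n 3 = t + t' := by
    rw [hn, ht, ht']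
    have e1 := card_filter_add_card_filter_not (s := (Ioc x (x + l)).filter (fun m => ¬ m.Prime ∧ rou z m ∧ omz z z1 m = 3)) (fun m => IsT N m)
    rw [filter_filter, filter_filter] at e1
    have e2 : (Ioc x (x + l)).filter (fun m => (¬ m.Prime ∧ rou z m ∧ omz z z1 m = 3) ∧ IsT N m) =
        (Ioc x (x + l)).filter (fun m => ¬ m.Prime ∧ rou z m ∧ omz z z1 m = 3 ∧ IsT N m) := by
      refine filter_congr fun m _ => ?_
      tauto
    have e3 : (Ioc x (x + l)).filter (fun m => (¬ m.Prime ∧ rou z m ∧ omz z z1 m = 3) ∧ ¬ IsT N m) =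
        (Ioc x (x + l)).filter (fun m => ¬ m.Prime ∧ rou z m ∧ omz z z1 m = 3 ∧ ¬ IsT N m) := by
      refine filter_congr fun m _ => ?_
      tauto
    rw [e2, e3] at e1
    exact_mod_cast e1.symm
  rw [← hn] at c0 c1
  rw [← hn, ← ht] at c2
  rw [← ht', ← hn] at c3
  rw [← hPdef] at hP
  -- normalization
  obtain ⟨r, hr⟩ : ∃ r : ℝ, r = L / l := ⟨_, rfl⟩
  have hr0 : 0 < r := by rw [hr]; positivity
  have hrl : ∀ c : ℝ, c * l / L * r = c := by
    intro c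
    rw [hr]
    field_simp
  have hrl2 : (l : ℝ) / L * r = 1 := by
    rw [hr]
    field_simp
  have hrl3 : (l : ℝ) * r = L := by
    rw [hr]
    field_simp
  have b0 : n 0 * r ≤ 603 / 1000 := by
    have := mul_le_mul_of_nonneg_right c0 hr0.le
    rwa [hrl] at this
  have b1 : n 1 * r ≤ 790 / 1000 := by
    have := mul_le_mul_of_nonneg_right c1 hr0.le
    rwa [hrl] at this
  have b2 : n 2 * r + 3 * (t * r) ≤ 330 / 1000 := by
    have := mul_le_mul_of_nonneg_right c2 hr0.le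
    rw [hrl] at this
    linarith
  have b3 : n 3 * r - t * r + n 4 * r ≤ 10 / 1000 := by
    have := mul_le_mul_of_nonneg_right c3 hr0.le
    rw [hrl] at this
    rw [htt]
    linarith
  have b4 : t * r ≤ n 3 * r := by
    apply mul_le_mul_of_nonneg_right _ hr0.le
    have : 0 ≤ t' := by rw [ht']; exact Nat.cast_nonneg _
    linarith
  have bP : |P * r - 1| ≤ 1 / 10 ^ 5 := by
    have e1 : P * r - 1 = (P - l / L) * r := by
      rw [sub_mul, hrl2]
    rw [e1, abs_mul, abs_of_pos hr0]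
    have := mul_le_mul_of_nonneg_right hP hr0.le
    rwa [hrl] at this
  have bα : |L * kapA kS y J x - (1 + n 0 * r + n 1 * r + n 2 * r + n 3 * r + n 4 * r)| ≤ 2 / 10 ^ 5 := by
    rw [s1] at D1
    have e1 : |L * kapA kS y J x - (P * r + (n 0 * r + n 1 * r + n 2 * r + n 3 * r + n 4 * r))| ≤ 1 / 10 ^ 5 := by
      have e2 : L * kapA kS y J x - (P * r + (n 0 * r + n 1 * r + n 2 * r + n 3 * r + n 4 * r)) =
          (l * kapA kS y J x - (P + (n 0 + n 1 + n 2 + n 3 + n 4))) * r := by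
        rw [← hrl3]
        ring
      rw [e2, abs_mul, abs_of_pos hr0]
      have := mul_le_mul_of_nonneg_right D1 hr0.le
      rwa [hrl] at this
    rw [abs_le] at e1 bP ⊢
    constructor <;> linarith [e1.1, e1.2, bP.1, bP.2]
  have bω : |L * k1 kS kT y J J1 x - (n 1 * r + 2 * (n 2 * r) + 3 * (n 3 * r) + 4 * (n 4 * r))| ≤ 2 / 10 ^ 5 := by
    rw [s2] at D2
    have e1 : |L * k1 kS kT y J J1 x - (n 1 * r + 2 * (n 2 * r) + 3 * (n 3 * r) + 4 * (n 4 * r))| ≤ 1 / 10 ^ 5 := by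
      have e2 : L * k1 kS kT y J J1 x - (n 1 * r + 2 * (n 2 * r) + 3 * (n 3 * r) + 4 * (n 4 * r)) =
          (l * k1 kS kT y J J1 x - (n 1 + 2 * n 2 + 3 * n 3 + 4 * n 4)) * r := by
        rw [← hrl3]
        ring
      rw [e2, abs_mul, abs_of_pos hr0]
      have := mul_le_mul_of_nonneg_right D2 hr0.le
      rwa [hrl] at this
    linarith [show (1 : ℝ) / 10 ^ 5 ≤ 2 / 10 ^ 5 by norm_num]
  have hgE : L * gam (yy0 y J J1) l x = n 1 * r + 4 / 3 * (n 2 * r) + n 3 * r + 2 / 3 * (n 4 * r) := by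
    unfold gam
    rw [s3, hr]
    ring
  have hgG : L * gam (zz0 y J J1) l x = -(1 / 3) * (n 1 * r) - 2 / 3 * (n 2 * r) - 1 / 3 * (n 3 * r) - 1 / 4 * (n 4 * r) := by
    unfold gam
    rw [s4, hr]
    ring
  have hκ0 : 0 ≤ L * (kS - kT) := mul_nonneg hL0.le (by linarith)
  have hl14 : (N : ℝ) ^ (1 / 4 : ℝ) ≤ l := by
    refine le_trans ?_ hll
    rw [div_div, le_div_iff₀ (by positivity), mul_comm (L ^ A1)]
    exact g4
  have hκ : L * (kS - kT) ≤ 1 / 10 ^ 6 := by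
    obtain ⟨t1, t2⟩ := hint x l (by omega) (by omega) hl14
    rw [abs_le] at t1 t2
    have e1 : (kS - kT) * l ≤ 2 / 10 ^ 7 * l / L := by
      have e2 : 2 / 10 ^ 7 * (l : ℝ) / L = 1 / 10 ^ 7 * l / L + 1 / 10 ^ 7 * l / L := by ring
      rw [e2]
      linarith [t1.2, t2.1]
    have e3 := mul_le_mul_of_nonneg_right e1 hr0.le
    rw [hrl] at e3
    have e4 : (kS - kT) * l * r = L * (kS - kT) := by
      rw [mul_assoc, hrl3]
      ring
    rw [e4] at e3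
    refine e3.trans (by norm_num)
  have hgp : |L * (1 / Real.log x) - 1| ≤ 1 / 10 ^ 4 := by
    have hlog4 : Real.log 4 ≤ 3 := by
      have := Real.log_le_sub_one_of_pos (show (0 : ℝ) < 4 by norm_num)
      linarith
    have e1 : Real.log x ≤ L + 3 := by
      have : Real.log x ≤ Real.log (4 * N) := Real.log_le_log hx0 hxR2
      rw [Real.log_mul (by norm_num) hNpos.ne'] at this
      linarith
    have e2 : L - 3 ≤ Real.log x := by
      have : Real.log N ≤ Real.log (4 * x) := Real.log_le_log hNpos hxR1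
      rw [Real.log_mul (by norm_num) hx0.ne'] at this
      linarith
    have hlx0 : 0 < Real.log x := by linarith
    rw [mul_one_div, abs_le]
    constructor
    · rw [le_sub_iff_add_le, le_div_iff₀ hlx0]
      have : (-(1 / 10 ^ 4) + 1 : ℝ) * Real.log x ≤ (-(1 / 10 ^ 4) + 1) * (L + 3) :=
        mul_le_mul_of_nonneg_left e1 (by norm_num)
      norm_num at this ⊢
      linarith
    · rw [sub_le_iff_le_add, div_le_iff₀ hlx0]
      have : (1 / 10 ^ 4 + 1 : ℝ) * (L - 3) ≤ (1 / 10 ^ 4 + 1) * Real.log x :=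
        mul_le_mul_of_nonneg_left e2 (by norm_num)
      norm_num at this ⊢
      linarith
  have a0 := mul_nonneg (hn0 0) hr0.le
  have a1 := mul_nonneg (hn0 1) hr0.le
  have a2 := mul_nonneg (hn0 2) hr0.le
  have a3 := mul_nonneg (hn0 3) hr0.le
  have a4 := mul_nonneg (hn0 4) hr0.le
  have hmain := poly_pert C0 C1 (n 0 * r) (n 1 * r) (n 2 * r) (n 3 * r) (n 4 * r) (t * r) (L * (1 / Real.log x)) (L * kapA kS y J x)
    (L * k1 kS kT y J J1 x) (L * (kS - kT)) hC0 hC0' hC1 hC1' a0 a1 a2 a3 a4 (mul_nonneg ht0 hr0.le) b0 b1 b2 b3 b4 hgp bα bω hκ0 hκ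
  rw [← hgE, ← hgG] at hmain
  refine ⟨?_, ?_, ?_⟩
  · rw [abs_le] at bα
    have e1 : |L * kapA kS y J x| ≤ L * 1 := by
      rw [abs_le]
      constructor <;> linarith [bα.1, bα.2, show (2 : ℝ) / 10 ^ 5 ≤ 1 by norm_num]
    rw [abs_mul, abs_of_pos hL0] at e1
    exact le_of_mul_le_mul_left e1 hL0
  · rw [abs_le] at bω
    have e1 : |L * k1 kS kT y J J1 x| ≤ L * 1 := by
      rw [abs_le]
      constructor <;> linarith [bω.1, bω.2, show (2 : ℝ) / 10 ^ 5 ≤ 1 by norm_num]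
    rw [abs_mul, abs_of_pos hL0] at e1
    exact le_of_mul_le_mul_left e1 hL0
  · rw [div_le_iff₀ (by positivity)]
    refine hmain.trans (le_of_eq ?_)
    unfold MM2
    ring

end Pool.Agent.H9.TN
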