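import Pool.Agent.H46.TPQ.Defs

/-!
# TN Defs: the levels and the main term of the `5/24` version

Certificate 2: with `y = 2 1_P - ρ + φ_Y(om) ρ`, `z = -(4/3) 1_P + ρ/3 + φ_Z(om) ρ`: `2 1_P 1_P' ≥ y ρ' + ρ y' + (om ρ) z' + z (om ρ)'` for all rough numbers.
-/

set_option autoImplicit false

namespace Pool.Agent.H9.TN

open Pool.Agent.H76.TP (zz rg)
open Pool.Agent.H91.TQ (om Lev)

/-- the levels -/
def LevR (N y J J1 : ℕ) : Prop := Lev (2082 / 10000) (2083 / 10000) (3540 / 10000) (3541 / 10000) N y J J1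

/-- `φ_Y = 0, 1, 4/3, 1, 2/3` -/
noncomputable def fY (k : ℕ) : ℝ := if k = 1 then 1 else if k = 2 then 4 / 3 else if k = 3 then 1 else if k = 4 then 2 / 3 else 0

/-- `φ_Z = 0, -1/3, -2/3, -1/3, -1/4` -/
noncomputable def fZ (k : ℕ) : ℝ :=
  if k = 1 then -1 / 3 else if k = 2 then -2 / 3 else if k = 3 then -1 / 3 else if k = 4 then -1 / 4 else 0

noncomputable def yy0 (y J J1 m : ℕ) : ℝ := rg (zz y J) m * fY (om y J J1 m)

noncomputable def zz0 (y J J1 m : ℕ) : ℝ := rg (zz y J) m * fZ (om y J J1 m)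

/-- the main term -/
noncomputable def MM2 (C0 C1 gp gY gZ k0 k1 kD : ℝ) : ℝ :=
  k0 * (2 * gp - k0 + gY) + k1 * (-(4 / 3) * gp + k0 / 3 + gZ) - C0 * k0 * kD - C1 * kD ^ 2

end Pool.Agent.H9.TN
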