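import Pool.Agent.H9.TM.LinM
import Pool.Agent.H9.TM.MeanS
import Pool.Agent.H9.TN.Defs
import Pool.Agent.H91.TQ.Ram
import Pool.Agent.H76.GB.Defs

/-!
# TM MeanS: the mean of `om rg` over a long interval
-/

set_option autoImplicit false

namespace Pool.Agent.H9.TN

open Finset
open Pool.Agent.H76.TP (yN zz rg PY)
open Pool.Agent.H91.TQ (om W1)
open Pool.Agent.H46.TPQ (SvI)
open Pool.Agent.H9.TM (PE lin_m MeanS_le_zz MeanS_div MeanS_len)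

private theorem MeanS_om (y J J1 m : ℕ) (hm : 1 ≤ m) :
    (om y J J1 m : ℝ) = ∑ p ∈ PY (zz y J) (zz y J1), if p ∣ m then (1 : ℝ) else 0 := by
  rw [← sum_filter, sum_const, nsmul_eq_mul, mul_one]
  unfold om
  congr 2
  ext p
  unfold PY
  rw [mem_filter, mem_filter, mem_filter, mem_Ioc, Nat.mem_primeFactors]
  constructor
  · rintro ⟨⟨h1, h2, -⟩, h3, h4⟩
    exact ⟨⟨⟨h3, h4⟩, h1⟩, h2⟩
  · rintro ⟨⟨⟨h3, h4⟩, h1⟩, h2⟩
    exact ⟨⟨h1, h2, by omega⟩, h3, h4⟩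

private theorem MeanS_rg (y m p : ℕ) (hp : p.Prime) (hpm : p ∣ m) (hpy : y < p) :
    rg y m = rg y (m / p) := by
  unfold rg
  have h : (∀ q : ℕ, q.Prime → q ∣ m → y < q) ↔ ∀ q : ℕ, q.Prime → q ∣ m / p → y < q := by
    constructor
    · intro h q hq hqm
      exact h q hq (hqm.trans (Nat.div_dvd_of_dvd hpm))
    · intro h q hq hqm
      obtain ⟨k, rfl⟩ := hpm
      rw [Nat.mul_div_cancel_left _ hp.pos] at h
      rcases (Nat.Prime.dvd_mul hq).1 hqm with h1 | h1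
      · rw [(Nat.prime_dvd_prime_iff_eq hq hp).1 h1]
        exact hpy
      · exact h q hq h1
  by_cases h1 : ∀ q : ℕ, q.Prime → q ∣ m / p → y < q
  · rw [if_pos h1, if_pos (h.2 h1)]
  · rw [if_neg h1, if_neg fun h2 => h1 (h.1 h2)]

/-- the sum of `om * rg` over an interval -/
theorem MeanS_omrg (y J J1 x l : ℕ) :
    ∑ m ∈ Ioc x (x + l), (om y J J1 m : ℝ) * rg y m =
      ∑ p ∈ PY (zz y J) (zz y J1), ∑ k ∈ Ioc (x / p) ((x + l) / p), rg y k := by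
  have h1 : ∀ m ∈ Ioc x (x + l), (om y J J1 m : ℝ) * rg y m =
      ∑ p ∈ PY (zz y J) (zz y J1), if p ∣ m then rg y (m / p) else 0 := by
    intro m hm
    rw [mem_Ioc] at hm
    rw [MeanS_om y J J1 m (by omega), sum_mul]
    refine sum_congr rfl fun p hp => ?_
    unfold PY at hp
    rw [mem_filter, mem_Ioc] at hp
    by_cases hpm : p ∣ m
    · rw [if_pos hpm, if_pos hpm, one_mul]
      exact MeanS_rg y m p hp.2 hpm (lt_of_le_of_lt (MeanS_le_zz y J) hp.1.1)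
    · rw [if_neg hpm, if_neg hpm, zero_mul]
  rw [sum_congr rfl h1, sum_comm]
  refine sum_congr rfl fun p hp => ?_
  unfold PY at hp
  rw [mem_filter] at hp
  rw [← sum_filter]
  exact MeanS_div (rg y) x l p hp.2.one_lt.le

/-- `W1 ≤ 1/2` -/
theorem MeanS_W1 : ∃ N0 : ℕ, ∀ N : ℕ, N0 ≤ N → ∀ y J J1 : ℕ, LevR N y J J1 → 0 ≤ W1 y J J1 ∧ W1 y J J1 ≤ 1 := by
  obtain ⟨N0, hN0⟩ := lin_m (2082 / 10000) 1 (1 / 10) (by norm_num) (by norm_num) (by norm_num)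
  refine ⟨N0 + 1, fun N hN y J J1 hL => ?_⟩
  obtain ⟨hJ, h1, h2, h3, h4⟩ := hL
  have hN1 : (1 : ℝ) ≤ N := by exact_mod_cast (by omega : 1 ≤ N)
  have h := hN0 N (by omega) (2082 / 10000) (3541 / 10000) 1 0 le_rfl (by norm_num) (by norm_num) (by simp) (by simp)
    (fun u _ => by norm_num)
  have hlog : Real.log ((3541 / 10000 : ℝ) / (2082 / 10000)) ≤ 3541 / 10000 / (2082 / 10000) - 1 :=
    Real.log_le_sub_one_of_pos (by norm_num)
  refine ⟨?_, ?_⟩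
  · unfold W1
    exact sum_nonneg fun p _ => by positivity
  · have hsub : PY (zz y J) (zz y J1) ⊆ PE N (2082 / 10000) (3541 / 10000) := by
      intro p hp
      unfold PY at hp
      unfold PE
      rw [mem_filter, mem_Ioc] at hp
      rw [mem_filter, mem_Icc]
      have k1 : (zz y J : ℝ) < p := by exact_mod_cast hp.1.1
      have k2 : (p : ℝ) ≤ zz y J1 := by exact_mod_cast hp.1.2
      have k3 : (p : ℝ) ≤ N := by
        refine (k2.trans h4).trans ?_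
        calc (N : ℝ) ^ (3541 / 10000 : ℝ) ≤ (N : ℝ) ^ (1 : ℝ) := Real.rpow_le_rpow_of_exponent_le hN1 (by norm_num)
          _ = N := Real.rpow_one _
      exact ⟨⟨hp.2.one_lt.le, by exact_mod_cast k3⟩, hp.2, lt_of_le_of_lt h1 k1, k2.trans h4⟩
    have h5 : W1 y J J1 ≤ ∑ p ∈ PE N (2082 / 10000) (3541 / 10000), (1 + 0 * (Real.log p / Real.log N)) / (p : ℝ) := by
      unfold W1
      refine (sum_le_sum_of_subset_of_nonneg hsub fun p _ _ => by positivity).trans (le_of_eq ?_)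
      refine sum_congr rfl fun p _ => ?_
      rw [zero_mul, add_zero]
    have h6 : (3541 / 10000 : ℝ) / (2082 / 10000) - 1 ≤ 71 / 100 := by norm_num
    linarith

/-- facts for large `N` -/
private theorem MeanS_large (K : ℕ) : ∃ N0 : ℕ, ∀ N : ℕ, N0 ≤ N → (10 : ℝ) ^ 9 ≤ Real.log N ∧
    (10 : ℝ) ^ 9 * Real.log N ^ (K + 3) * (N : ℝ) ^ (31 / 50 : ℝ) ≤ N := by
  obtain ⟨x1, hx1⟩ := Pool.Agent.H76.GB.log_ge (10 ^ 9)
  obtain ⟨x2, hx2⟩ := Pool.Agent.H76.GB.log_pow_le (19 / 50) (10 ^ 9) (by norm_num) (by norm_num) (K + 3)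
  refine ⟨x1 + x2 + 1, fun N hN => ?_⟩
  have g1 := hx1 N (by omega)
  have g2 := hx2 N (by omega)
  have hNpos : (0 : ℝ) < N := by exact_mod_cast (by omega : 0 < N)
  refine ⟨g1, ?_⟩
  have h6 : (N : ℝ) = (N : ℝ) ^ (19 / 50 : ℝ) * (N : ℝ) ^ (31 / 50 : ℝ) := by
    rw [← Real.rpow_add hNpos]
    have : (19 / 50 : ℝ) + 31 / 50 = 1 := by norm_num
    rw [this, Real.rpow_one]
  calc (10 : ℝ) ^ 9 * Real.log N ^ (K + 3) * (N : ℝ) ^ (31 / 50 : ℝ) ≤ (N : ℝ) ^ (19 / 50 : ℝ) * (N : ℝ) ^ (31 / 50 : ℝ) :=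
        mul_le_mul_of_nonneg_right g2 (by positivity)
    _ = N := h6.symm

theorem mean_s (K : ℕ) : ∃ N0 : ℕ, ∀ N : ℕ, N0 ≤ N → ∀ (y J J1 x l : ℕ) (S T : ℕ → ℝ) (kS kT : ℝ),
    LevR N y J J1 → SvI N y (1 / 10 ^ 7) S T kS kT → N ≤ 8 * x → x ≤ 8 * N → (x : ℝ) / Real.log N ^ K ≤ l →
      |∑ m ∈ Ioc x (x + l), (om y J J1 m : ℝ) * rg y m - kT * W1 y J J1 * l| ≤ (1 / 10 ^ 6) * l / Real.log N := by
  obtain ⟨N1, hN1⟩ := MeanS_W1
  obtain ⟨N2, hN2⟩ := MeanS_large K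
  refine ⟨N1 + N2 + 1, fun N hN y J J1 x l S T kS kT hLev hSv hx1 hx2 hl => ?_⟩
  obtain ⟨hW0, hW1⟩ := hN1 N (by omega) y J J1 hLev
  obtain ⟨g1, g2⟩ := hN2 N (by omega)
  obtain ⟨hJ, h1, h2, h3, h4⟩ := hLev
  obtain ⟨-, -, hkT, -, hint⟩ := hSv
  set L := Real.log N with hL
  have hN1' : (1 : ℝ) ≤ N := by exact_mod_cast (by omega : 1 ≤ N)
  have hNpos : (0 : ℝ) < N := by linarith
  have hL0 : 0 < L := by linarith [show (0 : ℝ) < 10 ^ 9 by norm_num]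
  have hL1 : 1 ≤ L := by linarith [show (1 : ℝ) ≤ 10 ^ 9 by norm_num]
  have hxR : (N : ℝ) ≤ 8 * x := by exact_mod_cast hx1
  have hxl : (N : ℝ) ≤ 8 * (l * L ^ K) := by
    have := (div_le_iff₀ (by positivity : (0 : ℝ) < L ^ K)).1 hl
    linarith
  have hx1n : 1 ≤ x := by omega
  have h35 : (N : ℝ) ^ (1 / 4 : ℝ) * (N : ℝ) ^ (3541 / 10000 : ℝ) ≤ (N : ℝ) ^ (31 / 50 : ℝ) := by
    rw [← Real.rpow_add hNpos]
    exact Real.rpow_le_rpow_of_exponent_le hN1' (by norm_num)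
  -- `l ≥ 10^8 L^3 N^(3/5)`
  have hlbig : (10 : ℝ) ^ 8 * L ^ 3 * (N : ℝ) ^ (31 / 50 : ℝ) ≤ l := by
    have e1 : (10 : ℝ) ^ 8 * L ^ 3 * (N : ℝ) ^ (31 / 50 : ℝ) * L ^ K ≤ l * L ^ K := by
      have e2 : (10 : ℝ) ^ 9 * L ^ (K + 3) * (N : ℝ) ^ (31 / 50 : ℝ) =
          10 * ((10 : ℝ) ^ 8 * L ^ 3 * (N : ℝ) ^ (31 / 50 : ℝ) * L ^ K) := by ring
      rw [e2] at g2
      have e3 : 0 ≤ (10 : ℝ) ^ 8 * L ^ 3 * (N : ℝ) ^ (31 / 50 : ℝ) * L ^ K := by positivity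
      linarith
    exact le_of_mul_le_mul_right e1 (by positivity)
  have hterm : ∀ p ∈ PY (zz y J) (zz y J1),
      |(∑ k ∈ Ioc (x / p) ((x + l) / p), rg y k) - kT * l * (1 / p)| ≤ (1 / 10 ^ 7) * l / L * (1 / p) + 2 := by
    intro p hp
    unfold PY at hp
    rw [mem_filter, mem_Ioc] at hp
    have hp1 : 1 ≤ p := hp.2.one_lt.le
    have hp0 : (0 : ℝ) < p := by exact_mod_cast hp1
    have hpz : (p : ℝ) ≤ (N : ℝ) ^ (3541 / 10000 : ℝ) := le_trans (by exact_mod_cast hp.1.2) h4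
    obtain ⟨a1, a2, a3⟩ := MeanS_len x l p hp1
    set lp := (x + l) / p - x / p with hlp
    have b0 : 2 * (N : ℝ) ^ (1 / 4 : ℝ) ≤ l / p := by
      rw [le_div_iff₀ hp0]
      have h5 : (1 : ℝ) ≤ L ^ 3 := one_le_pow₀ hL1
      calc 2 * (N : ℝ) ^ (1 / 4 : ℝ) * p ≤ 2 * (N : ℝ) ^ (1 / 4 : ℝ) * (N : ℝ) ^ (3541 / 10000 : ℝ) := by gcongr
        _ = 2 * ((N : ℝ) ^ (1 / 4 : ℝ) * (N : ℝ) ^ (3541 / 10000 : ℝ)) := by ring
        _ ≤ 2 * (N : ℝ) ^ (31 / 50 : ℝ) := by linarith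
        _ ≤ (10 : ℝ) ^ 8 * L ^ 3 * (N : ℝ) ^ (31 / 50 : ℝ) := by
            apply mul_le_mul_of_nonneg_right _ (by positivity)
            linarith [show (2 : ℝ) ≤ 10 ^ 8 by norm_num, mul_le_mul_of_nonneg_left h5 (show (0 : ℝ) ≤ 10 ^ 8 by norm_num)]
        _ ≤ l := hlbig
    have h14 : (1 : ℝ) ≤ (N : ℝ) ^ (1 / 4 : ℝ) := Real.one_le_rpow hN1' (by norm_num)
    have b1 : (N : ℝ) ^ (1 / 4 : ℝ) ≤ lp := by linarith
    have b2 : 1 ≤ x / p := by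
      have c1 : (1 : ℝ) ≤ (x : ℝ) / p := by
        have c2 : (l : ℝ) / p ≥ 2 := by linarith
        rw [le_div_iff₀ hp0]
        have c3 : (N : ℝ) ^ (3541 / 10000 : ℝ) ≤ (N : ℝ) ^ (31 / 50 : ℝ) := Real.rpow_le_rpow_of_exponent_le hN1' (by norm_num)
        have c4 : 8 * (N : ℝ) ^ (31 / 50 : ℝ) ≤ N := by
          refine le_trans ?_ g2
          apply mul_le_mul_of_nonneg_right _ (by positivity)
          have c5 : (1 : ℝ) ≤ L ^ (K + 3) := one_le_pow₀ hL1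
          linarith [show (8 : ℝ) ≤ 10 ^ 9 by norm_num, mul_le_mul_of_nonneg_left c5 (show (0 : ℝ) ≤ 10 ^ 9 by norm_num)]
        linarith
      have c6 : p ≤ x := by
        rw [le_div_iff₀ hp0, one_mul] at c1
        exact_mod_cast c1
      exact (Nat.one_le_div_iff (by omega)).2 c6
    have b3 : x / p ≤ 16 * N := (Nat.div_le_self x p).trans (by omega)
    have hb := (hint (x / p) lp b2 b3 b1).2
    rw [← a1] at hb
    have c1 : |kT * lp - kT * l * (1 / p)| ≤ 1 := by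
      have h2 : kT * lp - kT * l * (1 / p) = kT * ((lp : ℝ) - l / p) := by ring
      rw [h2, abs_mul]
      calc |kT| * |(lp : ℝ) - l / p| ≤ 1 * 1 := by
            apply mul_le_mul hkT _ (abs_nonneg _) zero_le_one
            rw [abs_le]
            constructor <;> linarith
        _ = 1 := one_mul 1
    have c2 : 1 / 10 ^ 7 * (lp : ℝ) / L ≤ 1 / 10 ^ 7 * l / L * (1 / p) + 1 := by
      have h1 : 1 / 10 ^ 7 * (lp : ℝ) / L ≤ 1 / 10 ^ 7 * (l / p + 1) / L := by gcongr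
      have h2 : 1 / 10 ^ 7 * ((l : ℝ) / p + 1) / L = 1 / 10 ^ 7 * l / L * (1 / p) + 1 / 10 ^ 7 / L := by
        field_simp
      have h3 : (1 : ℝ) / 10 ^ 7 / L ≤ 1 := by
        rw [div_le_one hL0]
        linarith [show (1 : ℝ) / 10 ^ 7 ≤ 1 by norm_num]
      linarith
    rw [abs_le] at hb c1 ⊢
    constructor <;> linarith [hb.1, hb.2, c1.1, c1.2]
  rw [MeanS_omrg y J J1 x l]
  have hsum : |∑ p ∈ PY (zz y J) (zz y J1), ((∑ k ∈ Ioc (x / p) ((x + l) / p), rg y k) - kT * l * (1 / (p : ℝ)))| ≤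
      ∑ p ∈ PY (zz y J) (zz y J1), ((1 / 10 ^ 7) * l / L * (1 / (p : ℝ)) + 2) :=
    (abs_sum_le_sum_abs _ _).trans (sum_le_sum hterm)
  rw [sum_sub_distrib, ← mul_sum, sum_add_distrib, ← mul_sum, sum_const, nsmul_eq_mul] at hsum
  have hWdef : ∑ p ∈ PY (zz y J) (zz y J1), 1 / (p : ℝ) = W1 y J J1 := rfl
  rw [hWdef] at hsum
  have hcard : ((PY (zz y J) (zz y J1)).card : ℝ) ≤ (N : ℝ) ^ (31 / 50 : ℝ) := by
    have e1 : (PY (zz y J) (zz y J1)).card ≤ zz y J1 := by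
      unfold PY
      refine (card_filter_le _ _).trans ?_
      rw [Nat.card_Ioc]
      omega
    have e2 : ((PY (zz y J) (zz y J1)).card : ℝ) ≤ zz y J1 := by exact_mod_cast e1
    exact (e2.trans h4).trans (Real.rpow_le_rpow_of_exponent_le hN1' (by norm_num))
  have hcard2 : ((PY (zz y J) (zz y J1)).card : ℝ) * 2 ≤ (1 / 10 ^ 7) * l / L := by
    rw [le_div_iff₀ hL0]
    have e1 : (N : ℝ) ^ (31 / 50 : ℝ) * 2 * L * 10 ^ 7 ≤ (10 : ℝ) ^ 8 * L ^ 3 * (N : ℝ) ^ (31 / 50 : ℝ) := by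
      have e2 : L ≤ L ^ 3 := by
        have : L ^ 1 ≤ L ^ 3 := pow_le_pow_right₀ hL1 (by norm_num)
        rwa [pow_one] at this
      have e3 : 0 ≤ (N : ℝ) ^ (31 / 50 : ℝ) := by positivity
      have e4 : (N : ℝ) ^ (31 / 50 : ℝ) * L ≤ (N : ℝ) ^ (31 / 50 : ℝ) * L ^ 3 := mul_le_mul_of_nonneg_left e2 e3
      have e5 : 0 ≤ (N : ℝ) ^ (31 / 50 : ℝ) * L ^ 3 := by positivity
      nlinarith
    have e6 : ((PY (zz y J) (zz y J1)).card : ℝ) * 2 * L ≤ (N : ℝ) ^ (31 / 50 : ℝ) * 2 * L := by gcongr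
    linarith
  have hW2 : (1 / 10 ^ 7) * (l : ℝ) / L * W1 y J J1 ≤ (1 / 10 ^ 7) * l / L * 1 := by
    apply mul_le_mul_of_nonneg_left (by linarith) (by positivity)
  have hfin : kT * l * W1 y J J1 = kT * W1 y J J1 * l := by ring
  rw [hfin] at hsum
  refine hsum.trans ?_
  have e7 : (1 / 10 ^ 6) * (l : ℝ) / L = 10 * ((1 / 10 ^ 7) * l / L) := by ring
  rw [e7]
  have e8 : 0 ≤ (1 / 10 ^ 7) * (l : ℝ) / L := by positivity
  linarith

end Pool.Agent.H9.TN
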