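import Pool.Agent.H9.TN.Defs

/-!
# TN Poly: the polynomial inequality behind the mass condition (certificate 2)

`V = 1 - a0² - (2/3) a2 - 2 a3 - (10/3) a4 - (2/3) a0 a1 - a1 a4/4 - a2²/3 - (2/3) a2 a3 - (7/6) a2 a4 - a3 a4/12`.
-/

set_option autoImplicit false

namespace Pool.Agent.H9.TN

theorem poly_id (a0 a1 a2 a3 a4 : ℝ) :
    MM2 0 0 1 (a1 + 4 / 3 * a2 + a3 + 2 / 3 * a4) (-(1 / 3) * a1 - 2 / 3 * a2 - 1 / 3 * a3 - 1 / 4 * a4)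
      (1 + a0 + a1 + a2 + a3 + a4) (a1 + 2 * a2 + 3 * a3 + 4 * a4) 0 =
      1 - a0 ^ 2 - 2 / 3 * a2 - 2 * a3 - 10 / 3 * a4 - 2 / 3 * a0 * a1 - a1 * a4 / 4 - a2 ^ 2 / 3 - 2 / 3 * a2 * a3
        - 7 / 6 * a2 * a4 - a3 * a4 / 12 := by
  unfold MM2
  ring

theorem poly_lb (a0 a1 a2 a3 a4 t : ℝ) (h0 : 0 ≤ a0) (h1 : 0 ≤ a1) (h2 : 0 ≤ a2) (h3 : 0 ≤ a3) (h4 : 0 ≤ a4) (ht : 0 ≤ t)
    (b0 : a0 ≤ 603 / 1000) (b1 : a1 ≤ 790 / 1000) (b2 : a2 + 3 * t ≤ 330 / 1000) (b3 : a3 - t + a4 ≤ 10 / 1000) (b4 : t ≤ a3) :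
    2 / 100 ≤ MM2 0 0 1 (a1 + 4 / 3 * a2 + a3 + 2 / 3 * a4) (-(1 / 3) * a1 - 2 / 3 * a2 - 1 / 3 * a3 - 1 / 4 * a4)
      (1 + a0 + a1 + a2 + a3 + a4) (a1 + 2 * a2 + 3 * a3 + 4 * a4) 0 := by
  rw [poly_id]
  obtain ⟨s, hs⟩ : ∃ s, s = a3 - t := ⟨_, rfl⟩
  have e3 : a3 = t + s := by linarith
  have hs0 : 0 ≤ s := by linarith
  have c0 : a0 ^ 2 ≤ (603 / 1000) ^ 2 := pow_le_pow_left₀ h0 b0 2
  have c1 : a0 * a1 ≤ 603 / 1000 * (790 / 1000) := mul_le_mul b0 b1 h1 (by norm_num)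
  have c2 : a1 * a4 ≤ 790 / 1000 * (10 / 1000) := mul_le_mul b1 (by linarith) h4 (by norm_num)
  have c3 : (a2 + 3 * t) ^ 2 ≤ (330 / 1000) ^ 2 := pow_le_pow_left₀ (by linarith) b2 2
  have c4 : a2 ^ 2 / 3 + 2 / 3 * a2 * t ≤ (a2 + 3 * t) ^ 2 / 3 := by nlinarith [mul_nonneg h2 ht, mul_nonneg ht ht]
  have c5 : a2 * s ≤ 330 / 1000 * (10 / 1000) := mul_le_mul (by linarith) (by linarith) hs0 (by norm_num)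
  have c6 : a2 * a4 ≤ 330 / 1000 * (10 / 1000) := mul_le_mul (by linarith) (by linarith) h4 (by norm_num)
  have c7 : a3 * a4 ≤ 120 / 1000 * (10 / 1000) := mul_le_mul (by linarith) (by linarith) h4 (by norm_num)
  have c8 : 2 / 3 * a2 * a3 = 2 / 3 * a2 * t + 2 / 3 * (a2 * s) := by rw [e3]; ring
  rw [c8]
  have c9 : 2 * s + 10 / 3 * a4 + 2 / 3 * (a2 * s) + 7 / 6 * (a2 * a4) ≤ 10 / 3 * (10 / 1000) + 7 / 6 * (330 / 1000 * (10 / 1000)) := by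
    have d1 : a2 * (s + a4) ≤ 330 / 1000 * (10 / 1000) := mul_le_mul (by linarith) (by linarith) (by linarith) (by norm_num)
    have d2 : 0 ≤ a2 * s := mul_nonneg h2 hs0
    nlinarith
  have c10 : 2 * a3 = 2 * t + 2 * s := by rw [e3]; ring
  rw [c10]
  nlinarith

/-- perturbation -/
theorem poly_pert (C0 C1 a0 a1 a2 a3 a4 t gp α ω κ : ℝ) (hC0 : 0 ≤ C0) (hC0' : C0 ≤ 100) (hC1 : 0 ≤ C1) (hC1' : C1 ≤ 100)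
    (h0 : 0 ≤ a0) (h1 : 0 ≤ a1) (h2 : 0 ≤ a2) (h3 : 0 ≤ a3) (h4 : 0 ≤ a4) (ht : 0 ≤ t)
    (b0 : a0 ≤ 603 / 1000) (b1 : a1 ≤ 790 / 1000) (b2 : a2 + 3 * t ≤ 330 / 1000) (b3 : a3 - t + a4 ≤ 10 / 1000) (b4 : t ≤ a3)
    (hgp : |gp - 1| ≤ 1 / 10 ^ 4) (hα : |α - (1 + a0 + a1 + a2 + a3 + a4)| ≤ 2 / 10 ^ 5)
    (hω : |ω - (a1 + 2 * a2 + 3 * a3 + 4 * a4)| ≤ 2 / 10 ^ 5) (hκ0 : 0 ≤ κ) (hκ : κ ≤ 1 / 10 ^ 6) :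
    1 / 100 ≤ MM2 C0 C1 gp (a1 + 4 / 3 * a2 + a3 + 2 / 3 * a4) (-(1 / 3) * a1 - 2 / 3 * a2 - 1 / 3 * a3 - 1 / 4 * a4) α ω κ := by
  have hlb := poly_lb a0 a1 a2 a3 a4 t h0 h1 h2 h3 h4 ht b0 b1 b2 b3 b4
  obtain ⟨A, hA⟩ : ∃ A, A = 1 + a0 + a1 + a2 + a3 + a4 := ⟨_, rfl⟩
  obtain ⟨W, hW⟩ : ∃ W, W = a1 + 2 * a2 + 3 * a3 + 4 * a4 := ⟨_, rfl⟩
  obtain ⟨Y, hY⟩ : ∃ Y, Y = a1 + 4 / 3 * a2 + a3 + 2 / 3 * a4 := ⟨_, rfl⟩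
  obtain ⟨Z, hZ⟩ : ∃ Z, Z = -(1 / 3) * a1 - 2 / 3 * a2 - 1 / 3 * a3 - 1 / 4 * a4 := ⟨_, rfl⟩
  rw [← hA, ← hW, ← hY, ← hZ] at hlb
  rw [← hA] at hα
  rw [← hW] at hω
  rw [← hY, ← hZ]
  obtain ⟨p, hp⟩ : ∃ p, p = gp - 1 := ⟨_, rfl⟩
  obtain ⟨s, hs⟩ : ∃ s, s = α - A := ⟨_, rfl⟩
  obtain ⟨r, hr⟩ : ∃ r, r = ω - W := ⟨_, rfl⟩
  rw [← hp] at hgp
  rw [← hs] at hα
  rw [← hr] at hω
  have e1 : gp = 1 + p := by linarith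
  have e2 : α = A + s := by linarith
  have e3 : ω = W + r := by linarith
  have hA1 : 0 ≤ A ∧ A ≤ 3 := by constructor <;> linarith
  have hW1 : 0 ≤ W ∧ W ≤ 2 := by constructor <;> linarith
  have hY1 : 0 ≤ Y ∧ Y ≤ 2 := by constructor <;> linarith
  have hZ1 : -1 ≤ Z ∧ Z ≤ 0 := by constructor <;> linarith
  have hdiff : MM2 C0 C1 gp Y Z α ω κ - MM2 0 0 1 Y Z A W 0 =
      2 * p * (A + s) - 4 / 3 * p * (W + r) + s * (2 - 2 * A + Y + W / 3 + r / 3) - s ^ 2 + r * (A / 3 - 4 / 3 + Z)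
        - C0 * (A + s) * κ - C1 * κ ^ 2 := by
    rw [e1, e2, e3]
    unfold MM2
    ring
  rw [abs_le] at hgp hα hω
  obtain ⟨p1, p2⟩ := hgp
  obtain ⟨s1, s2⟩ := hα
  obtain ⟨r1, r2⟩ := hω
  have bd : ∀ u v δ M : ℝ, -δ ≤ u → u ≤ δ → -M ≤ v → v ≤ M → -(δ * M) ≤ u * v := by
    intro u v δ M hu1 hu2 hv1 hv2
    have hu : |u| ≤ δ := abs_le.2 ⟨hu1, hu2⟩
    have hv : |v| ≤ M := abs_le.2 ⟨hv1, hv2⟩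
    have : |u * v| ≤ δ * M := by
      rw [abs_mul]
      exact mul_le_mul hu hv (abs_nonneg _) ((abs_nonneg _).trans hu)
    exact (abs_le.1 this).1
  have c1 := bd p (A + s) (1 / 10 ^ 4) 4 p1 p2 (by linarith) (by linarith)
  have c2 := bd (-p) (W + r) (1 / 10 ^ 4) 3 (by linarith) (by linarith) (by linarith) (by linarith)
  have c3 := bd s (2 - 2 * A + Y + W / 3 + r / 3) (2 / 10 ^ 5) 6 (by linarith) s2 (by linarith) (by linarith)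
  have c4 := bd r (A / 3 - 4 / 3 + Z) (2 / 10 ^ 5) 4 (by linarith) r2 (by linarith) (by linarith)
  have c5 : s ^ 2 ≤ (2 / 10 ^ 5) ^ 2 := by
    rw [← sq_abs]
    exact pow_le_pow_left₀ (abs_nonneg _) (abs_le.2 ⟨by linarith, s2⟩) 2
  have c6 : C0 * (A + s) * κ ≤ 100 * 4 * (1 / 10 ^ 6) :=
    mul_le_mul (mul_le_mul hC0' (by linarith) (by linarith) (by norm_num)) hκ hκ0 (by norm_num)
  have c7 : C1 * κ ^ 2 ≤ 100 * (1 / 10 ^ 6) ^ 2 :=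
    mul_le_mul hC1' (pow_le_pow_left₀ hκ0 hκ 2) (by positivity) (by norm_num)
  norm_num at c1 c2 c3 c4 c5 c6 c7 ⊢
  linarith

end Pool.Agent.H9.TN
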